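import Pool.Agent.N108.ZZ.HH
import Pool.Agent.TH167.TT.Irr2
import Pool.Agent.TH167.Neg.Dim
import Pool.Agent.TH167.SH.Fam

set_option autoImplicit false

/-!
# Negative curves at very general points: `K C ≥ 6`
-/

namespace Pool.Agent.N108.ZZ

open MvPolynomial Pool.Agent.W609 Pool.Agent.W609.CR Pool.Agent.TH167 Pool.Agent.TH167.SH

theorem neg_six {r : ℕ} {P : Fin (r + 4) → Fin 2 → ℂ}
    (hP : AlgebraicIndependent ℚ (fun ij : Fin (r + 4) × Fin 2 => P ij.1 ij.2)) {d : ℕ}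
    {w : Fin (r + 4) → ℕ} {C : MvPolynomial (Fin 3) ℂ} (hC : SHDefs.Curve P C d w)
    (hneg : SHDefs.inter d w d w < 0) (hne : ¬ SHDefs.MinusOne P C d w) :
    6 ≤ SHDefs.interK d w ∧
    ∃ (P1 : Fin (r + 4) → Fin 2 → ℂ) (d1 : ℕ) (w1 : Fin (r + 4) → ℕ)
      (C1 : MvPolynomial (Fin 3) ℂ),
      AlgebraicIndependent ℚ (fun ij : Fin (r + 4) × Fin 2 => P1 ij.1 ij.2) ∧
      SHDefs.Curve P1 C1 d1 w1 ∧ Relation.ReflTransGen SHDefs.Quadratic (d, w) (d1, w1) ∧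
      (∀ i j k, i ≠ j → i ≠ k → j ≠ k → w1 i + w1 j + w1 k ≤ d1) ∧ d1 ≤ d ∧
      (∀ i, w1 i ≤ w i) ∧ SHDefs.inter d1 w1 d1 w1 = SHDefs.inter d w d w ∧
      SHDefs.interK d1 w1 = SHDefs.interK d w ∧
      3 * d1 + 6 ≤ ∑ i, (if 2 ≤ w1 i then w1 i else 0) := by
  obtain ⟨h1, h2, h3⟩ := curve_iff.1 hC
  have hne' : ¬ (ip d w d w = -1 ∧ kk d w = 1) := fun h0 =>
    hne ⟨hC, by rw [inter_eq, h0.1], by rw [interK_eq, h0.2]⟩
  rcases TT.irr_red d P hP w C h1 h2 h3 with ⟨a1, a2, a3⟩ |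
    ⟨P1, e, u, G, b1, b2, b3, b4, b5, b6, b7, b8, b9⟩
  · exact absurd ⟨a2, a3⟩ hne'
  · obtain ⟨q1, q2, q3⟩ := quad_inv b5
    simp only at q1 q2 q3
    rw [inter_eq] at hneg
    have hneg1 : ip e u e u < 0 := by rw [q3]; exact hneg
    have hfin := vs_fin (fun j => aff (P1 j)) u e
    have hneg' : e ^ 2 < ∑ j, u j ^ 2 := by
      unfold ip at hneg1
      have : ((e ^ 2 : ℕ) : ℤ) < ((∑ j, u j ^ 2 : ℕ) : ℤ) := by
        push_cast
        have h5 : ∑ j, (u j : ℤ) * u j = ∑ j, (u j : ℤ) ^ 2 :=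
          Finset.sum_congr rfl fun j _ => by ring
        rw [h5] at hneg1
        linarith [sq (e : ℤ)]
      exact_mod_cast this
    have hone := Neg.neg_dim P1 (inj_of_alg b1) u G e b2 b3 b4 hneg'
    have hbig : 3 * e + 6 ≤ ∑ i, (if 2 ≤ u i then u i else 0) := by
      by_contra hcon
      have hdim := std_dim1 b1 b6 (by omega : ∑ j, (if 2 ≤ u j then u j else 0) ≤ 3 * e + 5)
      have hχ : chi e u = 1 := by omega
      have h2χ := two_chi e u
      rw [hχ] at h2χ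
      have hkk : 0 < kk e u := by
        push_cast at h2χ
        linarith
      have hsum : ∑ j, u j ≤ 3 * e := by
        unfold kk at hkk
        have : ((∑ j, u j : ℕ) : ℤ) ≤ ((3 * e : ℕ) : ℤ) := by
          push_cast
          linarith
        exact_mod_cast this
      have h6 := red_ip b6 (fun j => van_le b2.ne_zero b3 (b4 j).1) hsum
      linarith
    have h8 := hbig.trans (big_le u)
    have h9 : ((3 * e + 6 : ℕ) : ℤ) ≤ ((∑ i, u i : ℕ) : ℤ) := by exact_mod_cast h8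
    push_cast at h9
    refine ⟨?_, P1, e, u, G, b1, curve_iff.2 ⟨b2, b3, b4⟩, chain_conv b5, b6, b8, b7,
      by rw [inter_eq, inter_eq, q3], by rw [interK_eq, interK_eq, q2], hbig⟩
    rw [interK_eq, ← q2]
    unfold kk
    linarith

end Pool.Agent.N108.ZZ
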