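import Pool.Agent.N108.ZZ.HH
import Pool.Agent.N108.ZZ.NegSix
import Pool.Agent.H248R5.Gen

set_option autoImplicit false

/-!
# Prime and nef divisors at general points
-/

namespace Pool.Agent.N108.ZZ

open MvPolynomial Pool.Agent.W609 Pool.Agent.W609.CR Pool.Agent.TH167 Pool.Agent.TH167.SH

/-- A form of the class of a `(-1)`-curve is a multiple of its equation. -/
theorem exc_dim {K : Type} [Field K] {s : ℕ} {P : Fin s → Fin 2 → K}
    (hP : Function.Injective P) {C : MvPolynomial (Fin 3) K} {e : ℕ} {u : Fin s → ℕ}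
    (hC : Exc P C e u) : Module.finrank K ↥(VS (fun j => aff (P j)) u e) ≤ 1 := by
  have hmem : C ∈ VS (fun j => aff (P j)) u e := (mem_VS _ _ _ _).2 ⟨hC.hom, fun j => (hC.ord j).1⟩
  refine finrank_le_one (⟨C, hmem⟩ : ↥(VS (fun j => aff (P j)) u e)) fun f => ?_
  obtain ⟨f, hf⟩ := f
  have h1 := exc_pow_dvd hP hC 1 e u (by rw [self_iff.1 hC.self]; rfl) f hf
  rw [pow_one] at h1
  obtain ⟨H, rfl⟩ := h1
  rcases eq_or_ne H 0 with h0 | h0
  · refine ⟨0, Subtype.ext ?_⟩
    show (0 : K) • C = C * H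
    rw [h0, mul_zero, zero_smul]
  · have h2 : (C * H).totalDegree = e :=
      ((mem_VS _ _ _ _).1 hf).1.totalDegree (mul_ne_zero hC.irr.ne_zero h0)
    have h3 : C.totalDegree = e := hC.hom.totalDegree hC.irr.ne_zero
    rw [MvPolynomial.totalDegree_mul_of_isDomain hC.irr.ne_zero h0, h3] at h2
    have h4 : H.totalDegree = 0 := by omega
    rw [totalDegree_eq_zero_iff_eq_C] at h4
    refine ⟨coeff 0 H, Subtype.ext ?_⟩
    show coeff 0 H • C = C * H
    conv_rhs => rw [h4]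
    rw [MvPolynomial.smul_eq_C_mul, mul_comm]

/-- The form of a `(-1)`-curve met negatively by an irreducible curve is that curve. -/
theorem same_curve {K : Type} [Field K] {s : ℕ} {P : Fin s → Fin 2 → K}
    (hP : Function.Injective P) {C G : MvPolynomial (Fin 3) K} {d e : ℕ} {w u : Fin s → ℕ}
    (hC : SHDefs.Curve P C d w) (hG : SHDefs.MinusOne P G e u)
    (hneg : SHDefs.inter d w e u < 0) : d = e ∧ w = u := by
  obtain ⟨hCi, hCh, hCo⟩ := curve_iff.1 hC
  have hE := minusOne_iff.1 hG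
  have hmem : C ∈ VS (fun j => aff (P j)) w d := (mem_VS _ _ _ _).2 ⟨hCh, fun j => (hCo j).1⟩
  rw [inter_eq] at hneg
  have h9 := exc_pow_dvd hP hE 1 d w (by omega) C hmem
  rw [pow_one] at h9
  obtain ⟨H, hH⟩ := h9
  have hu : IsUnit H := by
    rcases hCi.isUnit_or_isUnit hH with h | h
    · exact absurd h hE.irr.not_isUnit
    · exact h
  obtain ⟨c, hc, rfl⟩ : ∃ c : K, c ≠ 0 ∧ H = MvPolynomial.C c := by
    have h10 := MvPolynomial.isUnit_iff_eq_C_of_isReduced.1 hu
    obtain ⟨c, hc, rfl⟩ := h10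
    exact ⟨c, hc.ne_zero, rfl⟩
  constructor
  · have t1 : C.totalDegree = d := hCh.totalDegree hCi.ne_zero
    have t2 : G.totalDegree = e := hE.hom.totalDegree hE.irr.ne_zero
    rw [hH, MvPolynomial.totalDegree_mul_of_isDomain hE.irr.ne_zero hu.ne_zero,
      MvPolynomial.totalDegree_C, t2] at t1
    omega
  · funext j
    have t1 : Ord (aff (P j)) (u j + 0) (G * MvPolynomial.C c) := by
      refine ord_mul (hE.ord j) ⟨van_zero _ _, fun h => ?_⟩
      rw [zero_add, van_one, MvPolynomial.eval_C] at h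
      exact hc h
    rw [add_zero, ← hH] at t1
    exact ord_unique (hCo j) t1

/-- Integral curves with `K C ≤ 5` in a linear system at general points: the system has the
expected dimension. -/
theorem prime_open {r : ℕ} (d : ℕ) (w : Fin (r + 4) → ℕ) :
    ∃ F : MvPolynomial (Fin (r + 4) × Fin 2) ℂ, F ≠ 0 ∧ ∀ P : Fin (r + 4) → Fin 2 → ℂ,
      MvPolynomial.eval (fun ij : Fin (r + 4) × Fin 2 => P ij.1 ij.2) F ≠ 0 →
        ∀ C : MvPolynomial (Fin 3) ℂ, SHDefs.Curve P C d w → SHDefs.interK d w ≤ 5 →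
          SHDefs.dimL P d w = SHDefs.virtdim d w := by
  obtain ⟨F, hF, hF'⟩ := hh_zz d w
  refine ⟨F * Pool.Agent.H248R5.disc ℂ (r + 4), mul_ne_zero hF
    (Pool.Agent.H248R5.disc_ne ℂ (r + 4)), fun P hP C hC hK => ?_⟩
  rw [map_mul] at hP
  have hP1 := left_ne_zero_of_mul hP
  have hinj := Pool.Agent.H248R5.inj_of_disc (right_ne_zero_of_mul hP)
  by_contra hne
  obtain ⟨hCi, hCh, hCo⟩ := curve_iff.1 hC
  have hmem : C ∈ VS (fun j => aff (P j)) w d := (mem_VS _ _ _ _).2 ⟨hCh, fun j => (hCo j).1⟩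
  have hfin := vs_fin (fun j => aff (P j)) w d
  have hpos : 0 < Module.finrank ℂ ↥(VS (fun j => aff (P j)) w d) :=
    Module.finrank_pos_iff.2 ⟨⟨C, hmem⟩, 0, fun h7 => hCi.ne_zero (congrArg Subtype.val h7)⟩
  have hsp : SHDefs.Special P d w := by
    rw [special_conv, special_iff]
    refine ⟨hpos, ?_⟩
    rw [dimL_eq, virtdim_eq] at hne
    have := chi_le_dim P d w
    omega
  rcases hF' P hP1 hsp with h | ⟨d', w', k, G, e, u, N, d1, w1, h1, h2, h3, h4, h5, h6, h7⟩
  · obtain ⟨G, e, u, hG, hG2⟩ := mspecial_curve h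
    have h3 := curve_sq_dvd hinj hG hG2 (by rw [sys_eq]; exact hmem)
    have h5 := hCi.squarefree G (by rw [← pow_two]; exact h3)
    exact hG.curve.irreducible.not_isUnit h5
  · rcases Nat.eq_zero_or_pos k with hk | hk
    · subst hk
      rw [Finset.univ_eq_empty, Finset.sum_empty, add_zero] at h2
      have h8 := h7.trans (big_le w1)
      have h9 : ((3 * d1 + 6 : ℕ) : ℤ) ≤ ((∑ i, w1 i : ℕ) : ℤ) := by exact_mod_cast h8
      push_cast at h9
      unfold SHDefs.interK at h2 hK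
      linarith
    · obtain ⟨a⟩ : Nonempty (Fin k) := ⟨⟨0, hk⟩⟩
      have hD := decomp_iff.1 h1
      have h8 := h1.pos a
      have h9 := same_curve hinj hC (h1.curve a) (by rw [inter_eq, hD.neg a]; omega)
      obtain ⟨e1, e2⟩ := h9
      subst e1 e2
      have h10 := exc_dim hinj (hD.exc a)
      have h11 := two_chi (e a) (u a)
      rw [self_iff.1 (hD.exc a).self, can_iff.1 (hD.exc a).can] at h11
      rw [special_conv, special_iff] at hsp
      omega

/-- Classes with `K D ≤ 5` which meet all `(-1)`-curves nonnegatively. -/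
theorem nef_open {r : ℕ} (d : ℕ) (w : Fin (r + 4) → ℕ) :
    ∃ F : MvPolynomial (Fin (r + 4) × Fin 2) ℂ, F ≠ 0 ∧ ∀ P : Fin (r + 4) → Fin 2 → ℂ,
      MvPolynomial.eval (fun ij : Fin (r + 4) × Fin 2 => P ij.1 ij.2) F ≠ 0 →
        (∀ (G : MvPolynomial (Fin 3) ℂ) (e : ℕ) (u : Fin (r + 4) → ℕ),
          SHDefs.MinusOne P G e u → 0 ≤ SHDefs.inter d w e u) → SHDefs.interK d w ≤ 5 →
        ¬ SHDefs.Special P d w := by
  obtain ⟨F, hF, hF'⟩ := hh_zz d w
  refine ⟨F, hF, fun P hP hnef hK hsp => ?_⟩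
  rcases hF' P hP hsp with h | ⟨d', w', k, G, e, u, N, d1, w1, h1, h2, h3, h4, h5, h6, h7⟩
  · obtain ⟨G, e, u, hG, hG2⟩ := mspecial_curve h
    have := hnef G e u hG
    omega
  · rcases Nat.eq_zero_or_pos k with hk | hk
    · subst hk
      rw [Finset.univ_eq_empty, Finset.sum_empty, add_zero] at h2
      have h8 := h7.trans (big_le w1)
      have h9 : ((3 * d1 + 6 : ℕ) : ℤ) ≤ ((∑ i, w1 i : ℕ) : ℤ) := by exact_mod_cast h8
      push_cast at h9
      unfold SHDefs.interK at h2 hK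
      linarith
    · obtain ⟨a⟩ : Nonempty (Fin k) := ⟨⟨0, hk⟩⟩
      have hD := decomp_iff.1 h1
      have h8 := h1.pos a
      have h9 := hnef (G a) (e a) (u a) (h1.curve a)
      rw [inter_eq, hD.neg a] at h9
      omega

end Pool.Agent.N108.ZZ
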