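import Pool.Agent.N108.ZZ.NegSix
import Pool.Agent.N565.NG.Fin
import Pool.Agent.N565.NG.Enum

set_option autoImplicit false

/-!
# Negative curves at very general points: `K C ≥ 7`, and `K C ≥ 8` if `C ^ 2 ≤ -2`

The inequalities are the theorem of helper565 (`Pool.Agent.N565.NG.neg_seven`).
-/

namespace Pool.Agent.N108.ZZ

open MvPolynomial Pool.Agent.W609 Pool.Agent.W609.CR Pool.Agent.TH167 Pool.Agent.TH167.SH

theorem neg_seven {r : ℕ} {P : Fin (r + 4) → Fin 2 → ℂ}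
    (hP : AlgebraicIndependent ℚ (fun ij : Fin (r + 4) × Fin 2 => P ij.1 ij.2)) {d : ℕ}
    {w : Fin (r + 4) → ℕ} {C : MvPolynomial (Fin 3) ℂ} (hC : SHDefs.Curve P C d w)
    (hneg : SHDefs.inter d w d w < 0) (hne : ¬ SHDefs.MinusOne P C d w) :
    7 ≤ SHDefs.interK d w ∧ (SHDefs.inter d w d w ≤ -2 → 8 ≤ SHDefs.interK d w) ∧
    ∃ (P1 : Fin (r + 4) → Fin 2 → ℂ) (d1 : ℕ) (w1 : Fin (r + 4) → ℕ)
      (C1 : MvPolynomial (Fin 3) ℂ),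
      AlgebraicIndependent ℚ (fun ij : Fin (r + 4) × Fin 2 => P1 ij.1 ij.2) ∧
      SHDefs.Curve P1 C1 d1 w1 ∧ Relation.ReflTransGen SHDefs.Quadratic (d, w) (d1, w1) ∧
      (∀ i j k, i ≠ j → i ≠ k → j ≠ k → w1 i + w1 j + w1 k ≤ d1) ∧ d1 ≤ d ∧
      (∀ i, w1 i ≤ w i) ∧ SHDefs.inter d1 w1 d1 w1 = SHDefs.inter d w d w ∧
      SHDefs.interK d1 w1 = SHDefs.interK d w ∧
      3 * d1 + 6 ≤ ∑ i, (if 2 ≤ w1 i then w1 i else 0) := by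
  obtain ⟨-, h6⟩ := neg_six hP hC hneg hne
  obtain ⟨h1, h2, h3⟩ := curve_iff.1 hC
  have hne' : ¬ (ip d w d w = -1 ∧ kk d w = 1) := fun h0 =>
    hne ⟨hC, by rw [inter_eq, h0.1], by rw [interK_eq, h0.2]⟩
  rw [inter_eq] at hneg
  obtain ⟨a, b, -⟩ :=
    Pool.Agent.N565.NG.neg_seven Pool.Agent.N565.NG.t_ENUM hP h1 h2 h3 hneg hne'
  refine ⟨?_, ?_, h6⟩
  · rw [interK_eq]
    exact a
  · rw [inter_eq, interK_eq]
    exact b

end Pool.Agent.N108.ZZ
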