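import Mathlib

set_option autoImplicit false

/-!
# Bounds for the base classes
-/

namespace Pool.Agent.N108.ZZ

/-- A standard class on eight points has nonnegative self-intersection. -/
theorem nsq {e x0 x1 x2 x3 x4 x5 x6 x7 : ℤ} (h : x0 + x1 + x2 ≤ e) (h7 : 0 ≤ x7) (h6 : x7 ≤ x6)
    (h5 : x6 ≤ x5) (h4 : x5 ≤ x4) (h3 : x4 ≤ x3) (h2 : x3 ≤ x2) (h1 : x2 ≤ x1) (h0 : x1 ≤ x0) :
    x0 ^ 2 + x1 ^ 2 + x2 ^ 2 + x3 ^ 2 + x4 ^ 2 + x5 ^ 2 + x6 ^ 2 + x7 ^ 2 ≤ e ^ 2 := by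
  have a1 : (x0 + x1 + x2) ^ 2 ≤ e ^ 2 := pow_le_pow_left₀ (by linarith) h 2
  have a3 : x3 ^ 2 ≤ x2 ^ 2 := pow_le_pow_left₀ (by linarith) h2 2
  have a4 : x4 ^ 2 ≤ x2 ^ 2 := pow_le_pow_left₀ (by linarith) (by linarith) 2
  have a5 : x5 ^ 2 ≤ x2 ^ 2 := pow_le_pow_left₀ (by linarith) (by linarith) 2
  have a6 : x6 ^ 2 ≤ x2 ^ 2 := pow_le_pow_left₀ (by linarith) (by linarith) 2
  have a7 : x7 ^ 2 ≤ x2 ^ 2 := pow_le_pow_left₀ (by linarith) (by linarith) 2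
  have b1 : x2 * x2 ≤ x0 * x1 := mul_le_mul (by linarith) h1 (by linarith) (by linarith)
  have b2 : x2 * x2 ≤ x0 * x2 := mul_le_mul_of_nonneg_right (by linarith) (by linarith)
  have b3 : x2 * x2 ≤ x1 * x2 := mul_le_mul_of_nonneg_right (by linarith) (by linarith)
  nlinarith

/-- The bounds. -/
theorem bnd {v : ℕ → ℕ} (hv : Antitone v) {d κ t n : ℕ} (hn : 10 ≤ n)
    (h3 : v 0 + v 1 + v 2 ≤ d) (h9 : 3 ≤ v 9) (hκ1 : 1 ≤ κ) (hκ5 : κ ≤ 5) (ht : 1 ≤ t)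
    (hR : ∑ k ∈ Finset.range 9, v k + t = 3 * d) (hS : ∑ k ∈ Finset.range n, v k = 3 * d + κ)
    (hD1 : ∑ k ∈ Finset.range n, v k * v k + 10 ≤ d * d + κ)
    (hD2 : d * d + 4 ≤ ∑ k ∈ Finset.range n, v k * v k + 2 * t + κ) :
    3 ≤ κ ∧ 7 ≤ t + κ ∧ t + 4 ≤ 4 * κ ∧ d + 3 ≤ 12 * κ := by
  have split : ∀ f : ℕ → ℕ, ∑ k ∈ Finset.range n, f k =
      ∑ k ∈ Finset.range 9, f k + ∑ k ∈ Finset.Ico 9 n, f k := fun f => by
    rw [Finset.range_eq_Ico, Finset.range_eq_Ico, Finset.sum_Ico_consecutive _ (by omega) (by omega)]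
  have e9 : ∀ f : ℕ → ℕ, ∑ k ∈ Finset.range 9, f k = f 0 + f 1 + f 2 + f 3 + f 4 + f 5 + f 6 +
      f 7 + f 8 := fun f => by
    simp only [Finset.sum_range_succ, Finset.sum_range_zero]
    omega
  have q1 := hv (show 0 ≤ 1 by omega)
  have q2 := hv (show 1 ≤ 2 by omega)
  have q3 := hv (show 2 ≤ 3 by omega)
  have q4 := hv (show 3 ≤ 4 by omega)
  have q5 := hv (show 4 ≤ 5 by omega)
  have q6 := hv (show 5 ≤ 6 by omega)
  have q7 := hv (show 6 ≤ 7 by omega)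
  have q8 := hv (show 7 ≤ 8 by omega)
  have q9 := hv (show 8 ≤ 9 by omega)
  obtain ⟨S2, hS2⟩ : ∃ S2, S2 = ∑ k ∈ Finset.Ico 9 n, v k * v k := ⟨_, rfl⟩
  have s1 : ∑ k ∈ Finset.Ico 9 n, v k = t + κ := by
    have := split v
    omega
  have s2 : S2 ≤ v 8 * (t + κ) := by
    rw [hS2, ← s1, Finset.mul_sum]
    refine Finset.sum_le_sum fun k hk => ?_
    rw [Finset.mem_Ico] at hk
    exact Nat.mul_le_mul_right _ ((hv hk.1).trans q9)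
  have s3 : S2 ≤ (t + κ) * (t + κ) := by
    rw [hS2, ← s1, Finset.mul_sum]
    refine Finset.sum_le_sum fun k hk => ?_
    refine Nat.mul_le_mul_right _ ?_
    exact Finset.single_le_sum (f := v) (fun _ _ => Nat.zero_le _) hk
  have sq := split fun k => v k * v k
  rw [e9, ← hS2] at sq
  rw [e9] at hR
  obtain ⟨a, ha⟩ : ∃ a, v 8 = a := ⟨_, rfl⟩
  rw [ha] at s2 hR sq q8
  -- the main inequality
  have key : 2 * a * t + (v 0 * v 0 + v 1 * v 1 + v 2 * v 2 + v 3 * v 3 + v 4 * v 4 + v 5 * v 5 +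
      v 6 * v 6 + v 7 * v 7 + a * a) ≤ d * d := by
    have := nsq (e := (d : ℤ) - 3 * a) (x0 := (v 0 : ℤ) - a) (x1 := (v 1 : ℤ) - a)
      (x2 := (v 2 : ℤ) - a) (x3 := (v 3 : ℤ) - a) (x4 := (v 4 : ℤ) - a) (x5 := (v 5 : ℤ) - a)
      (x6 := (v 6 : ℤ) - a) (x7 := (v 7 : ℤ) - a) (by omega) (by omega) (by omega) (by omega)
      (by omega) (by omega) (by omega) (by omega) (by omega)
    have ht' : (t : ℤ) = 3 * d - (v 0 + v 1 + v 2 + v 3 + v 4 + v 5 + v 6 + v 7 + a) := by omega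
    have : 2 * (a : ℤ) * t + (v 0 * v 0 + v 1 * v 1 + v 2 * v 2 + v 3 * v 3 + v 4 * v 4 +
        v 5 * v 5 + v 6 * v 6 + v 7 * v 7 + a * a) ≤ d * d := by
      rw [ht']
      linarith
    exact_mod_cast this
  have he : d ≤ 3 * a + 3 * t := by omega
  have ha3 : 3 ≤ a := by omega
  have k1 : 2 * a * t + 4 ≤ 2 * t + κ + a * (t + κ) := by omega
  have k2 : 2 * a * t + 4 ≤ 2 * t + κ + (t + κ) * (t + κ) := by omega
  have k3 : 14 ≤ 2 * t + 2 * κ := by omega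
  have ht4 : t + 4 ≤ 4 * κ := by
    by_contra hcon
    push Not at hcon
    rcases Nat.lt_or_ge κ t with h | h
    · obtain ⟨z, rfl⟩ : ∃ z, t = κ + z := ⟨t - κ, by omega⟩
      obtain ⟨y, rfl⟩ : ∃ y, a = 3 + y := ⟨a - 3, by omega⟩
      nlinarith [Nat.zero_le (y * z)]
    · omega
  have hκ3 : 3 ≤ κ := by omega
  refine ⟨hκ3, by omega, ht4, ?_⟩
  have ht16 : t ≤ 16 := by omega
  clear key sq s2 s3 s1 hR hS hD1 hD2 hv split e9
  interval_cases κ <;> interval_cases t <;> omega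

end Pool.Agent.N108.ZZ
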