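import Pool.Agent.N108.ZZ.RunT
import Pool.Agent.N108.ZZ.Bnd

set_option autoImplicit false

/-!
# The base classes
-/

namespace Pool.Agent.N108.ZZ

open MvPolynomial Pool.Agent.W609 Pool.Agent.W609.CR Pool.Agent.TH167 Pool.Agent.TH167.SH
open Pool.Agent.TH167.TT Pool.Agent.N108.SG

/-- The base classes have the expected dimension. -/
theorem base_dim {K : Type} [Field K] [CharZero K] {r : ℕ} {P : Fin (r + 4) → Fin 2 → K}
    (hP : AlgebraicIndependent ℚ (fun ij : Fin (r + 4) × Fin 2 => P ij.1 ij.2)) {d κ t : ℕ}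
    {w : Fin (r + 4) → ℕ} {σ : Equiv.Perm (Fin (r + 4))} {v : ℕ → ℕ} (hv : Antitone v)
    (hv1 : ∀ k (h : k < r + 4), v k = w (σ ⟨k, h⟩)) (hv2 : ∀ k, r + 4 ≤ k → v k = 0)
    (hn : 10 ≤ r + 4) (h3 : v 0 + v 1 + v 2 ≤ d) (h9 : 3 ≤ v 9) (hne : ∀ k, v k ≠ 1)
    (hκ1 : 1 ≤ κ) (hκ5 : κ ≤ 5) (ht : 1 ≤ t) (hR : ∑ k ∈ Finset.range 9, v k + t = 3 * d)
    (hS : ∑ k ∈ Finset.range (r + 4), v k = 3 * d + κ)
    (hD1 : ∑ k ∈ Finset.range (r + 4), v k * v k + 10 ≤ d * d + κ)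
    (hD2 : d * d + 4 ≤ ∑ k ∈ Finset.range (r + 4), v k * v k + 2 * t + κ) :
    (Module.finrank K ↥(VS (fun j => aff (P j)) w d) : ℤ) = chi d w := by
  obtain ⟨b1, b2, b3, b4⟩ := bnd hv hn h3 h9 hκ1 hκ5 ht hR hS hD1 hD2
  have htail : ∑ k ∈ Finset.Ico 9 (r + 4), v k = t + κ := by
    have : ∑ k ∈ Finset.range (r + 4), v k =
        ∑ k ∈ Finset.range 9, v k + ∑ k ∈ Finset.Ico 9 (r + 4), v k := by
      rw [Finset.range_eq_Ico, Finset.range_eq_Ico,
        Finset.sum_Ico_consecutive _ (by omega) (by omega)]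
    omega
  have hz : ∀ k, 21 ≤ k → v k = 0 := by
    intro k hk
    by_contra hcon
    have hk2 : 21 < r + 4 := by
      by_contra h
      exact hcon (hv2 k (by omega))
    have h21 : 2 ≤ v 21 := by
      have := hv hk
      have := hne 21
      omega
    have h1 : ∑ _k ∈ Finset.Ico 9 22, 2 ≤ ∑ k ∈ Finset.Ico 9 22, v k :=
      Finset.sum_le_sum fun j hj => by
        rw [Finset.mem_Ico] at hj
        have := hv (show j ≤ 21 by omega)
        omega
    have h2 : ∑ k ∈ Finset.Ico 9 22, v k ≤ ∑ k ∈ Finset.Ico 9 (r + 4), v k :=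
      Finset.sum_le_sum_of_subset (Finset.Ico_subset_Ico_right (by omega))
    rw [Finset.sum_const, Nat.card_Ico, smul_eq_mul] at h1
    omega
  have c1 : ∑ k ∈ Finset.range 21, v k = 3 * d + κ := by rw [← sum_cut hv2 hz, hS]
  have c2 : ∑ k ∈ Finset.range 21, v k * v k = ∑ k ∈ Finset.range (r + 4), v k * v k :=
    (sum_cut (g := fun k => v k * v k) (fun k hk => by rw [hv2 k hk])
      (fun k hk => by rw [hz k hk])).symm
  have hcheck : top9 (sel d T.cl) d (3 * d - t) (t + κ) (d * d + 4 - (2 * t + κ))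
      (d * d + κ - 10) = true := by
    have hd1 : 1 ≤ d := by
      have := hv (show 0 ≤ 9 by omega)
      omega
    have : κ = 3 ∨ κ = 4 ∨ κ = 5 := by omega
    rcases this with rfl | rfl | rfl
    · exact runD_sound (runT_sound run3 t ht b2 (by omega)) d hd1 (by omega)
    · exact runD_sound (runT_sound run4 t ht b2 (by omega)) d hd1 (by omega)
    · exact runD_sound (runT_sound run5 t ht b2 (by omega)) d hd1 (by omega)
  obtain ⟨tt, hT, hU⟩ := top9_sound hcheck hv h3 hne h9 hz (by omega) (by omega)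
    (by rw [c2]; omega) (by rw [c2]; omega)
  exact dim_of_top hP (T.fl_cl _ (mem_sel hT)) hv1 hU

end Pool.Agent.N108.ZZ
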