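import Pool.Agent.N108.SG.Enum

set_option autoImplicit false

/-!
# Enumeration of classes below given ones
-/

namespace Pool.Agent.N108.ZZ

open Pool.Agent.N108.SG

/-- The certificates left when the next entry is `m`. -/
def advU (m : ℕ) : List (List ℕ) → List (List ℕ)
  | [] => []
  | [] :: cs => bif Nat.beq m 0 then [] :: advU m cs else advU m cs
  | (a :: t) :: cs => bif Nat.ble m a then t :: advU m cs else advU m cs

/-- Not empty. -/
def ne : List (List ℕ) → Bool
  | [] => false
  | _ :: _ => true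

/-- Trying all values down from the given one, to three. -/
def loopA (k : ℕ → Bool) (cnt R S Q : ℕ) : ℕ → Bool
  | 0 => bif Nat.ble (3 * cnt + 1) R || Nat.ble (3 * S + 1) Q then true else k 3
  | m + 1 => bif Nat.ble ((m + 4) * cnt + 1) R || Nat.ble ((m + 4) * S + 1) Q then true
      else k (m + 4) && loopA k cnt R S Q m

/-- The tail. -/
def tl : ℕ → List (List ℕ) → ℕ → ℕ → ℕ → ℕ → Bool
  | 0, certs, S, Q, _, _ => ne certs || Nat.ble 1 S || Nat.ble 1 Q
  | cnt + 1, certs, S, Q, Y, last =>
      loop (fun m => bif Nat.beq m 1 then true else bif Nat.ble m S && Nat.ble (m * m) Y then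
        tl cnt (advU m certs) (S - m) (Q - m * m) (Y - m * m) m else true) (cnt + 1) S Q last

/-- The first nine entries. -/
def nn : ℕ → List (List ℕ) → ℕ → ℕ → ℕ → ℕ → ℕ → Bool
  | 0, certs, R, σ, Q, Y, last => Nat.ble 1 R ||
      loop (fun m => bif Nat.ble m 2 then true else bif Nat.ble m σ && Nat.ble (m * m) Y then
        tl 11 (advU m certs) (σ - m) (Q - m * m) (Y - m * m) m else true) 12 σ Q last
  | cnt + 1, certs, R, σ, Q, Y, last => bif Nat.ble last 2 then true else
      loopA (fun m => bif Nat.ble m R && Nat.ble (m * m) Y then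
        nn cnt (advU m certs) (R - m) σ (Q - m * m) (Y - m * m) m else true)
        (cnt + 1) R (R + σ) Q (last - 3)

/-- `v` has entries at most those of `t`. -/
def Um (t : List ℕ) (v : ℕ → ℕ) : Prop := ∀ j, v j ≤ t.getD j 0

theorem advU_mem {m : ℕ} : ∀ {cs : List (List ℕ)} {t : List ℕ}, t ∈ advU m cs →
    (t = [] ∧ m = 0 ∧ [] ∈ cs) ∨ ∃ a, m ≤ a ∧ a :: t ∈ cs := by
  intro cs
  induction cs with
  | nil => intro t h; simp [advU] at h
  | cons t' cs ih =>
    intro t h
    cases t' with
    | nil =>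
      rw [advU] at h
      cases hb : Nat.beq m 0 with
      | true =>
        rw [hb, cond_true, List.mem_cons] at h
        rcases h with h | h
        · exact Or.inl ⟨h, Nat.eq_of_beq_eq_true hb, by simp⟩
        · rcases ih h with ⟨h1, h2, h3⟩ | ⟨a, h1, h2⟩
          · exact Or.inl ⟨h1, h2, by simp⟩
          · exact Or.inr ⟨a, h1, List.mem_cons_of_mem _ h2⟩
      | false =>
        rw [hb, cond_false] at h
        rcases ih h with ⟨h1, h2, h3⟩ | ⟨a, h1, h2⟩
        · exact Or.inl ⟨h1, h2, by simp⟩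
        · exact Or.inr ⟨a, h1, List.mem_cons_of_mem _ h2⟩
    | cons a t' =>
      rw [advU] at h
      cases hb : Nat.ble m a with
      | true =>
        rw [hb, cond_true, List.mem_cons] at h
        rcases h with rfl | h
        · exact Or.inr ⟨a, Nat.le_of_ble_eq_true hb, by simp⟩
        · rcases ih h with ⟨h1, h2, h3⟩ | ⟨a', h1, h2⟩
          · exact Or.inl ⟨h1, h2, List.mem_cons_of_mem _ h3⟩
          · exact Or.inr ⟨a', h1, List.mem_cons_of_mem _ h2⟩
      | false =>
        rw [hb, cond_false] at h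
        rcases ih h with ⟨h1, h2, h3⟩ | ⟨a', h1, h2⟩
        · exact Or.inl ⟨h1, h2, List.mem_cons_of_mem _ h3⟩
        · exact Or.inr ⟨a', h1, List.mem_cons_of_mem _ h2⟩

theorem stepU {certs : List (List ℕ)} {v : ℕ → ℕ} {m : ℕ} (hm : v 0 = m)
    (h : ∃ t ∈ advU m certs, Um t fun k => v (k + 1)) : ∃ t ∈ certs, Um t v := by
  obtain ⟨t, h1, h2⟩ := h
  rcases advU_mem h1 with ⟨rfl, h3, h4⟩ | ⟨a, h3, h4⟩
  · refine ⟨[], h4, fun j => ?_⟩
    cases j with
    | zero => simp; omega
    | succ j =>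
      have := h2 j
      simpa using this
  · refine ⟨a :: t, h4, fun j => ?_⟩
    cases j with
    | zero => simp; omega
    | succ j =>
      have := h2 j
      simpa using this

theorem loopA_sound {k : ℕ → Bool} {cnt R S Q m : ℕ} (h1 : R ≤ m * cnt) (h2 : Q ≤ m * S)
    (h3 : 3 ≤ m) : ∀ n, loopA k cnt R S Q n = true → m ≤ n + 3 → k m = true := by
  intro n
  induction n with
  | zero =>
    intro h hm
    have hm0 : m = 3 := by omega
    subst hm0
    rw [loopA, ble_false (by omega), ble_false (by omega)] at h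
    simpa using h
  | succ n ih =>
    intro h hm
    have h3' : m * cnt ≤ (n + 4) * cnt := Nat.mul_le_mul_right _ hm
    have h4 : m * S ≤ (n + 4) * S := Nat.mul_le_mul_right _ hm
    rw [loopA, ble_false (by omega), ble_false (by omega)] at h
    simp only [Bool.or_self, cond_false, Bool.and_eq_true] at h
    rcases Nat.eq_or_lt_of_le hm with h5 | h5
    · rw [h5]
      exact h.1
    · exact ih h.2 (by omega)

theorem tl_sound : ∀ (cnt : ℕ) (certs : List (List ℕ)) (S Q Y last : ℕ),
    tl cnt certs S Q Y last = true → ∀ v : ℕ → ℕ, Antitone v → v 0 ≤ last → (∀ k, v k ≠ 1) →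
    (∀ k, cnt ≤ k → v k = 0) → ∑ k ∈ Finset.range cnt, v k = S →
    Q ≤ ∑ k ∈ Finset.range cnt, v k * v k → ∑ k ∈ Finset.range cnt, v k * v k ≤ Y →
    ∃ t ∈ certs, Um t v := by
  intro cnt
  induction cnt with
  | zero =>
    intro certs S Q Y last h v _ _ _ h0 h1 h2 _
    rw [Finset.range_zero, Finset.sum_empty] at h1 h2
    rw [tl, ble_false (by omega), ble_false (by omega)] at h
    simp only [Bool.or_false] at h
    cases certs with
    | nil => simp [ne] at h
    | cons t cs =>
      refine ⟨t, by simp, fun j => ?_⟩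
      rw [h0 j (Nat.zero_le j)]
      exact Nat.zero_le _
  | succ cnt ih =>
    intro certs S Q Y last h v hv hl hne h0 h1 h2 h2'
    rw [tl] at h
    have h3 := loop_sound (m := v 0) (by rw [← h1]; exact sum_le hv _)
      (by rw [← h1]; exact h2.trans (sq_le hv _)) last h hl
    have h4 : v 0 ≤ S := by
      rw [← h1]
      exact Finset.single_le_sum (f := v) (fun k _ => Nat.zero_le _)
        (Finset.mem_range.2 (Nat.succ_pos cnt))
    have h5 : v 0 * v 0 ≤ Y := by
      refine le_trans ?_ h2'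
      exact Finset.single_le_sum (f := fun k => v k * v k) (fun k _ => Nat.zero_le _)
        (Finset.mem_range.2 (Nat.succ_pos cnt))
    have h6 : Nat.beq (v 0) 1 = false := by
      rw [Bool.eq_false_iff]
      intro h7
      exact hne 0 (Nat.eq_of_beq_eq_true h7)
    rw [h6, cond_false, show Nat.ble (v 0) S = true from Nat.ble_eq_true_of_le h4,
      show Nat.ble (v 0 * v 0) Y = true from Nat.ble_eq_true_of_le h5, Bool.and_self,
      cond_true] at h3
    rw [Finset.sum_range_succ'] at h1 h2 h2'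
    refine stepU rfl (ih _ _ _ _ _ h3 (fun k => v (k + 1))
      (fun i j hij => hv (by omega)) (hv (by omega)) (fun k => hne _)
      (fun k hk => h0 _ (by omega)) ?_ ?_ ?_)
    · omega
    · omega
    · omega

theorem nn_sound : ∀ (cnt : ℕ) (certs : List (List ℕ)) (R σ Q Y last : ℕ),
    nn cnt certs R σ Q Y last = true → ∀ v : ℕ → ℕ, Antitone v → v 0 ≤ last → (∀ k, v k ≠ 1) →
    3 ≤ v cnt → (∀ k, cnt + 12 ≤ k → v k = 0) → ∑ k ∈ Finset.range cnt, v k = R →
    ∑ k ∈ Finset.range (cnt + 12), v k = R + σ →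
    Q ≤ ∑ k ∈ Finset.range (cnt + 12), v k * v k →
    ∑ k ∈ Finset.range (cnt + 12), v k * v k ≤ Y → ∃ t ∈ certs, Um t v := by
  intro cnt
  induction cnt with
  | zero =>
    intro certs R σ Q Y last h v hv hl hne h3 h0 h1 hσ h2 h2'
    rw [Finset.range_zero, Finset.sum_empty] at h1
    subst h1
    rw [nn, ble_false (by omega)] at h
    simp only [Bool.false_or] at h
    rw [zero_add] at hσ h2 h2' h0
    rw [zero_add] at hσ
    have h3' := loop_sound (m := v 0) (by rw [← hσ]; exact sum_le hv _)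
      (by rw [← hσ]; exact h2.trans (sq_le hv _)) last h hl
    have h4 : v 0 ≤ σ := by
      rw [← hσ]
      exact Finset.single_le_sum (f := v) (fun k _ => Nat.zero_le _)
        (Finset.mem_range.2 (by norm_num))
    have h5 : v 0 * v 0 ≤ Y := by
      refine le_trans ?_ h2'
      exact Finset.single_le_sum (f := fun k => v k * v k) (fun k _ => Nat.zero_le _)
        (Finset.mem_range.2 (by norm_num))
    rw [ble_false (by omega), cond_false, show Nat.ble (v 0) σ = true from
      Nat.ble_eq_true_of_le h4,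
      show Nat.ble (v 0 * v 0) Y = true from Nat.ble_eq_true_of_le h5, Bool.and_self,
      cond_true] at h3'
    rw [show (12 : ℕ) = 11 + 1 from rfl, Finset.sum_range_succ'] at hσ h2 h2'
    refine stepU rfl (tl_sound _ _ _ _ _ _ h3' (fun k => v (k + 1))
      (fun i j hij => hv (by omega)) (hv (by omega)) (fun k => hne _)
      (fun k hk => h0 _ (by omega)) ?_ ?_ ?_)
    · omega
    · omega
    · omega
  | succ cnt ih =>
    intro certs R σ Q Y last h v hv hl hne h3 h0 h1 hσ h2 h2'
    have h30 : 3 ≤ v 0 := h3.trans (hv (Nat.zero_le _))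
    rw [nn, ble_false (by omega), cond_false] at h
    have h3' := loopA_sound (m := v 0) (by rw [← h1]; exact sum_le hv _)
      (by rw [← hσ]; exact h2.trans (sq_le hv _)) h30 _ h (by omega)
    have h4 : v 0 ≤ R := by
      rw [← h1]
      exact Finset.single_le_sum (f := v) (fun k _ => Nat.zero_le _)
        (Finset.mem_range.2 (Nat.succ_pos cnt))
    have h5 : v 0 * v 0 ≤ Y := by
      refine le_trans ?_ h2'
      exact Finset.single_le_sum (f := fun k => v k * v k) (fun k _ => Nat.zero_le _)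
        (Finset.mem_range.2 (by omega))
    rw [show Nat.ble (v 0) R = true from Nat.ble_eq_true_of_le h4,
      show Nat.ble (v 0 * v 0) Y = true from Nat.ble_eq_true_of_le h5, Bool.and_self,
      cond_true] at h3'
    rw [show cnt + 1 + 12 = (cnt + 12) + 1 by omega, Finset.sum_range_succ'] at hσ h2 h2'
    rw [Finset.sum_range_succ'] at h1
    refine stepU rfl (ih _ _ _ _ _ _ h3' (fun k => v (k + 1))
      (fun i j hij => hv (by omega)) (hv (by omega)) (fun k => hne _) h3
      (fun k hk => h0 _ (by omega)) ?_ ?_ ?_ ?_)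
    · omega
    · omega
    · omega
    · omega

/-- The full enumeration. -/
def top9 (certs : List (List ℕ)) (d R σ Q Y : ℕ) : Bool :=
  bif Nat.ble d 2 then true else
  loopA (fun m1 => bif Nat.ble m1 R && Nat.ble (m1 * m1) Y then
    loopA (fun m2 => bif Nat.ble m2 (R - m1) && Nat.ble (m2 * m2) (Y - m1 * m1) &&
        Nat.ble (m1 + m2) d then
      nn 7 (advU m2 (advU m1 certs)) (R - m1 - m2) σ (Q - m1 * m1 - m2 * m2)
        (Y - m1 * m1 - m2 * m2) (min m2 (d - m1 - m2)) else true) 8 (R - m1) (R - m1 + σ)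
        (Q - m1 * m1) (m1 - 3)
    else true) 9 R (R + σ) Q (d - 3)

theorem top9_sound {certs : List (List ℕ)} {d R σ Q Y : ℕ} (h : top9 certs d R σ Q Y = true)
    {v : ℕ → ℕ} (hv : Antitone v) (h3 : v 0 + v 1 + v 2 ≤ d) (hne : ∀ k, v k ≠ 1)
    (h9 : 3 ≤ v 9) (h0 : ∀ k, 21 ≤ k → v k = 0) (hR : ∑ k ∈ Finset.range 9, v k = R)
    (hS : ∑ k ∈ Finset.range 21, v k = R + σ)
    (hQ : Q ≤ ∑ k ∈ Finset.range 21, v k * v k) (hY : ∑ k ∈ Finset.range 21, v k * v k ≤ Y) :
    ∃ t ∈ certs, Um t v := by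
  have a0 := hv (show 0 ≤ 9 by omega)
  have a1 := hv (show 1 ≤ 9 by omega)
  have a2 := hv (show 2 ≤ 9 by omega)
  have a01 := hv (show 0 ≤ 1 by omega)
  unfold top9 at h
  rw [ble_false (by omega), cond_false] at h
  have b1 : R ≤ v 0 * 9 := by
    rw [← hR]
    exact sum_le hv 9
  have b2 : Q ≤ v 0 * (R + σ) := by
    have := sq_le hv 21
    rw [hS] at this
    exact hQ.trans this
  have h1 := loopA_sound b1 b2 (by omega) _ h (by omega)
  have h4 : v 0 ≤ R := by
    rw [← hR]
    exact Finset.single_le_sum (f := v) (fun k _ => Nat.zero_le _)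
      (Finset.mem_range.2 (Nat.succ_pos _))
  have h5 : v 0 * v 0 ≤ Y := by
    refine le_trans ?_ hY
    exact Finset.single_le_sum (f := fun k => v k * v k) (fun k _ => Nat.zero_le _)
      (Finset.mem_range.2 (by omega))
  rw [show Nat.ble (v 0) R = true from Nat.ble_eq_true_of_le h4,
    show Nat.ble (v 0 * v 0) Y = true from Nat.ble_eq_true_of_le h5, Bool.and_self,
    cond_true] at h1
  obtain ⟨v', hv'⟩ : ∃ v' : ℕ → ℕ, v' = fun k => v (k + 1) := ⟨_, rfl⟩
  have hv'a : Antitone v' := by
    rw [hv']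
    exact fun i j hij => hv (by omega)
  rw [Finset.sum_range_succ'] at hR hS hQ hY
  have hR' : ∑ k ∈ Finset.range 8, v' k = R - v 0 := by
    rw [hv']
    simp only
    omega
  have hS' : ∑ k ∈ Finset.range 20, v' k = R - v 0 + σ := by
    rw [hv']
    simp only
    omega
  have hQ' : Q - v 0 * v 0 ≤ ∑ k ∈ Finset.range 20, v' k * v' k := by
    rw [hv']
    simp only
    omega
  have hY' : ∑ k ∈ Finset.range 20, v' k * v' k ≤ Y - v 0 * v 0 := by
    rw [hv']
    simp only
    omega
  have e1 : v' 0 = v 1 := by rw [hv']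
  have b3 : R - v 0 ≤ v' 0 * 8 := by
    rw [← hR']
    exact sum_le hv'a 8
  have b4 : Q - v 0 * v 0 ≤ v' 0 * (R - v 0 + σ) := by
    have := sq_le hv'a 20
    rw [hS'] at this
    exact hQ'.trans this
  have h2 := loopA_sound b3 b4 (by omega) _ h1 (by
      rw [e1]
      omega)
  have h6 : v' 0 ≤ R - v 0 := by
    rw [← hR']
    exact Finset.single_le_sum (f := v') (fun k _ => Nat.zero_le _)
      (Finset.mem_range.2 (Nat.succ_pos _))
  have h7 : v' 0 * v' 0 ≤ Y - v 0 * v 0 := by
    refine le_trans ?_ hY'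
    exact Finset.single_le_sum (f := fun k => v' k * v' k) (fun k _ => Nat.zero_le _)
      (Finset.mem_range.2 (by omega))
  rw [show Nat.ble (v' 0) (R - v 0) = true from Nat.ble_eq_true_of_le h6,
    show Nat.ble (v' 0 * v' 0) (Y - v 0 * v 0) = true from Nat.ble_eq_true_of_le h7,
    show Nat.ble (v 0 + v' 0) d = true from Nat.ble_eq_true_of_le (by rw [e1]; omega),
    Bool.and_self, Bool.and_self, cond_true] at h2
  rw [Finset.sum_range_succ'] at hR' hS' hQ' hY'
  refine stepU rfl ?_
  rw [← hv']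
  have c1 : ∑ k ∈ Finset.range (7 + 12), v' (k + 1) = R - v 0 - v' 0 + σ := by
    show ∑ k ∈ Finset.range 19, v' (k + 1) = R - v 0 - v' 0 + σ
    omega
  have c2 : Q - v 0 * v 0 - v' 0 * v' 0 ≤
      ∑ k ∈ Finset.range (7 + 12), v' (k + 1) * v' (k + 1) := by
    show _ ≤ ∑ k ∈ Finset.range 19, v' (k + 1) * v' (k + 1)
    omega
  have c3 : ∑ k ∈ Finset.range (7 + 12), v' (k + 1) * v' (k + 1) ≤
      Y - v 0 * v 0 - v' 0 * v' 0 := by
    show ∑ k ∈ Finset.range 19, v' (k + 1) * v' (k + 1) ≤ _
    omega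
  refine stepU rfl (nn_sound _ _ _ _ _ _ _ h2 (fun k => v' (k + 1))
    (fun i j hij => hv'a (by omega)) ?_ ?_ ?_ ?_ (by omega) c1 c2 c3)
  · rw [le_min_iff]
    refine ⟨hv'a (by omega), ?_⟩
    rw [hv']
    show v 2 ≤ d - v 0 - v 1
    omega
  · intro k
    rw [hv']
    exact hne _
  · rw [hv']
    exact h9
  · intro k hk
    rw [hv']
    exact h0 _ (by omega)

end Pool.Agent.N108.ZZ
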