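import Pool.Agent.TH167.TT.Bas

set_option autoImplicit false

/-!
# Larger multiplicities
-/

namespace Pool.Agent.N108.ZZ

open MvPolynomial Pool.Agent.W609 Pool.Agent.W609.CR Pool.Agent.TH167.SH Pool.Agent.H248R5
open Pool.Agent.TH167.TT

theorem mono_step {K : Type} [Field K] {s : ℕ} (P : Fin s → Fin 2 → K) (w : Fin s → ℕ)
    (j : Fin s) (d : ℕ) :
    Module.finrank K ↥(VS (fun j => aff (P j)) w d) ≤
      Module.finrank K ↥(VS (fun j => aff (P j)) (Function.update w j (w j + 1)) d) +
        (w j + 1) := by
  classical
  have hf := vs_fin (fun j => aff (P j)) w d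
  let ex : Fin (w j + 1) → (Fin 2 →₀ ℕ) := fun k =>
    Finsupp.equivFunOnFinite.symm ![(k : ℕ), w j - k]
  let φ : ↥(VS (fun j => aff (P j)) w d) →ₗ[K] (Fin (w j + 1) → K) :=
    { toFun := fun g k => coeff (ex k) (tau (P j) g.1)
      map_add' := fun a b => by
        funext k
        simp
      map_smul' := fun c a => by
        funext k
        simp }
  have h1 := LinearMap.finrank_range_add_finrank_ker φ
  have h2 : Module.finrank K ↥(LinearMap.range φ) ≤ w j + 1 := by
    have := Submodule.finrank_le (LinearMap.range φ)
    rwa [Module.finrank_fin_fun] at this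
  have h3 : (LinearMap.ker φ).map (VS (fun j => aff (P j)) w d).subtype ≤
      VS (fun j => aff (P j)) (Function.update w j (w j + 1)) d := by
    rintro _ ⟨⟨g, hgm⟩, hg, rfl⟩
    have hg' : ∀ k, coeff (ex k) (tau (P j) g) = 0 := fun k => congrFun hg k
    show g ∈ _
    rw [vs_eq_forms, mem_forms] at hgm ⊢
    refine ⟨hgm.1, fun i => ?_⟩
    by_cases hi : i = j
    · subst hi
      rw [Function.update_self, MvPolynomial.mem_pow_idealOfVars_iff']
      intro x hx
      rcases Nat.lt_or_ge x.degree (w i) with h4 | h4
      · exact (MvPolynomial.mem_pow_idealOfVars_iff' _ _).1 (hgm.2 i) x h4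
      · have h5 : x.degree = w i := by omega
        have h6 : x 0 + x 1 = w i := by
          rw [← h5, Finsupp.degree_eq_sum, Fin.sum_univ_two]
        have h7 : x = ex ⟨x 0, by omega⟩ := by
          ext l
          fin_cases l
          · rfl
          · show x 1 = w i - x 0
            omega
        rw [h7]
        exact hg' _
    · rw [Function.update_of_ne hi]
      exact hgm.2 i
  have hf2 := vs_fin (fun j => aff (P j)) (Function.update w j (w j + 1)) d
  have h4 := Submodule.finrank_mono h3
  have h5 := LinearEquiv.finrank_eq (Submodule.equivMapOfInjective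
    (VS (fun j => aff (P j)) w d).subtype (Submodule.injective_subtype _) (LinearMap.ker φ))
  omega

theorem choose_step (m : ℕ) : (m + 1 + 1).choose 2 = (m + 1).choose 2 + (m + 1) := by
  have h : (m + 2).choose 2 = (m + 1).choose 1 + (m + 1).choose 2 := Nat.choose_succ_succ' (m + 1) 1
  rw [Nat.choose_one_right] at h
  show (m + 2).choose 2 = _
  omega

/-- The dimension and larger multiplicities. -/
theorem mono {K : Type} [Field K] {s : ℕ} (P : Fin s → Fin 2 → K) (d : ℕ) : ∀ (n : ℕ)
    (w w' : Fin s → ℕ), (∀ j, w j ≤ w' j) → ∑ j, (w' j - w j) = n →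
    Module.finrank K ↥(VS (fun j => aff (P j)) w d) + ∑ j, (w j + 1).choose 2 ≤
      Module.finrank K ↥(VS (fun j => aff (P j)) w' d) + ∑ j, (w' j + 1).choose 2 := by
  classical
  intro n
  induction n with
  | zero =>
    intro w w' h hn
    have : w = w' := by
      funext j
      have h1 := (Finset.sum_eq_zero_iff.1 hn) j (Finset.mem_univ j)
      have h2 := h j
      omega
    rw [this]
  | succ n ih =>
    intro w w' h hn
    obtain ⟨j, -, hj⟩ : ∃ j ∈ Finset.univ, w' j - w j ≠ 0 := by
      by_contra hcon
      push Not at hcon
      rw [Finset.sum_eq_zero hcon] at hn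
      omega
    have h1 := mono_step P w j d
    have h2 := ih (Function.update w j (w j + 1)) w' (fun i => by
      by_cases hi : i = j
      · subst hi
        rw [Function.update_self]
        omega
      · rw [Function.update_of_ne hi]
        exact h i) (by
      have h3 : ∑ i, (w' i - w i) = (∑ i, (w' i - Function.update w j (w j + 1) i)) + 1 := by
        rw [← Finset.add_sum_erase _ _ (Finset.mem_univ j),
          ← Finset.add_sum_erase Finset.univ (fun i => w' i - Function.update w j (w j + 1) i)
            (Finset.mem_univ j), Function.update_self]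
        have h4 : ∑ i ∈ Finset.univ.erase j, (w' i - Function.update w j (w j + 1) i) =
            ∑ i ∈ Finset.univ.erase j, (w' i - w i) :=
          Finset.sum_congr rfl fun i hi => by rw [Function.update_of_ne (Finset.ne_of_mem_erase hi)]
        rw [h4]
        omega
      omega)
    have h3 : ∑ i, (Function.update w j (w j + 1) i + 1).choose 2 =
        ∑ i, (w i + 1).choose 2 + (w j + 1) := by
      rw [← Finset.add_sum_erase _ _ (Finset.mem_univ j),
        ← Finset.add_sum_erase Finset.univ (fun i => (w i + 1).choose 2) (Finset.mem_univ j),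
        Function.update_self]
      have h4 : ∑ i ∈ Finset.univ.erase j, (Function.update w j (w j + 1) i + 1).choose 2 =
          ∑ i ∈ Finset.univ.erase j, (w i + 1).choose 2 :=
        Finset.sum_congr rfl fun i hi => by rw [Function.update_of_ne (Finset.ne_of_mem_erase hi)]
      rw [h4, choose_step]
      omega
    omega

end Pool.Agent.N108.ZZ
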