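import Pool.Agent.N108.SG.Main
import Pool.Agent.N108.ZZ.Enum
import Pool.Agent.N108.ZZ.Mono

set_option autoImplicit false

/-!
# Classes below a class with independent conditions
-/

namespace Pool.Agent.N108.ZZ

open MvPolynomial Pool.Agent.W609 Pool.Agent.W609.CR Pool.Agent.TH167 Pool.Agent.TH167.SH
open Pool.Agent.TH167.TT Pool.Agent.N108.SG

/-- The conditions are independent and there is no form. -/
def Fl (x : ℕ × List ℕ) : Prop :=
  Emp x.1 x.2 ∧ (x.2.map fun a => (a + 1).choose 2).sum = (x.1 + 2).choose 2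

theorem fl_nil : ∀ x ∈ ([] : List (ℕ × List ℕ)), Fl x := fun x hx => by simp at hx

theorem fl_cons {a : ℕ × List ℕ} {l : List (ℕ × List ℕ)} (h : Fl a) (t : ∀ x ∈ l, Fl x) :
    ∀ x ∈ a :: l, Fl x := by
  intro x hx
  rcases List.mem_cons.1 hx with rfl | hx
  · exact h
  · exact t x hx

theorem sum_getD (f : ℕ → ℕ) (hf : f 0 = 0) (t : List ℕ) : ∀ n, t.length ≤ n →
    ∑ k ∈ Finset.range n, f (t.getD k 0) = (t.map f).sum := by
  induction t with
  | nil =>
    intro n _
    simp [hf]
  | cons a t ih =>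
    intro n hn
    obtain ⟨m, rfl⟩ : ∃ m, n = m + 1 := ⟨n - 1, by simp at hn; omega⟩
    rw [Finset.sum_range_succ', List.map_cons, List.sum_cons, ← ih m (by simpa using hn)]
    simp [add_comm]

/-- The dimension of a class below a certificate. -/
theorem dim_of_top {K : Type} [Field K] [CharZero K] {r : ℕ} {P : Fin (r + 4) → Fin 2 → K}
    (hP : AlgebraicIndependent ℚ (fun ij : Fin (r + 4) × Fin 2 => P ij.1 ij.2)) {d : ℕ}
    {w : Fin (r + 4) → ℕ} {t : List ℕ} (hE : Fl (d, t)) {σ : Equiv.Perm (Fin (r + 4))}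
    {v : ℕ → ℕ} (hv1 : ∀ k (h : k < r + 4), v k = w (σ ⟨k, h⟩)) (hU : Um t v) :
    (Module.finrank K ↥(VS (fun j => aff (P j)) w d) : ℤ) = chi d w := by
  classical
  obtain ⟨hE1, hE2⟩ := hE
  simp only at hE1 hE2
  obtain ⟨n, hn⟩ : ∃ n, n = r + 4 := ⟨_, rfl⟩
  obtain ⟨x, hx⟩ : ∃ x, x = t.length := ⟨_, rfl⟩
  obtain ⟨f, hf⟩ := Pool.Agent.N108.SG.Lv.exists_indep (Fin (r + 4 + x) × Fin 2)
  obtain ⟨Q, hQ⟩ : ∃ Q : Fin (r + 4 + x) → Fin 2 → ℂ, Q = fun i j => f (i, j) := ⟨_, rfl⟩
  have hQi : AlgebraicIndependent ℚ (fun ij : Fin (r + 4 + x) × Fin 2 => Q ij.1 ij.2) := by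
    rw [hQ]
    exact hf
  obtain ⟨w', hw'⟩ : ∃ w' : Fin (r + 4 + x) → ℕ, w' = Fin.append
    (fun i : Fin (r + 4) => t.getD (σ.symm i : Fin (r + 4)) 0)
    (fun j : Fin x => t.getD (r + 4 + j) 0) := ⟨_, rfl⟩
  obtain ⟨w0, hw0⟩ : ∃ w0 : Fin (r + 4 + x) → ℕ, w0 = Fin.append w (fun _ => 0) := ⟨_, rfl⟩
  have hle : ∀ j, w0 j ≤ w' j := by
    intro j
    refine Fin.addCases (fun i => ?_) (fun i => ?_) j
    · rw [hw0, hw', Fin.append_left, Fin.append_left]
      have h1 := hU (σ.symm i : Fin (r + 4))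
      rw [hv1 _ (σ.symm i).2] at h1
      simpa using h1
    · rw [hw0, hw', Fin.append_right, Fin.append_right]
      exact Nat.zero_le _
  have hsum : ∑ j, (w' j + 1).choose 2 = (d + 2).choose 2 := by
    have e1 := sum_getD (fun a => (a + 1).choose 2) (by norm_num) t (r + 4 + x) (by omega)
    have e2 := Finset.sum_range_add (fun k => (t.getD k 0 + 1).choose 2) (r + 4) x
    have e3 := Finset.sum_range (n := r + 4) fun k => (t.getD k 0 + 1).choose 2
    have e4 := Finset.sum_range (n := x) fun k => (t.getD (r + 4 + k) 0 + 1).choose 2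
    have e5 := Equiv.sum_comp σ.symm fun i : Fin (r + 4) => (t.getD (i : ℕ) 0 + 1).choose 2
    have e6 : ∑ j, (w' j + 1).choose 2 =
        ∑ i : Fin (r + 4), (t.getD (σ.symm i : Fin (r + 4)) 0 + 1).choose 2 +
          ∑ j : Fin x, (t.getD (r + 4 + j) 0 + 1).choose 2 := by
      rw [hw', Fin.sum_univ_add (a := r + 4) (b := x)]
      refine congrArg₂ (· + ·) (Finset.sum_congr rfl fun i _ => ?_)
        (Finset.sum_congr rfl fun i _ => ?_)
      · rw [Fin.append_left]
      · rw [Fin.append_right]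
    rw [e6, e5, ← e3, ← e4, ← e2, ← hE2]
    exact e1
  have hbot : SHDefs.sys Q d w' = ⊥ := by
    refine hE1 (r + 4 + x) Q hQi w' (fun k => if h : (k : ℕ) < r + 4 then
      Fin.castAdd x (σ ⟨k, h⟩) else Fin.natAdd (r + 4) ⟨(k : ℕ) - (r + 4), by
        have := k.2
        omega⟩) ?_ ?_
    · intro a b hab
      simp only at hab
      by_cases ha : (a : ℕ) < r + 4
      · by_cases hb : (b : ℕ) < r + 4
        · rw [dif_pos ha, dif_pos hb] at hab
          have h1 := σ.injective (Fin.castAdd_injective _ _ hab)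
          simp only [Fin.mk.injEq] at h1
          exact Fin.ext h1
        · rw [dif_pos ha, dif_neg hb] at hab
          have h1 := congrArg Fin.val hab
          simp only [Fin.val_castAdd, Fin.val_natAdd] at h1
          have := (σ ⟨a, ha⟩).2
          omega
      · by_cases hb : (b : ℕ) < r + 4
        · rw [dif_neg ha, dif_pos hb] at hab
          have h1 := congrArg Fin.val hab
          simp only [Fin.val_castAdd, Fin.val_natAdd] at h1
          have := (σ ⟨b, hb⟩).2
          omega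
        · rw [dif_neg ha, dif_neg hb] at hab
          have h1 := congrArg Fin.val hab
          simp only [Fin.val_natAdd] at h1
          exact Fin.ext (by omega)
    · intro k
      by_cases hk : (k : ℕ) < r + 4
      · simp only [dif_pos hk]
        rw [hw', Fin.append_left, Equiv.symm_apply_apply]
        rw [List.getD_eq_getElem _ _ k.2]
        exact le_rfl
      · simp only [dif_neg hk]
        rw [hw', Fin.append_right]
        have h1 : r + 4 + ((k : ℕ) - (r + 4)) = k := by omega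
        simp only [h1]
        rw [List.getD_eq_getElem _ _ k.2]
        exact le_rfl
  rw [sys_eq] at hbot
  obtain ⟨N, hN⟩ : ∃ N, ∑ j, (w' j - w0 j) = N := ⟨_, rfl⟩
  have h1 := mono Q d N w0 w' hle hN
  rw [hbot, finrank_bot, hsum, zero_add] at h1
  have h2 : VS (fun j => aff (Q j)) w0 d = VS (fun j => aff (Q (Fin.castAdd x j))) w d := by
    ext g
    rw [mem_VS, mem_VS]
    constructor
    · rintro ⟨a1, a2⟩
      refine ⟨a1, fun j => ?_⟩
      have := a2 (Fin.castAdd x j)
      rwa [hw0, Fin.append_left] at this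
    · rintro ⟨a1, a2⟩
      refine ⟨a1, fun j => ?_⟩
      refine Fin.addCases (fun i => ?_) (fun i => ?_) j
      · rw [hw0, Fin.append_left]
        exact a2 i
      · rw [hw0, Fin.append_right]
        exact van_zero _ _
  have h3 : ∑ j, (w0 j + 1).choose 2 = ∑ j, (w j + 1).choose 2 := by
    rw [hw0, Fin.sum_univ_add]
    simp only [Fin.append_left, Fin.append_right]
    simp
  rw [h2, h3] at h1
  have hQ' : AlgebraicIndependent ℚ
      (fun ij : Fin (r + 4) × Fin 2 => (fun j => Q (Fin.castAdd x j)) ij.1 ij.2) :=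
    hQi.comp (fun ij : Fin (r + 4) × Fin 2 => (Fin.castAdd x ij.1, ij.2)) (by
      intro a b hab
      simp only [Prod.mk.injEq] at hab
      exact Prod.ext (Fin.castAdd_injective _ _ hab.1) hab.2)
  obtain ⟨g, F, hF, hg⟩ := dim_gen w d
  have h41 := hg ℂ (fun j => Q (Fin.castAdd x j)) fun h0 =>
    hF (hQ'.eq_zero_of_aeval_eq_zero F h0)
  have h42 := hg K P fun h0 => hF (hP.eq_zero_of_aeval_eq_zero F h0)
  have h4 : Module.finrank K ↥(VS (fun j => aff (P j)) w d) =
      Module.finrank ℂ ↥(VS (fun j => aff (Q (Fin.castAdd x j))) w d) := h42.trans h41.symm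
  rw [← h4] at h1
  have h5 := chi_le_dim P d w
  rw [chi_cast] at h5 ⊢
  refine le_antisymm ?_ h5
  have h7 : ((Module.finrank K ↥(VS (fun j => aff (P j)) w d) + ∑ j, (w j + 1).choose 2 : ℕ) : ℤ) ≤
      (((d + 2).choose 2 : ℕ) : ℤ) := by exact_mod_cast h1
  push_cast at h7 ⊢
  linarith

end Pool.Agent.N108.ZZ
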