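import Pool.Agent.N108.ZZ.Num

set_option autoImplicit false

/-!
# The intersection number with an exceptional curve, for all canonical degrees
-/

namespace Pool.Agent.N108.ZZ

theorem qb {α β γ m q : ℤ} (hα : 0 ≤ α) (hβ : 0 ≤ β) (hγ : 0 ≤ γ) (hm : 3 ≤ m)
    (hag : α + γ ≤ 1) (hqm : q * (m * (m + 1)) ≤ (2 * m - 1) * (3 * α + 2 * β + 4 * γ) +
        ((α + β + 2 * γ) ^ 2 - (β + γ) ^ 2 - γ ^ 2) + 2) : q ≤ α + β + 2 * γ := by
  by_contra hcon
  push Not at hcon
  have hmm : 0 ≤ m * (m + 1) := mul_nonneg (by linarith) (by linarith)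
  have h0 : (α + β + 2 * γ + 1) * (m * (m + 1)) ≤ q * (m * (m + 1)) :=
    mul_le_mul_of_nonneg_right (by linarith) hmm
  have e1 : 0 ≤ β * ((m - 1) * (m - 2)) :=
    mul_nonneg hβ (mul_nonneg (by linarith) (by linarith))
  have e2 : 0 ≤ β * (m * (m - 3)) := mul_nonneg hβ (mul_nonneg (by linarith) (by linarith))
  have e3 : 0 ≤ m * (m - 3) := mul_nonneg (by linarith) (by linarith)
  rcases (show (α = 0 ∧ γ = 0) ∨ (α = 1 ∧ γ = 0) ∨ (α = 0 ∧ γ = 1) by omega) with
    ⟨h1, h2⟩ | ⟨h1, h2⟩ | ⟨h1, h2⟩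
  · subst h1
    subst h2
    have h3 := h0.trans hqm
    ring_nf at h3 e1 e3
    linarith
  · subst h1
    subst h2
    have h3 := h0.trans hqm
    ring_nf at h3 e2 e3
    linarith
  · subst h1
    subst h2
    have h3 := h0.trans hqm
    ring_nf at h3 e2 e3
    linarith

theorem qa {m q c : ℤ} (hm : 3 ≤ m) (hc : 0 ≤ c) (h : q * (m * (m + 1)) ≤ (4 * c + 3) * m) : q ≤ c := by
  by_contra hcon
  push Not at hcon
  have h0 : (c + 1) * (m * (m + 1)) ≤ q * (m * (m + 1)) :=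
    mul_le_mul_of_nonneg_right (by linarith) (mul_nonneg (by linarith) (by linarith))
  have h1 : m * ((c + 1) * (m + 1)) ≤ m * (4 * c + 3) := by linarith
  have h2 := le_of_mul_le_mul_left h1 (by linarith)
  have h4 : (c + 1) * 4 ≤ (c + 1) * (m + 1) :=
    mul_le_mul_of_nonneg_left (by linarith) (by linarith)
  linarith

theorem qs {α β γ m q S1 S2 : ℤ} (h1 : q * m ≤ S1) (h2 : q * m ^ 2 ≤ S2)
    (h : 2 * (3 * (α + β + 2 * γ + 3 * m) - (2 * γ + β + 9 * m)) +
      (2 * γ + β + 9 * m + S1 - 3 * (α + β + 2 * γ + 3 * m)) - 2 ≤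
      (α + β + 2 * γ + 3 * m) ^ 2 - ((m + γ + β) ^ 2 + (m + γ) ^ 2 + 7 * m ^ 2 + S2)) :
    q * (m * (m + 1)) ≤ (2 * m - 1) * (3 * α + 2 * β + 4 * γ) +
        ((α + β + 2 * γ) ^ 2 - (β + γ) ^ 2 - γ ^ 2) + 2 := by
  have h3 : q * (m * (m + 1)) = q * m ^ 2 + q * m := by ring
  rw [h3]
  nlinarith

theorem qf {β γ α e y0 y1 m Y : ℤ} (hbc : 1 ≤ β + γ) (hag : 2 ≤ α + γ) (hβ : 0 ≤ β)
    (he : 0 ≤ e) (hy1 : 0 ≤ y1) (h01 : y0 + y1 ≤ e) (hm : 3 ≤ m)
    (hY : Y ≤ 3 * e - 1 - y0 - y1) :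
    Y ≤ α * e + (β + γ) * (e - y0) + γ * (e - y1) + m - 1 := by
  have h1 : (β + γ - 1) * (y0 + y1) ≤ (β + γ - 1) * e :=
    mul_le_mul_of_nonneg_left h01 (by linarith)
  have h2 : 0 ≤ β * y1 := mul_nonneg hβ hy1
  have h3 : 2 * e ≤ (α + γ) * e := mul_le_mul_of_nonneg_right hag he
  have e1 : α * e + (β + γ) * (e - y0) + γ * (e - y1) + m - 1 - (3 * e - 1 - y0 - y1) =
    ((β + γ - 1) * e - (β + γ - 1) * (y0 + y1)) + β * y1 + ((α + γ) * e - 2 * e) + m := by ring
  linarith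

/-- The intersection number with an exceptional curve is not negative. -/
theorem exc_gen {n d e : ℕ} {v y : ℕ → ℕ} (hv : Antitone v) (hn : 10 ≤ n)
    (hd : v 0 + v 1 + v 2 ≤ d) (hm : 3 ≤ v 9) (h29 : v 2 = v 9)
    (ht : ∑ k ∈ Finset.range 9, v k < 3 * d)
    (hχ : 2 * (3 * (d : ℤ) - ∑ k ∈ Finset.range 9, (v k : ℤ)) +
      (∑ k ∈ Finset.range n, (v k : ℤ) - 3 * d) - 2 ≤
        (d : ℤ) ^ 2 - ∑ k ∈ Finset.range n, (v k : ℤ) ^ 2)
    (hpair : ∀ i j, i < n → j < n → i ≠ j → y i + y j ≤ e ∨ (e = 1 ∧ y i = 1 ∧ y j = 1))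
    (hcan : 3 * e = ∑ k ∈ Finset.range n, y k + 1) :
    ∑ k ∈ Finset.range n, v k * y k + ∑ k ∈ Finset.Ico 9 n, y k + 1 ≤ d * e := by
  classical
  obtain ⟨m, hm'⟩ : ∃ m, v 9 = m := ⟨_, rfl⟩
  have hmid : ∀ k, 2 ≤ k → k ≤ 9 → v k = m := by
    intro k h1 h2
    have := hv h1
    have := hv h2
    omega
  obtain ⟨J, hJ⟩ : ∃ J, J = (Finset.Ico 9 n).filter fun k => v k = m := ⟨_, rfl⟩
  have h9J : 9 ∈ J := by
    rw [hJ, Finset.mem_filter, Finset.mem_Ico]
    exact ⟨⟨le_rfl, by omega⟩, hm'⟩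
  have hJ9 : ∀ k ∈ J, 9 ≤ k ∧ k < n ∧ v k = m := by
    intro k hk
    rw [hJ, Finset.mem_filter, Finset.mem_Ico] at hk
    exact ⟨hk.1.1, hk.1.2, hk.2⟩
  have split : ∀ f : ℕ → ℕ, ∑ k ∈ Finset.range n, f k =
      ∑ k ∈ Finset.range 9, f k + ∑ k ∈ Finset.Ico 9 n, f k := fun f => by
    rw [Finset.range_eq_Ico, Finset.range_eq_Ico, Finset.sum_Ico_consecutive _ (by omega) (by omega)]
  obtain ⟨Y, hY⟩ : ∃ Y, Y = ∑ k ∈ J, y k := ⟨_, rfl⟩
  obtain ⟨q, hq⟩ : ∃ q, q = J.card := ⟨_, rfl⟩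
  have hq1 : 1 ≤ q := by
    rw [hq]
    exact Finset.card_pos.2 ⟨9, h9J⟩
  have hYle : Y ≤ ∑ k ∈ Finset.range n, y k := by
    rw [hY]
    exact Finset.sum_le_sum_of_subset fun k hk => Finset.mem_range.2 (hJ9 k hk).2.1
  -- the sum over the tail
  have htail : ∑ k ∈ Finset.Ico 9 n, v k * y k + ∑ k ∈ Finset.Ico 9 n, y k ≤
      m * ∑ k ∈ Finset.Ico 9 n, y k + Y := by
    rw [hY, hJ, Finset.sum_filter, Finset.mul_sum, ← Finset.sum_add_distrib,
      ← Finset.sum_add_distrib]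
    refine Finset.sum_le_sum fun k hk => ?_
    rw [Finset.mem_Ico] at hk
    have h1 := hv hk.1
    split_ifs with h
    · rw [h]
    · have h2 : v k + 1 ≤ m := by omega
      nlinarith
  have hsy := split y
  have hsvy := split fun k => v k * y k
  have e9 : ∀ f : ℕ → ℕ, ∑ k ∈ Finset.range 9, f k = f 0 + f 1 + f 2 + f 3 + f 4 + f 5 + f 6 +
      f 7 + f 8 := fun f => by
    simp only [Finset.sum_range_succ, Finset.sum_range_zero]
    omega
  rw [e9] at hsy hsvy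
  rw [hmid 2 (by omega) (by omega), hmid 3 (by omega) (by omega), hmid 4 (by omega) (by omega),
    hmid 5 (by omega) (by omega), hmid 6 (by omega) (by omega), hmid 7 (by omega) (by omega),
    hmid 8 (by omega) (by omega)] at hsvy
  rw [h29, hm'] at hd
  obtain ⟨γ, hγ⟩ : ∃ γ, v 1 = m + γ := ⟨v 1 - m, by
    have := hv (show 1 ≤ 9 by omega)
    omega⟩
  obtain ⟨β, hβ⟩ : ∃ β, v 0 = m + γ + β := ⟨v 0 - (m + γ), by
    have := hv (show 0 ≤ 1 by omega)
    omega⟩
  obtain ⟨α, hα⟩ : ∃ α, d = α + β + 2 * γ + 3 * m := ⟨d - (β + 2 * γ + 3 * m), by omega⟩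
  -- it is enough to show this
  suffices hkey : y 0 ≤ e ∧ y 1 ≤ e ∧ (Y : ℤ) ≤ α * e + (β + γ) * ((e : ℤ) - y 0) +
      γ * ((e : ℤ) - y 1) + m - 1 by
    obtain ⟨hy0, hy1, hkey⟩ := hkey
    have a1 : ((∑ k ∈ Finset.range n, v k * y k + ∑ k ∈ Finset.Ico 9 n, y k + 1 : ℕ) : ℤ) ≤
        ((d * e : ℕ) : ℤ) := by
      rw [hsvy]
      obtain ⟨Z, hZ⟩ : ∃ Z, Z = ∑ k ∈ Finset.Ico 9 n, y k := ⟨_, rfl⟩
      obtain ⟨W, hW⟩ : ∃ W, W = ∑ k ∈ Finset.Ico 9 n, v k * y k := ⟨_, rfl⟩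
      rw [← hZ] at htail hsy ⊢
      rw [← hW] at htail ⊢
      rw [hsy] at hcan
      rw [hβ, hγ, hα]
      have c1 : ((W : ℕ) : ℤ) + Z ≤ m * Z + Y := by exact_mod_cast htail
      have c2 : (3 : ℤ) * e = (y 0 + y 1 + y 2 + y 3 + y 4 + y 5 + y 6 + y 7 + y 8 + Z) + 1 := by
        exact_mod_cast hcan
      have c3 : (m : ℤ) * (3 * e) = m * ((y 0 + y 1 + y 2 + y 3 + y 4 + y 5 + y 6 + y 7 + y 8 + Z)
        + 1) := by rw [c2]
      push_cast
      linarith
    exact_mod_cast a1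
  have hp01 := hpair 0 1 (by omega) (by omega) (by omega)
  have hy0 : y 0 ≤ e := by omega
  have hy1 : y 1 ≤ e := by omega
  refine ⟨hy0, hy1, ?_⟩
  have ha0 : (0 : ℤ) ≤ (e : ℤ) - y 0 := by omega
  have hb0 : (0 : ℤ) ≤ (e : ℤ) - y 1 := by omega
  rcases Nat.lt_or_ge e 2 with he | he
  · have he1 : e = 1 := by omega
    have h1 : Y ≤ 2 := by omega
    have h2 : (0 : ℤ) ≤ α * e + (β + γ) * ((e : ℤ) - y 0) + γ * ((e : ℤ) - y 1) := by positivity
    have h3 : (3 : ℤ) ≤ m := by omega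
    omega
  · have hpr : ∀ i j, i < n → j < n → i ≠ j → y i + y j ≤ e := fun i j h1 h2 h3 => by
      rcases hpair i j h1 h2 h3 with h | h
      · exact h
      · omega
    have hYa : (Y : ℤ) ≤ q * ((e : ℤ) - y 0) := by
      have h1 : Y ≤ J.card • (e - y 0) := by
        rw [hY]
        refine Finset.sum_le_card_nsmul _ _ _ fun k hk => ?_
        have := hpr 0 k (by omega) (hJ9 k hk).2.1 (by have := (hJ9 k hk).1; omega)
        omega
      rw [← hq, smul_eq_mul] at h1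
      have h2 : ((Y : ℕ) : ℤ) ≤ ((q * (e - y 0) : ℕ) : ℤ) := by exact_mod_cast h1
      rw [Nat.cast_mul, Nat.cast_sub hy0] at h2
      exact h2
    have hYb : (Y : ℤ) ≤ q * ((e : ℤ) - y 1) := by
      have h1 : Y ≤ J.card • (e - y 1) := by
        rw [hY]
        refine Finset.sum_le_card_nsmul _ _ _ fun k hk => ?_
        have := hpr 1 k (by omega) (hJ9 k hk).2.1 (by have := (hJ9 k hk).1; omega)
        omega
      rw [← hq, smul_eq_mul] at h1
      have h2 : ((Y : ℕ) : ℤ) ≤ ((q * (e - y 1) : ℕ) : ℤ) := by exact_mod_cast h1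
      rw [Nat.cast_mul, Nat.cast_sub hy1] at h2
      exact h2
    have hm1 : (0 : ℤ) ≤ (m : ℤ) - 1 := by omega
    -- the numbers
    have s1 : ∑ k ∈ Finset.range 9, (v k : ℤ) = 2 * γ + β + 9 * m := by
      have : ∑ k ∈ Finset.range 9, v k = 2 * γ + β + 9 * m := by
        rw [e9, hmid 2 (by omega) (by omega), hmid 3 (by omega) (by omega),
          hmid 4 (by omega) (by omega), hmid 5 (by omega) (by omega), hmid 6 (by omega) (by omega),
          hmid 7 (by omega) (by omega), hmid 8 (by omega) (by omega), hβ, hγ]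
        ring
      exact_mod_cast this
    have s2 : (q : ℤ) * m ≤ ∑ k ∈ Finset.Ico 9 n, (v k : ℤ) := by
      have h1 : q * m ≤ ∑ k ∈ Finset.Ico 9 n, v k := by
        calc q * m = ∑ k ∈ J, v k := by
              rw [Finset.sum_congr rfl fun k hk => (hJ9 k hk).2.2, Finset.sum_const, ← hq,
                smul_eq_mul]
          _ ≤ _ := by
              rw [hJ]
              exact Finset.sum_le_sum_of_subset (Finset.filter_subset _ _)
      exact_mod_cast h1
    have s3 : (q : ℤ) * m ^ 2 ≤ ∑ k ∈ Finset.Ico 9 n, (v k : ℤ) ^ 2 := by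
      have h1 : q * m ^ 2 ≤ ∑ k ∈ Finset.Ico 9 n, v k ^ 2 := by
        calc q * m ^ 2 = ∑ k ∈ J, v k ^ 2 := by
              rw [Finset.sum_congr rfl fun k hk => by rw [(hJ9 k hk).2.2], Finset.sum_const, ← hq,
                smul_eq_mul]
          _ ≤ _ := by
              rw [hJ]
              exact Finset.sum_le_sum_of_subset (Finset.filter_subset _ _)
      exact_mod_cast h1
    have s4 : ∑ k ∈ Finset.range n, (v k : ℤ) = 2 * γ + β + 9 * m +
        ∑ k ∈ Finset.Ico 9 n, (v k : ℤ) := by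
      have h1 := split v
      have h2 : ((∑ k ∈ Finset.range n, v k : ℕ) : ℤ) =
          ((∑ k ∈ Finset.range 9, v k + ∑ k ∈ Finset.Ico 9 n, v k : ℕ) : ℤ) := by rw [h1]
      push_cast at h2
      rw [h2, s1]
    have s5 : ∑ k ∈ Finset.range n, (v k : ℤ) ^ 2 = ((m : ℤ) + γ + β) ^ 2 + ((m : ℤ) + γ) ^ 2 +
        7 * m ^ 2 + ∑ k ∈ Finset.Ico 9 n, (v k : ℤ) ^ 2 := by
      have h1 := split fun k => v k ^ 2
      have h3 : ∑ k ∈ Finset.range 9, v k ^ 2 = (m + γ + β) ^ 2 + (m + γ) ^ 2 + 7 * m ^ 2 := by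
        rw [e9, hmid 2 (by omega) (by omega), hmid 3 (by omega) (by omega),
          hmid 4 (by omega) (by omega), hmid 5 (by omega) (by omega), hmid 6 (by omega) (by omega),
          hmid 7 (by omega) (by omega), hmid 8 (by omega) (by omega), hβ, hγ]
        ring
      rw [h3] at h1
      exact_mod_cast h1
    obtain ⟨S1, hS1⟩ : ∃ S1, S1 = ∑ k ∈ Finset.Ico 9 n, (v k : ℤ) := ⟨_, rfl⟩
    obtain ⟨S2, hS2⟩ : ∃ S2, S2 = ∑ k ∈ Finset.Ico 9 n, (v k : ℤ) ^ 2 := ⟨_, rfl⟩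
    rw [← hS1] at s2 s4
    rw [← hS2] at s3 s5
    have ht' : ∑ k ∈ Finset.range 9, (v k : ℤ) < 3 * d := by exact_mod_cast ht
    rw [s4, s1, s5] at hχ
    rw [s1] at ht'
    have hd' : (d : ℤ) = α + β + 2 * γ + 3 * m := by exact_mod_cast hα
    rw [hd'] at hχ ht'
    -- the number of the largest multiplicities
    have hmm : (0 : ℤ) ≤ (m : ℤ) := by omega
    have hm3 : (3 : ℤ) ≤ (m : ℤ) := by omega
    have hqm : (q : ℤ) * (m * (m + 1)) ≤ (2 * m - 1) * (3 * α + 2 * β + 4 * γ) +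
        ((α + β + 2 * γ) ^ 2 - (β + γ) ^ 2 - γ ^ 2) + 2 := qs s2 s3 (by linarith)
    have hα0 : (0 : ℤ) ≤ α := by omega
    have hβ0 : (0 : ℤ) ≤ β := by omega
    have hγ0 : (0 : ℤ) ≤ γ := by omega
    have hqp : (0 : ℤ) < q := by omega
    -- the conclusion from `q ≤ α + β + 2 γ`
    have hfin : (q : ℤ) ≤ α + β + 2 * γ → (Y : ℤ) ≤ α * e + (β + γ) * ((e : ℤ) - y 0) +
        γ * ((e : ℤ) - y 1) + m - 1 := by
      intro hslots
      have hYe : (Y : ℤ) ≤ q * e := by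
        have b1 : (q : ℤ) * ((e : ℤ) - y 0) ≤ q * e :=
          mul_le_mul_of_nonneg_left (by omega) (by omega)
        linarith
      have h2 : (q : ℤ) * Y ≤ q * (α * e + (β + γ) * ((e : ℤ) - y 0) + γ * ((e : ℤ) - y 1)) := by
        have b1 : (α : ℤ) * Y ≤ α * (q * e) := mul_le_mul_of_nonneg_left hYe (by omega)
        have b2 : ((β : ℤ) + γ) * Y ≤ (β + γ) * (q * ((e : ℤ) - y 0)) :=
          mul_le_mul_of_nonneg_left hYa (by omega)
        have b3 : (γ : ℤ) * Y ≤ γ * (q * ((e : ℤ) - y 1)) :=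
          mul_le_mul_of_nonneg_left hYb (by omega)
        have b4 : (Y : ℤ) * q ≤ Y * (α + β + 2 * γ) :=
          mul_le_mul_of_nonneg_left hslots (by omega)
        linarith
      have h3 := le_of_mul_le_mul_left h2 hqp
      omega
    have hp01' : y 0 + y 1 ≤ e := hpr 0 1 (by omega) (by omega) (by omega)
    have hYall : (Y : ℤ) ≤ 3 * e - 1 - y 0 - y 1 := by
      have h1 : Y ≤ ∑ k ∈ Finset.Ico 9 n, y k := by
        rw [hY, hJ]
        exact Finset.sum_le_sum_of_subset (Finset.filter_subset _ _)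
      rw [hsy] at hcan
      omega
    rcases Nat.eq_zero_or_pos (β + γ) with hbc | hbc
    · have hβz : β = 0 := by omega
      have hγz : γ = 0 := by omega
      subst hβz
      subst hγz
      rcases Nat.lt_or_ge α 3 with hα3 | hα3
      · have hαne : α ≠ 0 := by
          intro h
          subst h
          push_cast at ht'
          omega
        rcases Nat.lt_or_ge α 2 with hα2 | hα2
        · have hα1 : α = 1 := by omega
          subst hα1
          refine hfin ?_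
          push_cast at hqm ⊢
          have h4 := qa (c := 1) (q := q) hm3 (by norm_num) (by linarith)
          linarith
        · have hα1 : α = 2 := by omega
          subst hα1
          have hq3 : (q : ℤ) ≤ 3 := by
            push_cast at hqm
            exact qa (c := 3) (q := q) hm3 (by norm_num) (by linarith)
          rcases Nat.lt_or_ge q 2 with hq2 | hq2
          · refine hfin ?_
            push_cast
            omega
          · have h1 := pair_sum (J := J) (y := y) (e := e) (by omega) fun i hi j hj hij =>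
              hpr i j (hJ9 i hi).2.1 (hJ9 j hj).2.1 hij
            rw [← hY, ← hq] at h1
            have h2 : 2 * (Y : ℤ) ≤ q * e := by exact_mod_cast h1
            have h3 : (q : ℤ) * e ≤ 3 * e := mul_le_mul_of_nonneg_right hq3 (by omega)
            push_cast
            omega
      · have h1 : (3 : ℤ) * e ≤ α * e := mul_le_mul_of_nonneg_right (by omega) (by omega)
        push_cast
        omega
    · rcases Nat.lt_or_ge (α + γ) 2 with hag | hag
      · exact hfin (qb hα0 hβ0 hγ0 hm3 (by omega) hqm)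
      · -- the sum of all multiplicities is enough
        exact qf (by omega) (by omega) hβ0 (by omega) (by omega) (by omega) hm3 hYall

end Pool.Agent.N108.ZZ
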