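import Pool.Agent.N108.ZZ.Simple
import Pool.Agent.N108.ZZ.NumG

set_option autoImplicit false

/-!
# All canonical degrees: the reduction to bounded degrees
-/

namespace Pool.Agent.N108.ZZ

open MvPolynomial Pool.Agent.W609 Pool.Agent.W609.CR Pool.Agent.TH167 Pool.Agent.TH167.SH
open Pool.Agent.TH167.TT Pool.Agent.N108.SG
open Pool.Agent.R355.CanDeg (main_ineq deg_le)

theorem numk {a c t m q e σ2 : ℤ} (hc : 1 ≤ c) (ht : 1 ≤ t) (hq : 3 ≤ q) (hqm : q ≤ m)
    (ha : a ≤ 2 * t + c - 4) (hmain : 2 * m * t ≤ a + σ2) (h2 : σ2 ≤ q * (t + c))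
    (h22 : σ2 ≤ (t + c) ^ 2) (he : e ≤ 3 * (m + t)) : t ≤ 4 * c ∧ e ≤ 2 * (c + 6) ^ 2 := by
  have h1 : q * t ≤ m * t := mul_le_mul_of_nonneg_right hqm (by linarith)
  have h3 : q * (t - c) ≤ 2 * t + c - 4 := by linarith
  have h4 : t ≤ 4 * c := by
    by_contra h
    push Not at h
    have h5 : 3 * (t - c) ≤ q * (t - c) := mul_le_mul_of_nonneg_right hq (by linarith)
    linarith
  refine ⟨h4, ?_⟩
  have h5 : 2 * e * t ≤ 9 * t ^ 2 + 6 * t + 6 * c * t + 3 * c + 3 * c ^ 2 - 12 := by
    have h6 : 2 * e * t ≤ 2 * (3 * (m + t)) * t :=
      mul_le_mul_of_nonneg_right (by linarith) (by linarith)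
    linarith
  have h6 : 9 * t ^ 2 ≤ 36 * c * t := by
    have : 0 ≤ t * (4 * c - t) := mul_nonneg (by linarith) (by linarith)
    linarith
  have h7 : 3 * c ^ 2 + 3 * c ≤ (3 * c ^ 2 + 3 * c) * t := by
    have : 0 ≤ (3 * c ^ 2 + 3 * c) * (t - 1) := mul_nonneg (by positivity) (by linarith)
    linarith
  have h8 : 0 ≤ c ^ 2 * t := by positivity
  have h9 : 0 ≤ c * t := by positivity
  have h10 : (2 * e) * t ≤ (4 * (c + 6) ^ 2) * t := by nlinarith
  have h11 := le_of_mul_le_mul_right h10 (by linarith)
  linarith

/-- The multiples of `-K` with further multiplicities. -/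
theorem family_zero {K : Type} [Field K] [CharZero K] {r : ℕ} {P : Fin (r + 4) → Fin 2 → K}
    (hP : AlgebraicIndependent ℚ (fun ij : Fin (r + 4) × Fin 2 => P ij.1 ij.2)) {e : ℕ}
    {u : Fin (r + 4) → ℕ} {T : Finset (Fin (r + 4))} {m : ℕ} (hT : T.card = 9) (he : e = 3 * m)
    (hu : ∀ i ∈ T, u i = m) {j : Fin (r + 4)} (hjT : j ∉ T) (hj : 1 ≤ u j) :
    Module.finrank K ↥(VS (fun i => aff (P i)) u e) = 0 := by
  classical
  obtain ⟨w, hw⟩ : ∃ w : Fin (r + 4) → ℕ, w = fun i => if i ∈ T then m else 0 := ⟨_, rfl⟩
  have hwT : ∀ i, i ∈ T → w i = m := fun i hi => by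
    rw [hw]
    exact if_pos hi
  have hwn : ∀ i, i ∉ T → w i = 0 := fun i hi => by
    rw [hw]
    exact if_neg hi
  have hle : ∀ i, w i ≤ m := fun i => by
    by_cases hi : i ∈ T
    · rw [hwT i hi]
    · rw [hwn i hi]
      exact Nat.zero_le _
  have hred : Reduced e w := fun a b c _ _ _ => by
    have h1 := hle a
    have h2 := hle b
    have h3 := hle c
    omega
  have h9 : (Finset.univ.filter fun i => 2 < w i).card ≤ 9 := by
    rw [← hT]
    refine Finset.card_le_card fun i hi => ?_
    by_contra hiT
    have := (Finset.mem_filter.1 hi).2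
    rw [hwn i hiT] at this
    omega
  have h1 := nonsp_gen hred h9 hP
  have h2 : ∑ i, (w i + 1).choose 2 = 9 * (m + 1).choose 2 := by
    have h3 : ∀ i, (w i + 1).choose 2 = if i ∈ T then (m + 1).choose 2 else 0 := fun i => by
      by_cases hi : i ∈ T
      · rw [hwT i hi, if_pos hi]
      · rw [hwn i hi, if_neg hi]
        rfl
    rw [Finset.sum_congr rfl fun i _ => h3 i, Finset.sum_ite_mem, Finset.univ_inter,
      Finset.sum_const, hT]
    rfl
  have h4 : (e + 2).choose 2 = 9 * (m + 1).choose 2 + 1 := by
    have a1 := Nat.choose_two_right (e + 2)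
    have a2 := Nat.choose_two_right (m + 1)
    have a3 : 2 * (e + 2).choose 2 = (e + 2) * (e + 1) := by
      have := H932R7.two_choose e
      linarith
    have a4 : 2 * (m + 1).choose 2 = (m + 1) * m := by
      rw [a2]
      have : 2 ∣ (m + 1) * (m + 1 - 1) := (Nat.even_mul_pred_self (m + 1)).two_dvd
      rw [Nat.mul_div_cancel' this]
      rfl
    rw [he] at a3 ⊢
    nlinarith
  rw [h2, h4] at h1
  have h5 : 9 * (m + 1).choose 2 + 1 - 9 * (m + 1).choose 2 = 1 := by omega
  rw [h5] at h1
  have h6 := simple_drop hP (hwn j hjT) (d := e) (by omega)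
  rw [h1] at h6
  have h7 : Module.finrank K ↥(VS (fun i => aff (P i)) (Function.update w j 1) e) = 0 := by omega
  have hfin := vs_fin (fun i => aff (P i)) (Function.update w j 1) e
  refine Nat.le_zero.1 (h7 ▸ Submodule.finrank_mono (vs_mono _ _ fun i => ?_))
  by_cases hi : i = j
  · subst hi
    rw [Function.update_self]
    exact hj
  · rw [Function.update_of_ne hi]
    by_cases hiT : i ∈ T
    · rw [hwT i hiT, hu i hiT]
    · rw [hwn i hiT]
      exact Nat.zero_le _

/-- The classes which remain, with decreasing multiplicities `v 0, …, v (n - 1)`: `K D = κ`, the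
degree is at most `2 (κ + 6) ^ 2`, there are no simple points and at least ten multiplicities
larger than two, and `1 ≤ t ≤ 4 κ`, `χ < t` for the intersection number `t` with the cubic through
the first nine points. -/
def Cls (κ n d : ℕ) (v : ℕ → ℕ) (t : ℕ) : Prop :=
  v 0 + v 1 + v 2 ≤ d ∧ ∑ k ∈ Finset.range n, v k = 3 * d + κ ∧ d ≤ 2 * (κ + 6) ^ 2 ∧
    (∀ k, v k ≠ 1) ∧ 3 ≤ v 9 ∧ ∑ k ∈ Finset.range 9, v k + t = 3 * d ∧ 1 ≤ t ∧ t ≤ 4 * κ ∧
    (d + 2).choose 2 < t + ∑ k ∈ Finset.range n, (v k + 1).choose 2

/-- The statement for these classes. -/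
def Bnd (κ : ℕ) : Prop := ∀ (r : ℕ) (K : Type) [Field K] [CharZero K]
  (P : Fin (r + 4) → Fin 2 → K),
  AlgebraicIndependent ℚ (fun ij : Fin (r + 4) × Fin 2 => P ij.1 ij.2) → ∀ (d : ℕ)
  (w : Fin (r + 4) → ℕ) (σ : Equiv.Perm (Fin (r + 4))) (v : ℕ → ℕ) (t : ℕ), Antitone v →
  (∀ k (h : k < r + 4), v k = w (σ ⟨k, h⟩)) → (∀ k, r + 4 ≤ k → v k = 0) → Cls κ (r + 4) d v t →
  (Module.finrank K ↥(VS (fun j => aff (P j)) w d) : ℤ) = max 0 (chi d w)

/-- The induction step. -/
theorem stm_gen {κ : ℕ} (hB : Bnd (κ + 1)) (h : Stm κ) : Stm (κ + 1) := by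
  classical
  intro r K _ _
  have key : ∀ (c : ℕ) (P : Fin (r + 4) → Fin 2 → K),
      AlgebraicIndependent ℚ (fun ij : Fin (r + 4) × Fin 2 => P ij.1 ij.2) → ∀ (d : ℕ)
      (w : Fin (r + 4) → ℕ), Reduced d w → -((κ + 1 : ℕ) : ℤ) ≤ kk d w → chi d w ≤ c →
      (Module.finrank K ↥(VS (fun j => aff (P j)) w d) : ℤ) = max 0 (chi d w) := by
    intro c
    induction c using Nat.strong_induction_on with
    | _ c ih =>
      intro P hP d w hred hk hc
      by_cases hk' : -(κ : ℤ) ≤ kk d w
      · exact h r K P hP d w hred hk'
      have hkk : kk d w = -((κ + 1 : ℕ) : ℤ) := by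
        push_cast at hk ⊢
        omega
      have hdim := chi_le_dim P d w
      obtain ⟨σ, v, hv, hv1, hv2⟩ := exists_sorted w
      by_cases h9 : v 9 ≤ 2
      · -- at most nine multiplicities are larger than two
        have hcard : (Finset.univ.filter fun j => 2 < w j).card ≤ 9 := by
          have h0 := Finset.card_le_card_of_injOn (s := Finset.univ.filter fun j => 2 < w j)
            (t := Finset.range 9) (fun j => ((σ.symm j : Fin (r + 4)) : ℕ)) (by
              intro j hj
              rw [Finset.mem_coe, Finset.mem_filter] at hj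
              rw [Finset.mem_coe, Finset.mem_range]
              have h1 := hv1 (σ.symm j : Fin (r + 4)) (σ.symm j).2
              have h2 : w (σ ⟨(σ.symm j : Fin (r + 4)), (σ.symm j).2⟩) = w j := by simp
              rw [h2] at h1
              by_contra hcon
              have hcon' : 9 ≤ ((σ.symm j : Fin (r + 4)) : ℕ) := not_lt.1 hcon
              have h3 := hv hcon'
              have h4 := hj.2
              omega) (by
              intro i _ j _ hij
              exact σ.symm.injective (Fin.ext hij))
          rwa [Finset.card_range] at h0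
        have h1 := nonsp_gen hred hcard hP
        rw [h1, chi_cast]
        omega
      by_cases hone : ∃ j, w j = 1
      · obtain ⟨j, hj⟩ := hone
        obtain ⟨w0, hw0⟩ : ∃ w0, w0 = Function.update w j 0 := ⟨_, rfl⟩
        have hle : ∀ i, w0 i ≤ w i := by
          intro i
          rw [hw0]
          by_cases hi : i = j
          · subst hi
            rw [Function.update_self]
            exact Nat.zero_le _
          · rw [Function.update_of_ne hi]
        have hred0 : Reduced d w0 := fun a b c h1 h2 h3 =>
          (Nat.add_le_add (Nat.add_le_add (hle a) (hle b)) (hle c)).trans (hred a b c h1 h2 h3)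
        have hw : Function.update w0 j 1 = w := by
          rw [hw0, Function.update_idem, ← hj, Function.update_eq_self]
        have hkk0 : kk d w0 = kk d w + 1 := by
          unfold kk
          rw [← Finset.add_sum_erase _ _ (Finset.mem_univ j),
            ← Finset.add_sum_erase Finset.univ (fun i => (w i : ℤ)) (Finset.mem_univ j), hj]
          have h4 : ∑ i ∈ Finset.univ.erase j, (w0 i : ℤ) =
              ∑ i ∈ Finset.univ.erase j, (w i : ℤ) := Finset.sum_congr rfl fun i hi => by
            rw [hw0, Function.update_of_ne (Finset.ne_of_mem_erase hi)]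
          have h5 : w0 j = 0 := by rw [hw0, Function.update_self]
          rw [h4, h5]
          push_cast
          ring
        have h6 := add_simple hP (w := w0) (j := j) (by rw [hw0, Function.update_self])
          (h r K P hP d w0 hred0 (by rw [hkk0, hkk]; push_cast; omega))
        rwa [hw] at h6
      push Not at h9 hone
      have hn : 10 ≤ r + 4 := by
        by_contra hcon
        have := hv2 9 (by omega)
        omega
      have hne : ∀ k, v k ≠ 1 := by
        intro k hk1
        by_cases hkn : k < r + 4
        · rw [hv1 k hkn] at hk1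
          exact hone _ hk1
        · rw [hv2 k (by omega)] at hk1
          omega
      have h012 : v 0 + v 1 + v 2 ≤ d := by
        rw [hv1 0 (by omega), hv1 1 (by omega), hv1 2 (by omega)]
        refine hred _ _ _ ?_ ?_ ?_
        · intro h
          simpa using σ.injective h
        · intro h
          simpa using σ.injective h
        · intro h
          simpa using σ.injective h
      have e9 : ∀ f : ℕ → ℕ, ∑ k ∈ Finset.range 9, f k = f 0 + f 1 + f 2 + f 3 + f 4 + f 5 + f 6 +
          f 7 + f 8 := fun f => by
        simp only [Finset.sum_range_succ, Finset.sum_range_zero]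
        omega
      have q1 := hv (show 0 ≤ 1 by omega)
      have q2 := hv (show 1 ≤ 2 by omega)
      have q3 := hv (show 2 ≤ 3 by omega)
      have q4 := hv (show 3 ≤ 4 by omega)
      have q5 := hv (show 4 ≤ 5 by omega)
      have q6 := hv (show 5 ≤ 6 by omega)
      have q7 := hv (show 6 ≤ 7 by omega)
      have q8 := hv (show 7 ≤ 8 by omega)
      have q9 := hv (show 8 ≤ 9 by omega)
      obtain ⟨t, ht⟩ : ∃ t, ∑ k ∈ Finset.range 9, v k + t = 3 * d :=
        ⟨3 * d - ∑ k ∈ Finset.range 9, v k, by
          have := e9 v
          omega⟩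
      have hS : ∑ k ∈ Finset.range (r + 4), v k = 3 * d + (κ + 1) := by
        rw [sum_sorted hv1 fun x => x]
        unfold kk at hkk
        have : ((∑ i, w i : ℕ) : ℤ) = ((3 * d + (κ + 1) : ℕ) : ℤ) := by
          push_cast at hkk ⊢
          linarith
        exact_mod_cast this
      have h2χ := two_chi d w
      have hip : ip d w d w = (d : ℤ) * d - ((∑ k ∈ Finset.range (r + 4), v k * v k : ℕ) : ℤ) := by
        unfold ip
        rw [sum_sorted hv1 fun x => x * x]
        push_cast
        rfl
      rw [hip, hkk] at h2χ
      obtain ⟨Q, hQ⟩ : ∃ Q, Q = ∑ k ∈ Finset.range (r + 4), v k * v k := ⟨_, rfl⟩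
      rw [← hQ] at h2χ
      have hdd : ((d * d : ℕ) : ℤ) = (d : ℤ) * d := by push_cast; rfl
      obtain ⟨T, hT⟩ : ∃ T : Finset (Fin (r + 4)), T = Finset.univ.map
          ⟨fun i : Fin 9 => σ ⟨i, by omega⟩, by
            intro i j hij
            have := σ.injective hij
            simp only [Fin.mk.injEq] at this
            exact Fin.ext this⟩ := ⟨_, rfl⟩
      have hTc : T.card = 9 := by rw [hT, Finset.card_map, Finset.card_univ, Fintype.card_fin]
      have hTs : ∀ f : Fin (r + 4) → ℕ, ∀ y : ℕ → ℕ,
          (∀ k (h : k < r + 4), y k = f (σ ⟨k, h⟩)) →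
          ∑ i ∈ T, f i = ∑ k ∈ Finset.range 9, y k := by
        intro f y hy
        rw [hT, Finset.sum_map, Finset.sum_range]
        exact Finset.sum_congr rfl fun i _ => (hy i (by omega)).symm
      have hTv : ∀ i ∈ T, ∃ k, k < 9 ∧ w i = v k := by
        intro i hi
        rw [hT, Finset.mem_map] at hi
        obtain ⟨k, _, rfl⟩ := hi
        exact ⟨k, k.2, (hv1 k (by omega)).symm⟩
      have h9T : σ ⟨9, by omega⟩ ∉ T := by
        rw [hT, Finset.mem_map]
        rintro ⟨k, _, hk1⟩
        have := σ.injective hk1
        simp only [Fin.mk.injEq] at this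
        have := k.2
        omega
      rcases Nat.eq_zero_or_pos t with ht0 | ht0
      · -- then the class is empty
        subst ht0
        rw [e9] at ht
        have hall : v 0 = v 8 := by omega
        have hd3 : d = 3 * v 0 := by omega
        have hz := family_zero (u := w) (m := v 0) hP hTc hd3 (fun i hi => by
          obtain ⟨k, hk1, hk2⟩ := hTv i hi
          have h1 := hv (show 0 ≤ k by omega)
          have h2 := hv (show k ≤ 8 by omega)
          omega) h9T (by
          rw [← hv1 9 (by omega)]
          omega)
        have h1 := chi_le_dim P d w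
        rw [hz] at h1 ⊢
        push_cast at h1 ⊢
        omega
      rcases lt_or_ge (chi d w) (t : ℤ) with hlt | hge
      · -- the classes of bounded degree
        have hi0 : σ ⟨8, by omega⟩ ∈ T := by
          rw [hT, Finset.mem_map]
          exact ⟨⟨8, by omega⟩, Finset.mem_univ _, rfl⟩
        have hm8 : w (σ ⟨8, by omega⟩) = v 8 := (hv1 8 (by omega)).symm
        have hTw := hTs w v hv1
        have hTw2 := hTs (fun i => w i ^ 2) (fun k => v k ^ 2) (fun k hk => by
          show v k ^ 2 = w (σ ⟨k, hk⟩) ^ 2
          rw [hv1 k hk])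
        have c1 := main_ineq hred hTc hi0 (fun i hi => by
          obtain ⟨k, hk1, hk2⟩ := hTv i hi
          rw [hm8, hk2]
          exact hv (by omega)) (by rw [hTw]; omega)
        have c2 := (deg_le hred hTc hi0 (t := t) (by rw [hTw]; exact ht)).1
        rw [hm8] at c1 c2
        have e1 : ∑ i ∈ T, (w i : ℤ) = 3 * d - t := by
          have : ((∑ i ∈ T, w i + t : ℕ) : ℤ) = ((3 * d : ℕ) : ℤ) := by rw [hTw, ht]
          push_cast at this
          linarith
        have e2 : ∑ i ∈ T, (w i : ℤ) ^ 2 = ((∑ k ∈ Finset.range 9, v k ^ 2 : ℕ) : ℤ) := by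
          rw [← hTw2]
          push_cast
          rfl
        rw [e1, e2] at c1
        have split : ∀ f : ℕ → ℕ, ∑ k ∈ Finset.range (r + 4), f k =
            ∑ k ∈ Finset.range 9, f k + ∑ k ∈ Finset.Ico 9 (r + 4), f k := fun f => by
          rw [Finset.range_eq_Ico, Finset.range_eq_Ico,
            Finset.sum_Ico_consecutive _ (by omega) (by omega)]
        have s1 : ∑ k ∈ Finset.Ico 9 (r + 4), v k = t + (κ + 1) := by
          have := split v
          omega
        have s2 : ∑ k ∈ Finset.Ico 9 (r + 4), v k ^ 2 ≤ v 9 * (t + (κ + 1)) := by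
          rw [← s1, Finset.mul_sum]
          refine Finset.sum_le_sum fun k hk => ?_
          rw [pow_two]
          exact Nat.mul_le_mul_right _ (hv (Finset.mem_Ico.1 hk).1)
        have s3 : ∑ k ∈ Finset.Ico 9 (r + 4), v k ^ 2 ≤ (t + (κ + 1)) ^ 2 := by
          rw [← s1, pow_two, Finset.sum_mul]
          refine Finset.sum_le_sum fun k hk => ?_
          rw [pow_two]
          exact Nat.mul_le_mul_left _ (Finset.single_le_sum (f := v) (fun _ _ => Nat.zero_le _) hk)
        have s4 : Q = ∑ k ∈ Finset.range 9, v k ^ 2 + ∑ k ∈ Finset.Ico 9 (r + 4), v k ^ 2 := by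
          rw [hQ, ← split]
          exact Finset.sum_congr rfl fun k _ => (pow_two (v k)).symm
        obtain ⟨A, hA⟩ : ∃ A, A = ∑ k ∈ Finset.range 9, v k ^ 2 := ⟨_, rfl⟩
        obtain ⟨B, hB'⟩ : ∃ B, B = ∑ k ∈ Finset.Ico 9 (r + 4), v k ^ 2 := ⟨_, rfl⟩
        rw [← hA] at c1 s4
        rw [← hB'] at s2 s3 s4
        have hq8 : v 9 ≤ v 8 := hv (by omega)
        have hfin := (numk (a := (d : ℤ) * d - Q) (c := κ + 1) (t := t) (m := v 8) (q := v 9)
          (e := d) (σ2 := B) (by omega) (by omega) (by omega) (by exact_mod_cast hq8)
          (by push_cast at h2χ; linarith) (by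
            have : (Q : ℤ) = A + B := by exact_mod_cast s4
            rw [this]
            linarith [pow_two (d : ℤ)]) (by exact_mod_cast s2) (by exact_mod_cast s3)
          (by exact_mod_cast c2))
        have hdle : (d : ℤ) ≤ ((2 * (κ + 1 + 6) ^ 2 : ℕ) : ℤ) := by
          push_cast
          linarith [hfin.2]
        refine hB r K P hP d w σ v t hv hv1 hv2 ⟨h012, hS, by exact_mod_cast hdle, hne, by omega,
          ht, ht0, by have := hfin.1; omega, ?_⟩
        rw [chi_cast, ← sum_sorted hv1 fun x => (x + 1).choose 2] at hlt
        push_cast at hlt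
        have hlt' : ((d + 2).choose 2 : ℤ) <
            ((t + ∑ k ∈ Finset.range (r + 4), (v k + 1).choose 2 : ℕ) : ℤ) := by
          push_cast
          linarith
        exact_mod_cast hlt'
      · -- subtraction of a cubic
        have hpos : ∀ i ∈ T, 1 ≤ w i := by
          intro i hi
          rw [hT, Finset.mem_map] at hi
          obtain ⟨k, _, rfl⟩ := hi
          show 1 ≤ w (σ ⟨k, _⟩)
          rw [← hv1 k (by omega)]
          have := hv (show (k : ℕ) ≤ 9 by omega)
          omega
        obtain ⟨hd3, hstep⟩ := cubic_step hP hred hTc hpos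
        have hTw := hTs w v hv1
        rw [hTw] at hstep
        have hχ' := sub_chi hd3 hpos hTc
        have hkk' := sub_kk hd3 hpos hTc
        have hTw' : ∑ i ∈ T, (w i : ℤ) = ((∑ k ∈ Finset.range 9, v k : ℕ) : ℤ) := by
          rw [← hTw]
          push_cast
          rfl
        rw [hTw'] at hχ'
        obtain ⟨R, hR⟩ : ∃ R, R = ∑ k ∈ Finset.range 9, v k := ⟨_, rfl⟩
        rw [← hR] at hχ' hstep ht
        have hχt : chi (d - 3) (fun j => w j - ind T j) = chi d w - t := by
          rw [hχ']
          omega
        -- it is enough to bound the dimension of the residual class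
        suffices hres : (Module.finrank K ↥(VS (fun j => aff (P j)) (fun j => w j - ind T j)
            (d - 3)) : ℤ) ≤ chi (d - 3) (fun j => w j - ind T j) by
          rw [hχt] at hres
          rw [max_eq_right (by omega)]
          omega
        have hχ'0 : 0 ≤ chi (d - 3) (fun j => w j - ind T j) := by
          rw [hχt]
          omega
        have ihc : ∀ (P1 : Fin (r + 4) → Fin 2 → K),
            AlgebraicIndependent ℚ (fun ij : Fin (r + 4) × Fin 2 => P1 ij.1 ij.2) →
            ∀ (d1 : ℕ) (w1 : Fin (r + 4) → ℕ), Reduced d1 w1 → kk d1 w1 = kk d w →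
            chi d1 w1 = chi d w - t →
            (Module.finrank K ↥(VS (fun j => aff (P1 j)) w1 d1) : ℤ) = chi d1 w1 := by
          intro P1 hP1 d1 w1 hred1 hk1 hc1
          have h1 := ih (c - 1) (by omega) P1 hP1 d1 w1 hred1 (by rw [hk1]; exact hk) (by
            rw [hc1]
            omega)
          rw [h1, max_eq_right (by omega)]
        by_cases hred' : Reduced (d - 3) (fun j => w j - ind T j)
        · exact (ihc P hP _ _ hred' hkk' hχt).le
        · -- then the eight middle multiplicities are equal
          have h29 : v 2 = v 9 := by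
            by_contra hcon
            have h29' : v 9 < v 2 := by
              have := hv (show 2 ≤ 9 by omega)
              omega
            apply hred'
            have hb : ∀ i : Fin (r + 4), w i - ind T i ≤
                v (min (σ.symm i : Fin (r + 4)) 2) - 1 := by
              intro i
              have h1 := hv1 (σ.symm i : Fin (r + 4)) (σ.symm i).2
              have h2 : w (σ ⟨(σ.symm i : Fin (r + 4)), (σ.symm i).2⟩) = w i := by simp
              rw [h2] at h1
              rcases Nat.lt_or_ge ((σ.symm i : Fin (r + 4)) : ℕ) 9 with h3 | h3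
              · have hiT : i ∈ T := by
                  rw [hT, Finset.mem_map]
                  refine ⟨⟨(σ.symm i : Fin (r + 4)), h3⟩, Finset.mem_univ _, ?_⟩
                  show σ ⟨((σ.symm i : Fin (r + 4)) : ℕ), _⟩ = i
                  simp
                unfold ind
                rw [if_pos hiT, ← h1]
                have := hv (show min ((σ.symm i : Fin (r + 4)) : ℕ) 2 ≤
                  ((σ.symm i : Fin (r + 4)) : ℕ) from min_le_left _ _)
                omega
              · rw [min_eq_right (by omega), ← h1]
                have := hv h3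
                omega
            intro i j k hij hik hjk
            have hf : Antitone fun k => v (min k 2) - 1 := by
              intro a b hab
              have := hv (show min a 2 ≤ min b 2 from min_le_min_right 2 hab)
              show v (min b 2) - 1 ≤ v (min a 2) - 1
              omega
            have h1 := three_le hf (a := (σ.symm i : Fin (r + 4)))
              (b := (σ.symm j : Fin (r + 4))) (c := (σ.symm k : Fin (r + 4)))
              (fun h => hij (σ.symm.injective (Fin.ext h)))
              (fun h => hik (σ.symm.injective (Fin.ext h)))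
              (fun h => hjk (σ.symm.injective (Fin.ext h)))
            have b1 := hb i
            have b2 := hb j
            have b3 := hb k
            simp only [Nat.min_eq_left (show 0 ≤ 2 by omega),
              Nat.min_eq_left (show 1 ≤ 2 by omega), min_self] at h1
            show w i - ind T i + (w j - ind T j) + (w k - ind T k) ≤ d - 3
            omega
          rcases Nat.eq_zero_or_pos (Module.finrank K ↥(VS (fun j => aff (P j))
            (fun j => w j - ind T j) (d - 3))) with hz | hz
          · rw [hz]
            exact_mod_cast hχ'0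
          · obtain ⟨M, hM⟩ : ∃ M, ∀ j, w j - ind T j ≤ M := ⟨∑ j, (w j - ind T j), fun j =>
              Finset.single_le_sum (f := fun j => w j - ind T j) (fun _ _ => Nat.zero_le _)
                (Finset.mem_univ j)⟩
            have hw : Few M (d - 3) (fun j => w j - ind T j) := by
              left
              rw [Finset.filter_false_of_mem fun j _ => not_lt.2 (hM j)]
              simp
            obtain ⟨d', w', k, C0, e, u, N, hD, hdim', P1, d1, w1, hP1, hchain, hfew, hred1,
              hdim1⟩ := main (d - 3) P hP _ hw hz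
            have hDcp : Dcp P (d - 3) (fun j => w j - ind T j) d' w' C0 e u N :=
              ⟨hD.exc, hD.pos, hD.orth, hD.deg, hD.mul, hD.zero⟩
            have hk0 : k = 0 := by
              by_contra hk0
              obtain ⟨a⟩ : Nonempty (Fin k) := ⟨⟨0, by omega⟩⟩
              have h1 := hDcp.neg a
              have h2 := hD.pos a
              have hE := hD.exc a
              rw [sub_ip hd3 hpos] at h1
              obtain ⟨y, hy1, hy2⟩ : ∃ y : ℕ → ℕ, (∀ k (h : k < r + 4), y k = u a (σ ⟨k, h⟩)) ∧
                  ∀ k, r + 4 ≤ k → y k = 0 :=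
                ⟨fun k => if h : k < r + 4 then u a (σ ⟨k, h⟩) else 0, fun k h => by
                  simp only
                  rw [dif_pos h], fun k h => by
                  simp only
                  rw [dif_neg (by omega)]⟩
              have hsy : ∑ k ∈ Finset.range (r + 4), y k = ∑ i, u a i := sum_sorted hy1 fun x => x
              have hsvy : ∑ k ∈ Finset.range (r + 4), v k * y k = ∑ i, w i * u a i := by
                rw [Finset.sum_range, ← Equiv.sum_comp σ fun i => w i * u a i]
                exact Finset.sum_congr rfl fun i _ => by rw [hv1 i i.2, hy1 i i.2]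
              have hnum := exc_gen (n := r + 4) (d := d) (e := e a) (y := y) hv hn h012
                (by omega) h29 (by omega) (by
                  have b1 : (∑ k ∈ Finset.range (r + 4), (v k : ℤ)) = 3 * d + (κ + 1) := by
                    exact_mod_cast hS
                  have b2 : (∑ k ∈ Finset.range 9, (v k : ℤ)) = R := by
                    rw [hR]
                    push_cast
                    rfl
                  have b3 : (∑ k ∈ Finset.range (r + 4), (v k : ℤ) ^ 2) = Q := by
                    rw [hQ]
                    push_cast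
                    exact Finset.sum_congr rfl fun k _ => by ring
                  have b4 : (R : ℤ) + t = 3 * d := by exact_mod_cast ht
                  rw [b1, b2, b3]
                  push_cast at h2χ
                  have b5 : (d : ℤ) ^ 2 = d * d := by ring
                  rw [b5]
                  omega)
                (fun i j hi hj hij => by
                  have h3 := hE.pair (inj_of_alg hP) (i := σ ⟨i, hi⟩) (j := σ ⟨j, hj⟩)
                    (fun h => hij (by
                      have := σ.injective h
                      simpa using this))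
                  rw [hy1 i hi, hy1 j hj]
                  rcases h3 with h3 | ⟨h3, h4, h5, -⟩
                  · exact Or.inl h3
                  · exact Or.inr ⟨h3, h4, h5⟩)
                (by rw [hsy]; exact hE.can)
              have hTu := hTs (u a) y hy1
              have hsplit : ∑ k ∈ Finset.range (r + 4), y k = ∑ k ∈ Finset.range 9, y k +
                  ∑ k ∈ Finset.Ico 9 (r + 4), y k := by
                rw [Finset.range_eq_Ico, Finset.range_eq_Ico,
                  Finset.sum_Ico_consecutive _ (by omega) (by omega)]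
              have hcan := hE.can
              rw [← hsy] at hcan
              have hipw : ip d w (e a) (u a) = (d : ℤ) * e a -
                  ((∑ k ∈ Finset.range (r + 4), v k * y k : ℕ) : ℤ) := by
                unfold ip
                rw [hsvy]
                push_cast
                rfl
              have hTu' : ∑ i ∈ T, (u a i : ℤ) = ((∑ k ∈ Finset.range 9, y k : ℕ) : ℤ) := by
                rw [← hTu]
                push_cast
                rfl
              rw [hipw, hTu'] at h1
              have hnum' : ((∑ k ∈ Finset.range (r + 4), v k * y k +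
                ∑ k ∈ Finset.Ico 9 (r + 4), y k + 1 : ℕ) : ℤ) ≤ ((d * e a : ℕ) : ℤ) := by
                exact_mod_cast hnum
              rw [Nat.cast_mul] at hnum'
              obtain ⟨A, hA⟩ : ∃ A, A = ∑ k ∈ Finset.range (r + 4), v k * y k := ⟨_, rfl⟩
              obtain ⟨B, hB⟩ : ∃ B, B = ∑ k ∈ Finset.Ico 9 (r + 4), y k := ⟨_, rfl⟩
              obtain ⟨G, hG⟩ : ∃ G, G = ∑ k ∈ Finset.range 9, y k := ⟨_, rfl⟩
              rw [← hA, ← hB] at hnum'
              rw [← hA, ← hG] at h1
              rw [← hB, ← hG] at hsplit
              push_cast at hnum'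
              omega
            subst hk0
            have e1 := hD.deg
            have e2 := hD.mul
            simp only [Finset.univ_eq_empty, Finset.sum_empty, add_zero] at e1 e2
            have e3 : (fun j => w j - ind T j) = w' := funext e2
            subst e1
            subst e3
            obtain ⟨c1, c2, c3⟩ := quad_inv hchain
            simp only at c1 c2 c3
            have h1 := ihc P1 hP1 d1 w1 hred1 (by rw [c2, hkk']) (by rw [c1, hχt])
            rw [hdim1, c1] at h1
            exact h1.le
  intro P hP d w hred hk
  exact key (chi d w).toNat P hP d w hred hk (by omega)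

/-- **The reduction to bounded degrees.** -/
theorem stm_of_bnd : ∀ κ : ℕ, (∀ c, 6 ≤ c → c ≤ κ → Bnd c) → Stm κ := by
  intro κ
  induction κ with
  | zero => intro _; exact stm_zero
  | succ κ ih =>
    intro h
    rcases Nat.lt_or_ge κ 5 with h5 | h5
    · exact stm_all (κ + 1) (by omega)
    · exact stm_gen (h (κ + 1) (by omega) le_rfl) (ih fun c h1 h2 => h c h1 (by omega))

end Pool.Agent.N108.ZZ
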