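import Pool.Agent.N108.ZZ.Fin

set_option autoImplicit false

/-!
# From general complex points to generic points; removal of zero multiplicities
-/

namespace Pool.Agent.N108.ZZ

open MvPolynomial Pool.Agent.W609 Pool.Agent.W609.CR Pool.Agent.TH167 Pool.Agent.TH167.SH
open Pool.Agent.TH167.TT Pool.Agent.N108.SG Pool.Agent.N108.SG.Lv

theorem transfer {n : ℕ} {d : ℕ} {w : Fin n → ℕ} {k : ℤ}
    (h : ∀ P : Fin n → Fin 2 → ℂ,
      AlgebraicIndependent ℚ (fun ij : Fin n × Fin 2 => P ij.1 ij.2) →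
      (Module.finrank ℂ ↥(VS (fun j => aff (P j)) w d) : ℤ) = k)
    {K : Type} [Field K] [CharZero K] {P : Fin n → Fin 2 → K}
    (hP : AlgebraicIndependent ℚ (fun ij : Fin n × Fin 2 => P ij.1 ij.2)) :
    (Module.finrank K ↥(VS (fun j => aff (P j)) w d) : ℤ) = k := by
  obtain ⟨g, F, hF, hF'⟩ := dim_gen w d
  obtain ⟨f, hf⟩ := exists_indep (Fin n × Fin 2)
  have h0 := h (fun i j => f (i, j)) hf
  rw [hF' ℂ (fun i j => f (i, j)) fun h1 => hF (hf.eq_zero_of_aeval_eq_zero F h1)] at h0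
  rw [hF' K P fun h1 => hF (hP.eq_zero_of_aeval_eq_zero F h1)]
  exact h0

/-- Removal of the zero multiplicities. -/
theorem trunc {K : Type} [Field K] {n n' : ℕ} (hn : n' ≤ n) {P : Fin n → Fin 2 → K} {d : ℕ}
    {w : Fin n → ℕ} {σ : Equiv.Perm (Fin n)} {v : ℕ → ℕ}
    (h1 : ∀ k (h : k < n), v k = w (σ ⟨k, h⟩)) (h2 : ∀ k, n' ≤ k → v k = 0) :
    VS (fun j => aff (P j)) w d =
      VS (fun i : Fin n' => aff (P (σ ⟨i, by omega⟩))) (fun i : Fin n' => v i) d := by
  ext f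
  rw [mem_VS, mem_VS]
  refine and_congr_right fun _ => ⟨fun h i => ?_, fun h j => ?_⟩
  · have h3 := h (σ ⟨i, by omega⟩)
    rw [← h1] at h3
    exact h3
  · have h3 := h1 (σ.symm j : Fin n) (σ.symm j).2
    have h4 : w (σ ⟨(σ.symm j : Fin n), (σ.symm j).2⟩) = w j := by simp
    rw [h4] at h3
    rcases Nat.lt_or_ge ((σ.symm j : Fin n) : ℕ) n' with h5 | h5
    · have h6 := h ⟨(σ.symm j : Fin n), h5⟩
      have h7 : σ ⟨((σ.symm j : Fin n) : ℕ), (σ.symm j).2⟩ = j := by simp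
      rw [← h3]
      have h8 : P (σ ⟨((⟨(σ.symm j : Fin n), h5⟩ : Fin n') : ℕ), by omega⟩) = P j := by
        rw [h7]
      rw [h8] at h6
      exact h6
    · rw [← h3, h2 _ h5]
      exact van_zero _ _

/-- The simple points may be disregarded. -/
theorem of_stm {κ : ℕ} (hS : Stm κ) {K : Type} [Field K] [CharZero K] {r : ℕ} {P : Fin (r + 4) → Fin 2 → K}
    (hP : AlgebraicIndependent ℚ (fun ij : Fin (r + 4) × Fin 2 => P ij.1 ij.2)) {d : ℕ}
    {w : Fin (r + 4) → ℕ} (hred : Reduced d w)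
    (h : ∑ j, (if 2 ≤ w j then w j else 0) ≤ 3 * d + κ) :
    (Module.finrank K ↥(VS (fun j => aff (P j)) w d) : ℤ) = max 0 (chi d w) := by
  classical
  obtain ⟨w0, hw0⟩ : ∃ w0 : Fin (r + 4) → ℕ, w0 = fun j => if 2 ≤ w j then w j else 0 := ⟨_, rfl⟩
  have hle : ∀ i, w0 i ≤ w i := by
    intro i
    rw [hw0]
    show (if 2 ≤ w i then w i else 0) ≤ w i
    split_ifs <;> omega
  have hred0 : Reduced d w0 := fun a b c h1 h2 h3 =>
    (Nat.add_le_add (Nat.add_le_add (hle a) (hle b)) (hle c)).trans (hred a b c h1 h2 h3)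
  have hk : -(κ : ℤ) ≤ kk d w0 := by
    unfold kk
    have h1 : ((∑ j, w0 j : ℕ) : ℤ) ≤ ((3 * d + κ : ℕ) : ℤ) := by
      rw [hw0]
      exact_mod_cast h
    push_cast at h1
    linarith
  have h1 := add_simples hP (hS r K P hP d w0 hred0 hk) (Finset.univ.filter fun j => w j = 1) (by
    intro j hj
    rw [Finset.mem_filter] at hj
    rw [hw0]
    show (if 2 ≤ w j then w j else 0) = 0
    rw [hj.2]
    rfl)
  have h2 : (fun j => if j ∈ (Finset.univ.filter fun j => w j = 1) then 1 else w0 j) = w := by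
    funext j
    rw [hw0]
    show (if j ∈ (Finset.univ.filter fun j => w j = 1) then 1 else if 2 ≤ w j then w j else 0) = w j
    by_cases h1 : w j = 1
    · rw [if_pos (Finset.mem_filter.2 ⟨Finset.mem_univ j, h1⟩), h1]
    · have hj : j ∉ (Finset.univ.filter fun j => w j = 1) := fun h => h1 (Finset.mem_filter.1 h).2
      rw [if_neg hj]
      split_ifs with h2
      · rfl
      · omega
  rwa [h2] at h1

end Pool.Agent.N108.ZZ
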