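import Pool.Agent.N108.ZZ.Simple
import Pool.Agent.TH167.SH.Final
import Pool.Agent.TH167.SH.Segre
import Pool.Agent.TH167.SH.Conv

set_option autoImplicit false

/-!
# The reduction of a special class to a special standard class outside of a list

The argument of `Pool.Agent.Y536.SH.Full` for an abstract list, and the list of the standard
classes `(d; w)` whose multiplicities larger than one have a sum of at most `3 d + 5`.
-/

namespace Pool.Agent.N108.ZZ

open MvPolynomial Pool.Agent.W609 Pool.Agent.W609.CR Pool.Agent.TH167 Pool.Agent.TH167.SH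

theorem hh_full {r : ℕ} {Q : ℕ → (Fin (r + 4) → ℕ) → Prop}
    (hQ : ∀ {K : Type} [Field K] [CharZero K] {P : Fin (r + 4) → Fin 2 → K},
      AlgebraicIndependent ℚ (fun ij : Fin (r + 4) × Fin 2 => P ij.1 ij.2) →
        ∀ {d1 : ℕ} {w1 : Fin (r + 4) → ℕ}, Reduced d1 w1 → Q d1 w1 →
          (Module.finrank K ↥(VS (fun j => aff (P j)) w1 d1) : ℤ) = max 0 (chi d1 w1))
    (d : ℕ) (w : Fin (r + 4) → ℕ) :
    ∃ F : MvPolynomial (Fin (r + 4) × Fin 2) ℚ, F ≠ 0 ∧ ∀ (K : Type) [Field K] [CharZero K]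
      (P : Fin (r + 4) → Fin 2 → K), evP P F ≠ 0 → SH.Special P d w →
        MSpecial P d w ∨ ∃ (d' : ℕ) (w' : Fin (r + 4) → ℕ) (k : ℕ)
          (C : Fin k → MvPolynomial (Fin 3) K) (e : Fin k → ℕ) (u : Fin k → Fin (r + 4) → ℕ)
          (N : Fin k → ℕ) (d1 : ℕ) (w1 : Fin (r + 4) → ℕ),
          Dcp P d w d' w' C e u N ∧ Relation.ReflTransGen Quad (d', w') (d1, w1) ∧
          Reduced d1 w1 ∧ SH.Special P d1 w1 ∧
          Module.finrank K ↥(VS (fun j => aff (P j)) w1 d1) =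
            Module.finrank K ↥(VS (fun j => aff (P j)) w d) ∧ ¬ Q d1 w1 := by
  classical
  obtain ⟨g, Fg, hFg, hg⟩ := dim_gen w d
  obtain ⟨K0, i1, i2, P0, hP0⟩ := SH.exists_generic (r + 4)
  rcases Nat.eq_zero_or_pos g with hg0 | hg0
  · refine ⟨Fg, hFg, fun K _ _ P hP hs => ?_⟩
    exfalso
    rw [special_iff, hg K P hP, hg0] at hs
    omega
  · have hg1 := hg K0 P0 (evP_ne hP0 hFg)
    obtain ⟨M, hM⟩ : ∃ M, ∀ j, w j ≤ M := ⟨∑ j, w j, fun j =>
      Finset.single_le_sum (fun _ _ => Nat.zero_le _) (Finset.mem_univ j)⟩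
    have hw : Few M d w := by
      left
      rw [Finset.filter_false_of_mem fun j _ => not_lt.2 (hM j)]
      simp
    obtain ⟨d', w', k, C0, e, u, N, hD, hdim, P1, d1, w1, hP1, hchain, hfew, hred, hdim1⟩ :=
      main d P0 hP0 w hw (by rw [hg1]; exact hg0)
    obtain ⟨g', Fg', hFg', hg'⟩ := dim_gen w' d'
    obtain ⟨g1, Fg1, hFg1, hg1'⟩ := dim_gen w1 d1
    have hge : g' = g := by
      rw [← hg' K0 P0 (evP_ne hP0 hFg'), hdim, hg1]
    have hg1e : g1 = g := by
      rw [← hg1' K0 P1 (evP_ne hP1 hFg1), hdim1, hdim, hg1]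
    have hspr := fun a => exc_spread (e a) (u a) ⟨K0, i1, i2, P0, C0 a, hP0, hD.exc a⟩
    choose Fa hFa hFa' using hspr
    refine ⟨Fg * Fg' * Fg1 * ∏ a, Fa a, mul_ne_zero (mul_ne_zero (mul_ne_zero hFg hFg') hFg1)
      (Finset.prod_ne_zero_iff.2 fun a _ => hFa a), fun K _ _ P hP hs => ?_⟩
    rw [map_mul, map_mul, map_mul, map_prod] at hP
    have q0 := hg K P (left_ne_zero_of_mul (left_ne_zero_of_mul (left_ne_zero_of_mul hP)))
    have q1 := hg' K P (right_ne_zero_of_mul (left_ne_zero_of_mul (left_ne_zero_of_mul hP)))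
    have q2 := hg1' K P (right_ne_zero_of_mul (left_ne_zero_of_mul hP))
    have q3 := Finset.prod_ne_zero_iff.1 (right_ne_zero_of_mul hP)
    choose C hC using fun a => hFa' a K P (q3 a (Finset.mem_univ a))
    have hDcp : Dcp P d w d' w' C e u N := ⟨hC, hD.pos, hD.orth, hD.deg, hD.mul, hD.zero⟩
    obtain ⟨c1, c2, c3⟩ := quad_inv hchain
    simp only at c1 c2 c3
    rw [special_iff, q0] at hs
    by_cases hns : chi d1 w1 = g
    · left
      refine ⟨d', w', k, C, e, u, N, hDcp, by omega, ?_⟩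
      by_contra hcon
      push Not at hcon
      have h2 := hDcp.chi_one hcon
      omega
    · right
      refine ⟨d', w', k, C, e, u, N, d1, w1, hDcp, hchain, hred, ?_, ?_, ?_⟩
      · rw [special_iff, q2]
        have h3 := chi_le_dim P d1 w1
        rw [q2] at h3
        constructor
        · omega
        · rw [hg1e] at h3 ⊢
          omega
      · rw [q2, q0, hg1e]
      · intro hq
        have h1 := hQ hP1 hred hq
        rw [hdim1, hdim, hg1] at h1
        rcases max_choice (0 : ℤ) (chi d1 w1) with h | h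
        · omega
        · omega

/-- In the terms of the definitions of the problems, for the list of the classes with
`∑_{w i ≥ 2} w i ≤ 3 d + 5`. -/
theorem hh_zz {r : ℕ} (d : ℕ) (w : Fin (r + 4) → ℕ) :
    ∃ F : MvPolynomial (Fin (r + 4) × Fin 2) ℂ, F ≠ 0 ∧ ∀ P : Fin (r + 4) → Fin 2 → ℂ,
      MvPolynomial.eval (fun ij : Fin (r + 4) × Fin 2 => P ij.1 ij.2) F ≠ 0 →
        SHDefs.Special P d w → SHDefs.MinusOneSpecial P d w ∨
          ∃ (d' : ℕ) (w' : Fin (r + 4) → ℕ) (k : ℕ)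
          (C : Fin k → MvPolynomial (Fin 3) ℂ) (e : Fin k → ℕ) (u : Fin k → Fin (r + 4) → ℕ)
          (N : Fin k → ℕ) (d1 : ℕ) (w1 : Fin (r + 4) → ℕ),
          SHDefs.Decomp P d w d' w' C e u N ∧
          SHDefs.interK d1 w1 = SHDefs.interK d w + ∑ a, (N a : ℤ) ∧
          Relation.ReflTransGen SHDefs.Quadratic (d', w') (d1, w1) ∧
          (∀ i j k, i ≠ j → i ≠ k → j ≠ k → w1 i + w1 j + w1 k ≤ d1) ∧
          SHDefs.Special P d1 w1 ∧ SHDefs.dimL P d1 w1 = SHDefs.dimL P d w ∧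
          3 * d1 + 6 ≤ ∑ i, if 2 ≤ w1 i then w1 i else 0 := by
  obtain ⟨F, hF, hF'⟩ := hh_full
    (Q := fun d1 w1 => ∑ j : Fin (r + 4), (if 2 ≤ w1 j then w1 j else 0) ≤ 3 * d1 + 5)
    (fun hP _ _ hred h => std_dim1 hP hred h) d w
  refine ⟨F.map (algebraMap ℚ ℂ), map_ne hF, fun P hP hs => ?_⟩
  rw [evP_eval] at hP
  rw [special_conv] at hs
  rcases hF' ℂ P hP hs with h | ⟨d', w', k, C, e, u, N, d1, w1, h1, h2, h3, h4, h5, h6⟩
  · exact Or.inl ((mspecial_conv P d w).2 h)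
  · obtain ⟨c1, c2, c3⟩ := quad_inv h2
    simp only at c1 c2 c3
    refine Or.inr ⟨d', w', k, C, e, u, N, d1, w1, decomp_iff.2 h1, ?_, chain_conv h2, h3,
      (special_conv P d1 w1).2 h4, by rw [dimL_eq, dimL_eq, h5], by omega⟩
    rw [interK_eq, interK_eq, c2, h1.kk_eq]
    ring

/-- The sum of the multiplicities larger than one. -/
theorem big_le {s : ℕ} (w : Fin s → ℕ) : ∑ i, (if 2 ≤ w i then w i else 0) ≤ ∑ i, w i :=
  Finset.sum_le_sum fun i _ => by split_ifs <;> omega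

end Pool.Agent.N108.ZZ
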