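import Mathlib

set_option autoImplicit false

/-!
# The intersection number with an exceptional curve
-/

namespace Pool.Agent.N108.ZZ

theorem pair_sum {J : Finset ℕ} {y : ℕ → ℕ} {e : ℕ} (h2 : 2 ≤ J.card)
    (h : ∀ i ∈ J, ∀ j ∈ J, i ≠ j → y i + y j ≤ e) : 2 * ∑ k ∈ J, y k ≤ J.card * e := by
  classical
  obtain ⟨i, hi, hmax⟩ := J.exists_max_image y (Finset.card_pos.1 (by omega))
  obtain ⟨j, hj⟩ : (J.erase i).Nonempty := by
    rw [← Finset.card_pos, Finset.card_erase_of_mem hi]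
    omega
  have h3 := Finset.add_sum_erase J y hi
  have h4 := Finset.add_sum_erase (J.erase i) y hj
  have h5 : ∑ k ∈ (J.erase i).erase j, 2 * y k ≤ ((J.erase i).erase j).card • e := by
    refine Finset.sum_le_card_nsmul _ _ _ fun k hk => ?_
    have hk1 := Finset.mem_of_mem_erase hk
    have hk2 := Finset.mem_of_mem_erase hk1
    have := h k hk2 i hi (Finset.ne_of_mem_erase hk1)
    have := hmax k hk2
    omega
  rw [← Finset.mul_sum, Finset.card_erase_of_mem hj, Finset.card_erase_of_mem hi,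
    smul_eq_mul] at h5
  have h6 := h i hi j (Finset.mem_of_mem_erase hj) (Finset.ne_of_mem_erase hj).symm
  obtain ⟨q, hq⟩ : ∃ q, J.card = q + 2 := ⟨J.card - 2, by omega⟩
  rw [hq] at h5 ⊢
  have h7 : q + 2 - 1 - 1 = q := by omega
  rw [h7] at h5
  nlinarith

theorem slots {α β γ m q κ t D2 : ℤ} (hα : 0 ≤ α) (hβ : 0 ≤ β) (hγ : 0 ≤ γ) (hm : 3 ≤ m)
    (hq : 2 ≤ q) (ht : t = 3 * α + 2 * β + 4 * γ) (hκ : κ ≤ 5) (hqm : q * m ≤ t + κ)
    (hD : 2 * t + κ - 2 ≤ D2)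
    (hD2 : D2 ≤ α ^ 2 + 2 * α * β + 4 * α * γ + 2 * β * γ + 2 * γ ^ 2 + 2 * m * t - q * m ^ 2) :
    q ≤ 2 * α + β + 2 * γ := by
  by_contra hcon
  push Not at hcon
  have h1 : t ≤ 2 * q - 2 := by omega
  have h2 : m = 3 := by
    by_contra h
    have h4 : 4 ≤ m := by omega
    nlinarith
  subst h2
  have h3 : q ≤ 3 := by omega
  have h4 : α ≤ 1 := by omega
  have h5 : γ ≤ 1 := by omega
  have h6 : β ≤ 2 := by omega
  interval_cases q <;> interval_cases α <;> interval_cases γ <;> interval_cases β <;> omega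

/-- The intersection number with an exceptional curve is not negative. -/
theorem exc_num {n d e : ℕ} {v y : ℕ → ℕ} (hv : Antitone v) (hn : 10 ≤ n)
    (hd : v 0 + v 1 + v 2 ≤ d) (hm : 3 ≤ v 9) (h29 : v 2 = v 9)
    (hK : ∑ k ∈ Finset.range n, v k ≤ 3 * d + 5)
    (ht : ∑ k ∈ Finset.range 9, v k < 3 * d)
    (hχ : 2 * (3 * (d : ℤ) - ∑ k ∈ Finset.range 9, (v k : ℤ)) +
      (∑ k ∈ Finset.range n, (v k : ℤ) - 3 * d) - 2 ≤
        (d : ℤ) ^ 2 - ∑ k ∈ Finset.range n, (v k : ℤ) ^ 2)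
    (hpair : ∀ i j, i < n → j < n → i ≠ j → y i + y j ≤ e ∨ (e = 1 ∧ y i = 1 ∧ y j = 1))
    (hcan : 3 * e = ∑ k ∈ Finset.range n, y k + 1) :
    ∑ k ∈ Finset.range n, v k * y k + ∑ k ∈ Finset.Ico 9 n, y k + 1 ≤ d * e := by
  classical
  obtain ⟨m, hm'⟩ : ∃ m, v 9 = m := ⟨_, rfl⟩
  have hmid : ∀ k, 2 ≤ k → k ≤ 9 → v k = m := by
    intro k h1 h2
    have := hv h1
    have := hv h2
    omega
  obtain ⟨J, hJ⟩ : ∃ J, J = (Finset.Ico 9 n).filter fun k => v k = m := ⟨_, rfl⟩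
  have h9J : 9 ∈ J := by
    rw [hJ, Finset.mem_filter, Finset.mem_Ico]
    exact ⟨⟨le_rfl, by omega⟩, hm'⟩
  have hJ9 : ∀ k ∈ J, 9 ≤ k ∧ k < n ∧ v k = m := by
    intro k hk
    rw [hJ, Finset.mem_filter, Finset.mem_Ico] at hk
    exact ⟨hk.1.1, hk.1.2, hk.2⟩
  have split : ∀ f : ℕ → ℕ, ∑ k ∈ Finset.range n, f k =
      ∑ k ∈ Finset.range 9, f k + ∑ k ∈ Finset.Ico 9 n, f k := fun f => by
    rw [Finset.range_eq_Ico, Finset.range_eq_Ico, Finset.sum_Ico_consecutive _ (by omega) (by omega)]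
  obtain ⟨Y, hY⟩ : ∃ Y, Y = ∑ k ∈ J, y k := ⟨_, rfl⟩
  obtain ⟨q, hq⟩ : ∃ q, q = J.card := ⟨_, rfl⟩
  have hq1 : 1 ≤ q := by
    rw [hq]
    exact Finset.card_pos.2 ⟨9, h9J⟩
  have hYle : Y ≤ ∑ k ∈ Finset.range n, y k := by
    rw [hY]
    exact Finset.sum_le_sum_of_subset fun k hk => Finset.mem_range.2 (hJ9 k hk).2.1
  -- the sum over the tail
  have htail : ∑ k ∈ Finset.Ico 9 n, v k * y k + ∑ k ∈ Finset.Ico 9 n, y k ≤
      m * ∑ k ∈ Finset.Ico 9 n, y k + Y := by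
    rw [hY, hJ, Finset.sum_filter, Finset.mul_sum, ← Finset.sum_add_distrib,
      ← Finset.sum_add_distrib]
    refine Finset.sum_le_sum fun k hk => ?_
    rw [Finset.mem_Ico] at hk
    have h1 := hv hk.1
    split_ifs with h
    · rw [h]
    · have h2 : v k + 1 ≤ m := by omega
      nlinarith
  have hsy := split y
  have hsvy := split fun k => v k * y k
  have e9 : ∀ f : ℕ → ℕ, ∑ k ∈ Finset.range 9, f k = f 0 + f 1 + f 2 + f 3 + f 4 + f 5 + f 6 +
      f 7 + f 8 := fun f => by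
    simp only [Finset.sum_range_succ, Finset.sum_range_zero]
    omega
  rw [e9] at hsy hsvy
  rw [hmid 2 (by omega) (by omega), hmid 3 (by omega) (by omega), hmid 4 (by omega) (by omega),
    hmid 5 (by omega) (by omega), hmid 6 (by omega) (by omega), hmid 7 (by omega) (by omega),
    hmid 8 (by omega) (by omega)] at hsvy
  rw [h29, hm'] at hd
  obtain ⟨γ, hγ⟩ : ∃ γ, v 1 = m + γ := ⟨v 1 - m, by
    have := hv (show 1 ≤ 9 by omega)
    omega⟩
  obtain ⟨β, hβ⟩ : ∃ β, v 0 = m + γ + β := ⟨v 0 - (m + γ), by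
    have := hv (show 0 ≤ 1 by omega)
    omega⟩
  obtain ⟨α, hα⟩ : ∃ α, d = α + β + 2 * γ + 3 * m := ⟨d - (β + 2 * γ + 3 * m), by omega⟩
  -- it is enough to show this
  suffices hkey : y 0 ≤ e ∧ y 1 ≤ e ∧ (Y : ℤ) ≤ α * e + (β + γ) * ((e : ℤ) - y 0) +
      γ * ((e : ℤ) - y 1) + m - 1 by
    obtain ⟨hy0, hy1, hkey⟩ := hkey
    have a1 : ((∑ k ∈ Finset.range n, v k * y k + ∑ k ∈ Finset.Ico 9 n, y k + 1 : ℕ) : ℤ) ≤
        ((d * e : ℕ) : ℤ) := by
      rw [hsvy]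
      obtain ⟨Z, hZ⟩ : ∃ Z, Z = ∑ k ∈ Finset.Ico 9 n, y k := ⟨_, rfl⟩
      obtain ⟨W, hW⟩ : ∃ W, W = ∑ k ∈ Finset.Ico 9 n, v k * y k := ⟨_, rfl⟩
      rw [← hZ] at htail hsy ⊢
      rw [← hW] at htail ⊢
      rw [hsy] at hcan
      rw [hβ, hγ, hα]
      have c1 : ((W : ℕ) : ℤ) + Z ≤ m * Z + Y := by exact_mod_cast htail
      have c2 : (3 : ℤ) * e = (y 0 + y 1 + y 2 + y 3 + y 4 + y 5 + y 6 + y 7 + y 8 + Z) + 1 := by
        exact_mod_cast hcan
      have c3 : (m : ℤ) * (3 * e) = m * ((y 0 + y 1 + y 2 + y 3 + y 4 + y 5 + y 6 + y 7 + y 8 + Z)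
        + 1) := by rw [c2]
      push_cast
      linarith
    exact_mod_cast a1
  have hp01 := hpair 0 1 (by omega) (by omega) (by omega)
  have hy0 : y 0 ≤ e := by omega
  have hy1 : y 1 ≤ e := by omega
  refine ⟨hy0, hy1, ?_⟩
  have ha0 : (0 : ℤ) ≤ (e : ℤ) - y 0 := by omega
  have hb0 : (0 : ℤ) ≤ (e : ℤ) - y 1 := by omega
  rcases Nat.lt_or_ge e 2 with he | he
  · have he1 : e = 1 := by omega
    have h1 : Y ≤ 2 := by omega
    have h2 : (0 : ℤ) ≤ α * e + (β + γ) * ((e : ℤ) - y 0) + γ * ((e : ℤ) - y 1) := by positivity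
    have h3 : (3 : ℤ) ≤ m := by omega
    omega
  · have hpr : ∀ i j, i < n → j < n → i ≠ j → y i + y j ≤ e := fun i j h1 h2 h3 => by
      rcases hpair i j h1 h2 h3 with h | h
      · exact h
      · omega
    have hYa : (Y : ℤ) ≤ q * ((e : ℤ) - y 0) := by
      have h1 : Y ≤ J.card • (e - y 0) := by
        rw [hY]
        refine Finset.sum_le_card_nsmul _ _ _ fun k hk => ?_
        have := hpr 0 k (by omega) (hJ9 k hk).2.1 (by have := (hJ9 k hk).1; omega)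
        omega
      rw [← hq, smul_eq_mul] at h1
      have h2 : ((Y : ℕ) : ℤ) ≤ ((q * (e - y 0) : ℕ) : ℤ) := by exact_mod_cast h1
      rw [Nat.cast_mul, Nat.cast_sub hy0] at h2
      exact h2
    have hYb : (Y : ℤ) ≤ q * ((e : ℤ) - y 1) := by
      have h1 : Y ≤ J.card • (e - y 1) := by
        rw [hY]
        refine Finset.sum_le_card_nsmul _ _ _ fun k hk => ?_
        have := hpr 1 k (by omega) (hJ9 k hk).2.1 (by have := (hJ9 k hk).1; omega)
        omega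
      rw [← hq, smul_eq_mul] at h1
      have h2 : ((Y : ℕ) : ℤ) ≤ ((q * (e - y 1) : ℕ) : ℤ) := by exact_mod_cast h1
      rw [Nat.cast_mul, Nat.cast_sub hy1] at h2
      exact h2
    have hm1 : (0 : ℤ) ≤ (m : ℤ) - 1 := by omega
    -- the numbers
    have s1 : ∑ k ∈ Finset.range 9, (v k : ℤ) = 2 * γ + β + 9 * m := by
      have : ∑ k ∈ Finset.range 9, v k = 2 * γ + β + 9 * m := by
        rw [e9, hmid 2 (by omega) (by omega), hmid 3 (by omega) (by omega),
          hmid 4 (by omega) (by omega), hmid 5 (by omega) (by omega), hmid 6 (by omega) (by omega),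
          hmid 7 (by omega) (by omega), hmid 8 (by omega) (by omega), hβ, hγ]
        ring
      exact_mod_cast this
    have s2 : (q : ℤ) * m ≤ ∑ k ∈ Finset.Ico 9 n, (v k : ℤ) := by
      have h1 : q * m ≤ ∑ k ∈ Finset.Ico 9 n, v k := by
        calc q * m = ∑ k ∈ J, v k := by
              rw [Finset.sum_congr rfl fun k hk => (hJ9 k hk).2.2, Finset.sum_const, ← hq,
                smul_eq_mul]
          _ ≤ _ := by
              rw [hJ]
              exact Finset.sum_le_sum_of_subset (Finset.filter_subset _ _)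
      exact_mod_cast h1
    have s3 : (q : ℤ) * m ^ 2 ≤ ∑ k ∈ Finset.Ico 9 n, (v k : ℤ) ^ 2 := by
      have h1 : q * m ^ 2 ≤ ∑ k ∈ Finset.Ico 9 n, v k ^ 2 := by
        calc q * m ^ 2 = ∑ k ∈ J, v k ^ 2 := by
              rw [Finset.sum_congr rfl fun k hk => by rw [(hJ9 k hk).2.2], Finset.sum_const, ← hq,
                smul_eq_mul]
          _ ≤ _ := by
              rw [hJ]
              exact Finset.sum_le_sum_of_subset (Finset.filter_subset _ _)
      exact_mod_cast h1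
    have s4 : ∑ k ∈ Finset.range n, (v k : ℤ) = 2 * γ + β + 9 * m +
        ∑ k ∈ Finset.Ico 9 n, (v k : ℤ) := by
      have h1 := split v
      have h2 : ((∑ k ∈ Finset.range n, v k : ℕ) : ℤ) =
          ((∑ k ∈ Finset.range 9, v k + ∑ k ∈ Finset.Ico 9 n, v k : ℕ) : ℤ) := by rw [h1]
      push_cast at h2
      rw [h2, s1]
    have s5 : ∑ k ∈ Finset.range n, (v k : ℤ) ^ 2 = ((m : ℤ) + γ + β) ^ 2 + ((m : ℤ) + γ) ^ 2 +
        7 * m ^ 2 + ∑ k ∈ Finset.Ico 9 n, (v k : ℤ) ^ 2 := by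
      have h1 := split fun k => v k ^ 2
      have h3 : ∑ k ∈ Finset.range 9, v k ^ 2 = (m + γ + β) ^ 2 + (m + γ) ^ 2 + 7 * m ^ 2 := by
        rw [e9, hmid 2 (by omega) (by omega), hmid 3 (by omega) (by omega),
          hmid 4 (by omega) (by omega), hmid 5 (by omega) (by omega), hmid 6 (by omega) (by omega),
          hmid 7 (by omega) (by omega), hmid 8 (by omega) (by omega), hβ, hγ]
        ring
      rw [h3] at h1
      exact_mod_cast h1
    obtain ⟨S1, hS1⟩ : ∃ S1, S1 = ∑ k ∈ Finset.Ico 9 n, (v k : ℤ) := ⟨_, rfl⟩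
    obtain ⟨S2, hS2⟩ : ∃ S2, S2 = ∑ k ∈ Finset.Ico 9 n, (v k : ℤ) ^ 2 := ⟨_, rfl⟩
    rw [← hS1] at s2 s4
    rw [← hS2] at s3 s5
    have hK' : ∑ k ∈ Finset.range n, (v k : ℤ) ≤ 3 * d + 5 := by exact_mod_cast hK
    have ht' : ∑ k ∈ Finset.range 9, (v k : ℤ) < 3 * d := by exact_mod_cast ht
    rw [s4, s1, s5] at hχ
    rw [s4] at hK'
    rw [s1] at ht'
    have hd' : (d : ℤ) = α + β + 2 * γ + 3 * m := by exact_mod_cast hα
    rw [hd'] at hχ hK' ht'
    rcases Nat.lt_or_ge q 2 with hq2 | hq2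
    · have hq1' : q = 1 := by omega
      rw [hq1'] at hYa hYb
      have hYe : (Y : ℤ) ≤ e := by omega
      have h1 : (1 : ℤ) ≤ α + β + γ := by omega
      have h2 : (Y : ℤ) ≤ α * e + (β + γ) * ((e : ℤ) - y 0) + γ * ((e : ℤ) - y 1) := by
        have b1 : (α : ℤ) * Y ≤ α * e := mul_le_mul_of_nonneg_left hYe (by omega)
        have b2 : ((β : ℤ) + γ) * Y ≤ (β + γ) * ((e : ℤ) - y 0) :=
          mul_le_mul_of_nonneg_left (by omega) (by omega)
        have b3 : (0 : ℤ) ≤ γ * ((e : ℤ) - y 1) := mul_nonneg (by omega) hb0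
        have b4 : (Y : ℤ) * 1 ≤ Y * (α + β + γ) := mul_le_mul_of_nonneg_left h1 (by omega)
        linarith
      omega
    · have hYe : 2 * (Y : ℤ) ≤ q * e := by
        have h1 := pair_sum (J := J) (y := y) (e := e) (by omega) fun i hi j hj hij =>
          hpr i j (hJ9 i hi).2.1 (hJ9 j hj).2.1 hij
        rw [← hY, ← hq] at h1
        exact_mod_cast h1
      have hslots := slots (α := α) (β := β) (γ := γ) (m := m) (q := q)
        (κ := (2 * γ + β + 9 * m + S1) - 3 * (α + β + 2 * γ + 3 * m))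
        (t := 3 * (α + β + 2 * γ + 3 * m) - (2 * γ + β + 9 * m))
        (D2 := (α + β + 2 * γ + 3 * m) ^ 2 - (((m : ℤ) + γ + β) ^ 2 + ((m : ℤ) + γ) ^ 2 +
          7 * m ^ 2 + S2)) (by omega) (by omega) (by omega) (by omega) (by omega) (by ring)
          (by linarith) (by linarith) (by linarith) (by linarith)
      have hqp : (0 : ℤ) < q := by omega
      have h2 : (q : ℤ) * Y ≤ q * (α * e + (β + γ) * ((e : ℤ) - y 0) + γ * ((e : ℤ) - y 1)) := by
        have b1 : (α : ℤ) * (2 * Y) ≤ α * (q * e) := mul_le_mul_of_nonneg_left hYe (by omega)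
        have b2 : ((β : ℤ) + γ) * Y ≤ (β + γ) * (q * ((e : ℤ) - y 0)) :=
          mul_le_mul_of_nonneg_left hYa (by omega)
        have b3 : (γ : ℤ) * Y ≤ γ * (q * ((e : ℤ) - y 1)) :=
          mul_le_mul_of_nonneg_left hYb (by omega)
        have b4 : (Y : ℤ) * q ≤ Y * (2 * α + β + 2 * γ) :=
          mul_le_mul_of_nonneg_left hslots (by omega)
        linarith
      have h3 := le_of_mul_le_mul_left h2 hqp
      omega

end Pool.Agent.N108.ZZ
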