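import Pool.Agent.N108.SG.Main
import Pool.Agent.N108.ZZ.Harb

set_option autoImplicit false

/-!
# Restriction to the cubic through nine generic points
-/

namespace Pool.Agent.N108.ZZ

open MvPolynomial Pool.Agent.W609 Pool.Agent.W609.CR Pool.Agent.TH167.SH Pool.Agent.H248R5
open Pool.Agent.TH167.TT

/-- The indicator of a set of points. -/
def ind {s : ℕ} (T : Finset (Fin s)) (j : Fin s) : ℕ := if j ∈ T then 1 else 0

theorem ind_chi {s : ℕ} (T : Finset (Fin s)) (d : ℕ) :
    chi d (ind T) = ((d + 2).choose 2 : ℤ) - T.card := by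
  classical
  unfold chi
  have h1 : ∀ j, ((ind T j + 1).choose 2 : ℤ) = if j ∈ T then 1 else 0 := by
    intro j
    unfold ind
    split_ifs <;> norm_num
  rw [Finset.sum_congr rfl fun j _ => h1 j, Finset.sum_ite_mem, Finset.univ_inter,
    Finset.sum_const]
  norm_num

theorem ind_kk {s : ℕ} (T : Finset (Fin s)) (d : ℕ) : kk d (ind T) = 3 * (d : ℤ) - T.card := by
  classical
  unfold kk
  have h1 : ∀ j, ((ind T j : ℕ) : ℤ) = if j ∈ T then 1 else 0 := by
    intro j
    unfold ind
    split_ifs <;> norm_num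
  rw [Finset.sum_congr rfl fun j _ => h1 j, Finset.sum_ite_mem, Finset.univ_inter,
    Finset.sum_const]
  norm_num

theorem ind_red {s : ℕ} (T : Finset (Fin s)) : Reduced 3 (ind T) := by
  intro i j k _ _ _
  unfold ind
  split_ifs <;> omega

/-- The cubic through nine generic points does not contain other generic points. -/
theorem cubic_ne {K : Type} [Field K] [CharZero K] {r : ℕ} {P : Fin (r + 4) → Fin 2 → K}
    (hP : AlgebraicIndependent ℚ (fun ij : Fin (r + 4) × Fin 2 => P ij.1 ij.2))
    {T : Finset (Fin (r + 4))} (hT : T.card = 9) {g : MvPolynomial (Fin 3) K}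
    (hg : g ∈ VS (fun j => aff (P j)) (ind T) 3) (hg0 : g ≠ 0) {i : Fin (r + 4)} (hi : i ∉ T) :
    eval (aff (P i)) g ≠ 0 := by
  classical
  intro h0
  have hc : (insert i T).card = 10 := by rw [Finset.card_insert_of_notMem hi, hT]
  have h1 := Pool.Agent.N108.SG.low_dim hP (ind_red (insert i T))
    (by rw [ind_kk, hc]; norm_num) (by rw [ind_kk, ind_chi, hc]; norm_num [Nat.choose])
  rw [ind_chi, hc] at h1
  have h2 : Module.finrank K ↥(VS (fun j => aff (P j)) (ind (insert i T)) 3) = 0 := by
    have : ((3 + 2).choose 2 : ℤ) = 10 := by norm_num [Nat.choose]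
    rw [this] at h1
    norm_num at h1
    exact_mod_cast h1
  have h3 := vs_fin (fun j => aff (P j)) (ind (insert i T)) 3
  have h4 : g ∈ VS (fun j => aff (P j)) (ind (insert i T)) 3 := by
    rw [mem_VS] at hg ⊢
    refine ⟨hg.1, fun j => ?_⟩
    by_cases hj : j = i
    · subst hj
      have : ind (insert j T) j = 1 := by
        unfold ind
        rw [if_pos (Finset.mem_insert_self _ _)]
      rw [this]
      exact van_one.2 h0
    · have : ind (insert i T) j = ind T j := by
        unfold ind
        simp [Finset.mem_insert, hj]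
      rw [this]
      exact hg.2 j
  rw [Submodule.finrank_eq_zero.1 h2, Submodule.mem_bot] at h4
  exact hg0 h4

theorem cubic_exists {K : Type} [Field K] {s : ℕ} (P : Fin s → Fin 2 → K)
    {T : Finset (Fin s)} (hT : T.card = 9) :
    ∃ g ∈ VS (fun j => aff (P j)) (ind T) 3, g ≠ 0 := by
  have hdim := chi_le_dim P 3 (ind T)
  rw [ind_chi, hT] at hdim
  by_contra hcon
  push Not at hcon
  have : VS (fun j => aff (P j)) (ind T) 3 = ⊥ := (Submodule.eq_bot_iff _).2 hcon
  rw [this, finrank_bot] at hdim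
  norm_num [Nat.choose] at hdim

/-- Restriction to the cubic through nine of the points. -/
theorem cubic_step {K : Type} [Field K] [CharZero K] {r : ℕ} {P : Fin (r + 4) → Fin 2 → K}
    (hP : AlgebraicIndependent ℚ (fun ij : Fin (r + 4) × Fin 2 => P ij.1 ij.2)) {d : ℕ}
    {w : Fin (r + 4) → ℕ} (hred : Reduced d w) {T : Finset (Fin (r + 4))} (hT : T.card = 9)
    (hpos : ∀ i ∈ T, 1 ≤ w i) :
    3 ≤ d ∧ Module.finrank K ↥(VS (fun j => aff (P j)) w d) + ∑ i ∈ T, w i ≤
      Module.finrank K ↥(VS (fun j => aff (P j)) (fun j => w j - ind T j) (d - 3)) + 3 * d := by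
  classical
  obtain ⟨g, hg, hg0⟩ := cubic_exists P hT
  obtain ⟨wT, hwT⟩ : ∃ wT : Fin (r + 4) → ℕ, wT = fun j => if j ∈ T then w j else 0 := ⟨_, rfl⟩
  have hwTle : ∀ j, wT j ≤ w j := by
    intro j
    rw [hwT]
    simp only
    split_ifs
    · exact le_rfl
    · exact Nat.zero_le _
  have hredT : Reduced d wT := fun i j k h1 h2 h3 =>
    (Nat.add_le_add (Nat.add_le_add (hwTle i) (hwTle j)) (hwTle k)).trans (hred i j k h1 h2 h3)
  have hsupp : (Finset.univ.filter fun j => wT j ≠ 0) = T := by
    ext j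
    rw [Finset.mem_filter, hwT]
    simp only [Finset.mem_univ, true_and]
    constructor
    · intro h
      by_contra hj
      rw [if_neg hj] at h
      exact h rfl
    · intro hj
      rw [if_pos hj]
      have := hpos j hj
      omega
  obtain ⟨hd, hredT'⟩ := red_sub hredT (by rw [hsupp, hT]; norm_num)
  refine ⟨hd, ?_⟩
  have n1 := nine hP hredT (by rw [hsupp, hT])
  have n2 := nine hP hredT' (by
    refine (Finset.card_le_card fun j hj => ?_).trans (show T.card ≤ 9 by omega)
    rw [← hsupp]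
    rw [Finset.mem_filter] at hj ⊢
    exact ⟨hj.1, by omega⟩)
  have hfA := vs_fin (fun j => aff (P j)) w d
  have hfB := vs_fin (fun j => aff (P j)) wT d
  have hfC := vs_fin (fun j => aff (P j)) (fun j => wT j - 1) (d - 3)
  have hfD := vs_fin (fun j => aff (P j)) (fun j => w j - ind T j) (d - 3)
  have hinj : Function.Injective (LinearMap.mulLeft K g) := by
    intro a b hab
    rw [LinearMap.mulLeft_apply, LinearMap.mulLeft_apply] at hab
    exact mul_left_cancel₀ hg0 hab
  obtain ⟨G, hG⟩ : ∃ G, G = (VS (fun j => aff (P j)) (fun j => wT j - 1) (d - 3)).map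
    (LinearMap.mulLeft K g) := ⟨_, rfl⟩
  have hGf : Module.finrank K ↥G =
      Module.finrank K ↥(VS (fun j => aff (P j)) (fun j => wT j - 1) (d - 3)) := by
    rw [hG]
    exact (LinearEquiv.finrank_eq (Submodule.equivMapOfInjective _ hinj _)).symm
  have hGfin : Module.Finite K ↥G := by
    rw [hG]
    exact Module.Finite.map _ _
  rw [mem_VS] at hg
  have hAB : VS (fun j => aff (P j)) w d ≤ VS (fun j => aff (P j)) wT d := by
    intro f hf
    rw [mem_VS] at hf ⊢
    exact ⟨hf.1, fun j => van_mono (hwTle j) (hf.2 j)⟩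
  have hGB : G ≤ VS (fun j => aff (P j)) wT d := by
    rw [hG]
    rintro _ ⟨h, hh, rfl⟩
    rw [SetLike.mem_coe, mem_VS] at hh
    rw [mem_VS, LinearMap.mulLeft_apply]
    refine ⟨?_, fun j => ?_⟩
    · have := hg.1.mul hh.1
      rwa [show 3 + (d - 3) = d by omega] at this
    · by_cases hj : j ∈ T
      · have h1 := van_mul (hg.2 j) (hh.2 j)
        refine van_mono ?_ h1
        unfold ind
        rw [if_pos hj]
        omega
      · rw [hwT]
        simp only
        rw [if_neg hj]
        exact van_zero _ _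
  have hAG : VS (fun j => aff (P j)) w d ⊓ G ≤
      (VS (fun j => aff (P j)) (fun j => w j - ind T j) (d - 3)).map (LinearMap.mulLeft K g) := by
    rintro f ⟨hfA', hfG⟩
    rw [hG] at hfG
    obtain ⟨h, hh, rfl⟩ := hfG
    refine ⟨h, ?_, rfl⟩
    rw [SetLike.mem_coe, mem_VS] at hh
    have hfA2 : g * h ∈ VS (fun j => aff (P j)) w d := hfA'
    rw [mem_VS] at hfA2
    rw [SetLike.mem_coe, mem_VS]
    refine ⟨hh.1, fun j => ?_⟩
    by_cases hj : j ∈ T
    · have h1 := hh.2 j
      rw [hwT] at h1
      simp only [if_pos hj] at h1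
      unfold ind
      rw [if_pos hj]
      exact h1
    · have h1 : Ord (aff (P j)) 0 g := by
        refine ⟨van_zero _ _, fun h2 => ?_⟩
        exact cubic_ne hP hT ((mem_VS _ _ _ _).2 hg) hg0 hj (van_one.1 (by simpa using h2))
      refine van_of_mul h1 ?_
      unfold ind
      rw [if_neg hj, zero_add, Nat.sub_zero]
      exact hfA2.2 j
  have e1 := Submodule.finrank_sup_add_finrank_inf_eq (VS (fun j => aff (P j)) w d) G
  have e2 : Module.finrank K ↥(VS (fun j => aff (P j)) w d ⊔ G) ≤
      Module.finrank K ↥(VS (fun j => aff (P j)) wT d) := Submodule.finrank_mono (sup_le hAB hGB)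
  have e3 := Submodule.finrank_mono hAG
  have e4 := Submodule.finrank_map_le (LinearMap.mulLeft K g)
    (VS (fun j => aff (P j)) (fun j => w j - ind T j) (d - 3))
  have hsumT : ∑ i ∈ T, w i = ∑ j, wT j := by
    rw [hwT, Finset.sum_ite_mem, Finset.univ_inter]
  have h6 : ∀ x : ℕ, (x + 1).choose 2 = (x - 1 + 1).choose 2 + x := by
    intro x
    rcases Nat.eq_zero_or_pos x with rfl | hx
    · rfl
    · rw [Nat.sub_add_cancel hx]
      have h7 : (x + 1).choose 2 = x.choose 1 + x.choose 2 := Nat.choose_succ_succ' x 1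
      rw [Nat.choose_one_right] at h7
      omega
  have h7 : ∑ j, (wT j + 1).choose 2 = ∑ j, (wT j - 1 + 1).choose 2 + ∑ j, wT j := by
    rw [← Finset.sum_add_distrib]
    exact Finset.sum_congr rfl fun j _ => h6 (wT j)
  have h8 : (d + 2).choose 2 = (d - 3 + 2).choose 2 + 3 * d := by
    obtain ⟨d', rfl⟩ : ∃ d', d = d' + 3 := ⟨d - 3, by omega⟩
    have a1 : (d' + 5).choose 2 = (d' + 4).choose 1 + (d' + 4).choose 2 :=
      Nat.choose_succ_succ' (d' + 4) 1
    have a2 : (d' + 4).choose 2 = (d' + 3).choose 1 + (d' + 3).choose 2 :=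
      Nat.choose_succ_succ' (d' + 3) 1
    have a3 : (d' + 3).choose 2 = (d' + 2).choose 1 + (d' + 2).choose 2 :=
      Nat.choose_succ_succ' (d' + 2) 1
    rw [Nat.choose_one_right] at a1 a2 a3
    have e1 : d' + 3 + 2 = d' + 5 := by omega
    have e2 : d' + 3 - 3 + 2 = d' + 2 := by omega
    rw [e1, e2]
    omega
  beta_reduce at n2
  omega

end Pool.Agent.N108.ZZ
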