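import Pool.Agent.N108.ZZ.Base
import Pool.Agent.N108.ZZ.Step
import Pool.Agent.N108.ZZ.Num
import Pool.Agent.TH167.TT.Fin9
import Pool.Agent.TH167.SH.Final

set_option autoImplicit false

/-!
# All standard classes with `K D ≤ 5`
-/

namespace Pool.Agent.N108.ZZ

open MvPolynomial Pool.Agent.W609 Pool.Agent.W609.CR Pool.Agent.TH167 Pool.Agent.TH167.SH
open Pool.Agent.TH167.TT Pool.Agent.N108.SG

theorem three_le {f : ℕ → ℕ} (hf : Antitone f) {a b c : ℕ} (hab : a ≠ b) (hac : a ≠ c)
    (hbc : b ≠ c) : f a + f b + f c ≤ f 0 + f 1 + f 2 := by
  have key : ∀ a b c : ℕ, a < b → b < c → f a + f b + f c ≤ f 0 + f 1 + f 2 := by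
    intro a b c h1 h2
    have := hf (show 0 ≤ a by omega)
    have := hf (show 1 ≤ b by omega)
    have := hf (show 2 ≤ c by omega)
    omega
  rcases Nat.lt_or_gt_of_ne hab with a1 | a1 <;> rcases Nat.lt_or_gt_of_ne hac with a2 | a2 <;>
    rcases Nat.lt_or_gt_of_ne hbc with a3 | a3
  · exact key a b c a1 a3
  · have := key a c b a2 a3; omega
  · omega
  · have := key c a b a2 a1; omega
  · have := key b a c a1 a2; omega
  · omega
  · have := key b c a a3 a2; omega
  · have := key c b a a3 a1; omega

section sub

variable {s : ℕ} {d : ℕ} {w : Fin s → ℕ} {T : Finset (Fin s)}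

theorem sub_ip (hd : 3 ≤ d) (hpos : ∀ i ∈ T, 1 ≤ w i) (e : ℕ) (u : Fin s → ℕ) :
    ip (d - 3) (fun j => w j - ind T j) e u = ip d w e u - 3 * e + ∑ i ∈ T, (u i : ℤ) := by
  classical
  unfold ip
  have h1 : ∀ j, ((w j - ind T j : ℕ) : ℤ) * u j = (w j : ℤ) * u j - if j ∈ T then (u j : ℤ) else 0 := by
    intro j
    unfold ind
    split_ifs with h
    · have := hpos j h
      rw [Nat.cast_sub this]
      push_cast
      ring
    · simp
  rw [Finset.sum_congr rfl fun j _ => h1 j, Finset.sum_sub_distrib, Finset.sum_ite_mem,
    Finset.univ_inter, Nat.cast_sub hd]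
  push_cast
  ring

theorem sub_kk (hd : 3 ≤ d) (hpos : ∀ i ∈ T, 1 ≤ w i) (hT : T.card = 9) :
    kk (d - 3) (fun j => w j - ind T j) = kk d w := by
  classical
  unfold kk
  have h1 : ∀ j, ((w j - ind T j : ℕ) : ℤ) = (w j : ℤ) - if j ∈ T then 1 else 0 := by
    intro j
    unfold ind
    split_ifs with h
    · have := hpos j h
      rw [Nat.cast_sub this]
      push_cast
      ring
    · simp
  rw [Finset.sum_congr rfl fun j _ => h1 j, Finset.sum_sub_distrib, Finset.sum_ite_mem,
    Finset.univ_inter, Nat.cast_sub hd, Finset.sum_const, hT]
  push_cast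
  ring

theorem sub_chi (hd : 3 ≤ d) (hpos : ∀ i ∈ T, 1 ≤ w i) (hT : T.card = 9) :
    chi (d - 3) (fun j => w j - ind T j) = chi d w - 3 * d + ∑ i ∈ T, (w i : ℤ) := by
  classical
  have h1 := two_chi (d - 3) (fun j => w j - ind T j)
  have h2 := two_chi d w
  rw [sub_kk hd hpos hT, sub_ip hd hpos, ip_comm d (d - 3) w, sub_ip hd hpos] at h1
  have h3 : ∑ i ∈ T, ((w i - ind T i : ℕ) : ℤ) = ∑ i ∈ T, (w i : ℤ) - 9 := by
    have h4 : ∀ i ∈ T, ((w i - ind T i : ℕ) : ℤ) = (w i : ℤ) - 1 := by
      intro i hi
      unfold ind
      rw [if_pos hi, Nat.cast_sub (hpos i hi)]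
      push_cast
      ring
    rw [Finset.sum_congr rfl h4, Finset.sum_sub_distrib, Finset.sum_const, hT]
    norm_num
  rw [h3, Nat.cast_sub hd] at h1
  push_cast at h1
  linarith

end sub

/-- The statement for `K D ≤ κ`. -/
def Stm (κ : ℕ) : Prop := ∀ (r : ℕ) (K : Type) [Field K] [CharZero K] (P : Fin (r + 4) → Fin 2 → K),
  AlgebraicIndependent ℚ (fun ij : Fin (r + 4) × Fin 2 => P ij.1 ij.2) → ∀ (d : ℕ)
  (w : Fin (r + 4) → ℕ), Reduced d w → -(κ : ℤ) ≤ kk d w →
  (Module.finrank K ↥(VS (fun j => aff (P j)) w d) : ℤ) = max 0 (chi d w)

theorem stm_zero : Stm 0 := by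
  intro r K _ _ P hP d w hred hk
  have h := harb hP hred (by simpa using hk)
  have h2 : 0 ≤ chi d w := by omega
  rw [max_eq_right h2, h]

/-- The case of simple points. -/
theorem simple_case {κ : ℕ} (h : Stm κ) {r : ℕ} {K : Type} [Field K] [CharZero K]
    {P : Fin (r + 4) → Fin 2 → K}
    (hP : AlgebraicIndependent ℚ (fun ij : Fin (r + 4) × Fin 2 => P ij.1 ij.2)) {d : ℕ}
    {w : Fin (r + 4) → ℕ} (hred : Reduced d w) (hk : -((κ + 1 : ℕ) : ℤ) ≤ kk d w)
    (hχ : 1 ≤ chi d w) {j : Fin (r + 4)} (hj : w j = 1) :
    (Module.finrank K ↥(VS (fun j => aff (P j)) w d) : ℤ) = max 0 (chi d w) := by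
  classical
  obtain ⟨w0, hw0⟩ : ∃ w0, w0 = Function.update w j 0 := ⟨_, rfl⟩
  have hle : ∀ i, w0 i ≤ w i := by
    intro i
    rw [hw0]
    by_cases hi : i = j
    · subst hi
      rw [Function.update_self]
      exact Nat.zero_le _
    · rw [Function.update_of_ne hi]
  have hred0 : Reduced d w0 := fun a b c h1 h2 h3 =>
    (Nat.add_le_add (Nat.add_le_add (hle a) (hle b)) (hle c)).trans (hred a b c h1 h2 h3)
  have hs : ∀ f : ℕ → ℤ, ∑ i, f (w i) = ∑ i, f (w0 i) + f 1 - f 0 := by
    intro f
    rw [← Finset.add_sum_erase _ _ (Finset.mem_univ j),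
      ← Finset.add_sum_erase Finset.univ (fun i => f (w0 i)) (Finset.mem_univ j), hj]
    have h4 : ∑ i ∈ Finset.univ.erase j, f (w0 i) = ∑ i ∈ Finset.univ.erase j, f (w i) :=
      Finset.sum_congr rfl fun i hi => by rw [hw0, Function.update_of_ne (Finset.ne_of_mem_erase hi)]
    have h5 : w0 j = 0 := by rw [hw0, Function.update_self]
    rw [h4, h5]
    ring
  have hkk : kk d w0 = kk d w + 1 := by
    unfold kk
    have := hs fun x => (x : ℤ)
    rw [this]
    push_cast
    ring
  have hchi : chi d w0 = chi d w + 1 := by
    unfold chi
    have := hs fun x => ((x + 1).choose 2 : ℤ)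
    rw [this]
    norm_num
    ring
  have h1 := h r K P hP d w0 hred0 (by rw [hkk]; push_cast at hk; omega)
  rw [hchi, max_eq_right (by omega)] at h1
  have h2 := simple_drop hP (w := w0) (j := j) (by rw [hw0, Function.update_self]) (d := d)
    (by omega)
  have h3 : Function.update w0 j 1 = w := by
    rw [hw0, Function.update_idem, ← hj, Function.update_eq_self]
  rw [h3] at h2
  have h4 := chi_le_dim P d w
  rw [max_eq_right (by omega)]
  omega

/-- The induction step. -/
theorem stm_step {κ : ℕ} (hκ5 : κ + 1 ≤ 5) (h : Stm κ) : Stm (κ + 1) := by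
  classical
  intro r K _ _
  have key : ∀ (c : ℕ) (P : Fin (r + 4) → Fin 2 → K),
      AlgebraicIndependent ℚ (fun ij : Fin (r + 4) × Fin 2 => P ij.1 ij.2) → ∀ (d : ℕ)
      (w : Fin (r + 4) → ℕ), Reduced d w → -((κ + 1 : ℕ) : ℤ) ≤ kk d w → chi d w ≤ c →
      (Module.finrank K ↥(VS (fun j => aff (P j)) w d) : ℤ) = max 0 (chi d w) := by
    intro c
    induction c using Nat.strong_induction_on with
    | _ c ih =>
      intro P hP d w hred hk hc
      by_cases hk' : -(κ : ℤ) ≤ kk d w
      · exact h r K P hP d w hred hk'
      have hkk : kk d w = -((κ + 1 : ℕ) : ℤ) := by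
        push_cast at hk ⊢
        omega
      by_cases hpa : -kk d w + chi d w ≤ 5
      · exact low_dim hP hred (by push_cast at hk; omega) hpa
      have hχ1 : 1 ≤ chi d w := by
        push_cast at hkk
        omega
      have hdim := chi_le_dim P d w
      obtain ⟨σ, v, hv, hv1, hv2⟩ := exists_sorted w
      by_cases h9 : v 9 ≤ 2
      · -- at most nine multiplicities are larger than two
        obtain ⟨n, hn⟩ : ∃ n, Module.finrank K ↥(VS (fun j => aff (P j)) w d) = n + 1 :=
          ⟨Module.finrank K ↥(VS (fun j => aff (P j)) w d) - 1, by omega⟩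
        have hcard : (Finset.univ.filter fun j => 2 < w j).card ≤ 9 := by
          have h0 := Finset.card_le_card_of_injOn (s := Finset.univ.filter fun j => 2 < w j)
            (t := Finset.range 9) (fun j => ((σ.symm j : Fin (r + 4)) : ℕ)) (by
              intro j hj
              rw [Finset.mem_coe, Finset.mem_filter] at hj
              rw [Finset.mem_coe, Finset.mem_range]
              have h1 := hv1 (σ.symm j : Fin (r + 4)) (σ.symm j).2
              have h2 : w (σ ⟨(σ.symm j : Fin (r + 4)), (σ.symm j).2⟩) = w j := by simp
              rw [h2] at h1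
              by_contra hcon
              have hcon' : 9 ≤ ((σ.symm j : Fin (r + 4)) : ℕ) := not_lt.1 hcon
              have h3 := hv hcon'
              have h4 := hj.2
              omega) (by
              intro i _ j _ hij
              exact σ.symm.injective (Fin.ext hij))
          rwa [Finset.card_range] at h0
        have h1 := core9n n r d w _ hred hcard (fun j hj => by
          rw [Finset.mem_filter] at hj
          push Not at hj
          exact hj (Finset.mem_univ _)) K P hP hn
        rw [hn, h1]
        push_cast
        rw [max_eq_right (by omega)]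
      by_cases hone : ∃ j, w j = 1
      · obtain ⟨j, hj⟩ := hone
        exact simple_case h hP hred hk hχ1 hj
      push Not at h9 hone
      have hn : 10 ≤ r + 4 := by
        by_contra hcon
        have := hv2 9 (by omega)
        omega
      have hne : ∀ k, v k ≠ 1 := by
        intro k hk1
        by_cases hkn : k < r + 4
        · rw [hv1 k hkn] at hk1
          exact hone _ hk1
        · rw [hv2 k (by omega)] at hk1
          omega
      have h012 : v 0 + v 1 + v 2 ≤ d := by
        rw [hv1 0 (by omega), hv1 1 (by omega), hv1 2 (by omega)]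
        refine hred _ _ _ ?_ ?_ ?_
        · intro h
          simpa using σ.injective h
        · intro h
          simpa using σ.injective h
        · intro h
          simpa using σ.injective h
      have e9 : ∀ f : ℕ → ℕ, ∑ k ∈ Finset.range 9, f k = f 0 + f 1 + f 2 + f 3 + f 4 + f 5 + f 6 +
          f 7 + f 8 := fun f => by
        simp only [Finset.sum_range_succ, Finset.sum_range_zero]
        omega
      have q1 := hv (show 0 ≤ 1 by omega)
      have q2 := hv (show 1 ≤ 2 by omega)
      have q3 := hv (show 2 ≤ 3 by omega)
      have q4 := hv (show 3 ≤ 4 by omega)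
      have q5 := hv (show 4 ≤ 5 by omega)
      have q6 := hv (show 5 ≤ 6 by omega)
      have q7 := hv (show 6 ≤ 7 by omega)
      have q8 := hv (show 7 ≤ 8 by omega)
      have q9 := hv (show 8 ≤ 9 by omega)
      obtain ⟨t, ht⟩ : ∃ t, ∑ k ∈ Finset.range 9, v k + t = 3 * d :=
        ⟨3 * d - ∑ k ∈ Finset.range 9, v k, by
          have := e9 v
          omega⟩
      have hS : ∑ k ∈ Finset.range (r + 4), v k = 3 * d + (κ + 1) := by
        rw [sum_sorted hv1 fun x => x]
        unfold kk at hkk
        have : ((∑ i, w i : ℕ) : ℤ) = ((3 * d + (κ + 1) : ℕ) : ℤ) := by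
          push_cast at hkk ⊢
          linarith
        exact_mod_cast this
      have h2χ := two_chi d w
      have hip : ip d w d w = (d : ℤ) * d - ((∑ k ∈ Finset.range (r + 4), v k * v k : ℕ) : ℤ) := by
        unfold ip
        rw [sum_sorted hv1 fun x => x * x]
        push_cast
        rfl
      rw [hip, hkk] at h2χ
      obtain ⟨Q, hQ⟩ : ∃ Q, Q = ∑ k ∈ Finset.range (r + 4), v k * v k := ⟨_, rfl⟩
      rw [← hQ] at h2χ
      have hdd : ((d * d : ℕ) : ℤ) = (d : ℤ) * d := by push_cast; rfl
      rcases Nat.eq_zero_or_pos t with ht0 | ht0
      · -- then the class is empty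
        exfalso
        subst ht0
        rw [e9] at ht
        have hall : v 0 = v 8 := by omega
        have hd3 : d = 3 * v 0 := by omega
        have hsplit : Q = ∑ k ∈ Finset.range 9, v k * v k +
            ∑ k ∈ Finset.Ico 9 (r + 4), v k * v k := by
          rw [hQ, Finset.range_eq_Ico, Finset.range_eq_Ico,
            Finset.sum_Ico_consecutive _ (by omega) (by omega)]
        have h1 : 9 ≤ ∑ k ∈ Finset.Ico 9 (r + 4), v k * v k := by
          refine le_trans ?_ (Finset.single_le_sum (f := fun k => v k * v k)
            (fun _ _ => Nat.zero_le _) (Finset.mem_Ico.2 ⟨le_rfl, (by omega : 9 < r + 4)⟩))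
          have : 3 * 3 ≤ v 9 * v 9 := Nat.mul_le_mul (by omega) (by omega)
          exact this
        have h2 : ∑ k ∈ Finset.range 9, v k * v k = d * d := by
          rw [e9]
          have a1 : v 1 = v 0 := by omega
          have a2 : v 2 = v 0 := by omega
          have a3 : v 3 = v 0 := by omega
          have a4 : v 4 = v 0 := by omega
          have a5 : v 5 = v 0 := by omega
          have a6 : v 6 = v 0 := by omega
          have a7 : v 7 = v 0 := by omega
          have a8 : v 8 = v 0 := by omega
          rw [a1, a2, a3, a4, a5, a6, a7, a8, hd3]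
          ring
        rw [← hdd] at h2χ
        push_cast at h2χ
        push_cast at hkk
        have h3 : d * d + 9 ≤ Q := by omega
        have h4 : ((d * d + 9 : ℕ) : ℤ) ≤ Q := by exact_mod_cast h3
        push_cast at h4
        omega
      rcases lt_or_ge (chi d w) (t : ℤ) with hlt | hge
      · -- the base classes
        have h1 := base_dim hP hv hv1 hv2 hn h012 (by omega) hne (show 1 ≤ κ + 1 by omega) hκ5 ht0
          ht hS (by
            rw [← hQ]
            have : ((Q + 10 : ℕ) : ℤ) ≤ ((d * d + (κ + 1) : ℕ) : ℤ) := by
              rw [Nat.cast_add (d * d), hdd]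
              push_cast at hpa hkk h2χ ⊢
              omega
            exact_mod_cast this) (by
            rw [← hQ]
            have : ((d * d + 4 : ℕ) : ℤ) ≤ ((Q + 2 * t + (κ + 1) : ℕ) : ℤ) := by
              rw [Nat.cast_add (d * d), hdd]
              push_cast at hpa hkk h2χ ⊢
              omega
            exact_mod_cast this)
        rw [h1, max_eq_right (by omega)]
      · -- subtraction of a cubic
        obtain ⟨T, hT⟩ : ∃ T : Finset (Fin (r + 4)), T = Finset.univ.map
            ⟨fun i : Fin 9 => σ ⟨i, by omega⟩, by
              intro i j hij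
              have := σ.injective hij
              simp only [Fin.mk.injEq] at this
              exact Fin.ext this⟩ := ⟨_, rfl⟩
        have hTc : T.card = 9 := by rw [hT, Finset.card_map, Finset.card_univ, Fintype.card_fin]
        have hTs : ∀ f : Fin (r + 4) → ℕ, ∀ y : ℕ → ℕ,
            (∀ k (h : k < r + 4), y k = f (σ ⟨k, h⟩)) →
            ∑ i ∈ T, f i = ∑ k ∈ Finset.range 9, y k := by
          intro f y hy
          rw [hT, Finset.sum_map, Finset.sum_range]
          exact Finset.sum_congr rfl fun i _ => (hy i (by omega)).symm
        have hpos : ∀ i ∈ T, 1 ≤ w i := by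
          intro i hi
          rw [hT, Finset.mem_map] at hi
          obtain ⟨k, _, rfl⟩ := hi
          show 1 ≤ w (σ ⟨k, _⟩)
          rw [← hv1 k (by omega)]
          have := hv (show (k : ℕ) ≤ 9 by omega)
          omega
        obtain ⟨hd3, hstep⟩ := cubic_step hP hred hTc hpos
        have hTw := hTs w v hv1
        rw [hTw] at hstep
        have hχ' := sub_chi hd3 hpos hTc
        have hkk' := sub_kk hd3 hpos hTc
        have hTw' : ∑ i ∈ T, (w i : ℤ) = ((∑ k ∈ Finset.range 9, v k : ℕ) : ℤ) := by
          rw [← hTw]
          push_cast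
          rfl
        rw [hTw'] at hχ'
        obtain ⟨R, hR⟩ : ∃ R, R = ∑ k ∈ Finset.range 9, v k := ⟨_, rfl⟩
        rw [← hR] at hχ' hstep ht
        have hχt : chi (d - 3) (fun j => w j - ind T j) = chi d w - t := by
          rw [hχ']
          omega
        -- it is enough to bound the dimension of the residual class
        suffices hres : (Module.finrank K ↥(VS (fun j => aff (P j)) (fun j => w j - ind T j)
            (d - 3)) : ℤ) ≤ chi (d - 3) (fun j => w j - ind T j) by
          rw [hχt] at hres
          rw [max_eq_right (by omega)]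
          omega
        have hχ'0 : 0 ≤ chi (d - 3) (fun j => w j - ind T j) := by
          rw [hχt]
          omega
        have ihc : ∀ (P1 : Fin (r + 4) → Fin 2 → K),
            AlgebraicIndependent ℚ (fun ij : Fin (r + 4) × Fin 2 => P1 ij.1 ij.2) →
            ∀ (d1 : ℕ) (w1 : Fin (r + 4) → ℕ), Reduced d1 w1 → kk d1 w1 = kk d w →
            chi d1 w1 = chi d w - t →
            (Module.finrank K ↥(VS (fun j => aff (P1 j)) w1 d1) : ℤ) = chi d1 w1 := by
          intro P1 hP1 d1 w1 hred1 hk1 hc1
          have h1 := ih (c - 1) (by omega) P1 hP1 d1 w1 hred1 (by rw [hk1]; exact hk) (by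
            rw [hc1]
            omega)
          rw [h1, max_eq_right (by omega)]
        by_cases hred' : Reduced (d - 3) (fun j => w j - ind T j)
        · exact (ihc P hP _ _ hred' hkk' hχt).le
        · -- then the eight middle multiplicities are equal
          have h29 : v 2 = v 9 := by
            by_contra hcon
            have h29' : v 9 < v 2 := by
              have := hv (show 2 ≤ 9 by omega)
              omega
            apply hred'
            have hb : ∀ i : Fin (r + 4), w i - ind T i ≤
                v (min (σ.symm i : Fin (r + 4)) 2) - 1 := by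
              intro i
              have h1 := hv1 (σ.symm i : Fin (r + 4)) (σ.symm i).2
              have h2 : w (σ ⟨(σ.symm i : Fin (r + 4)), (σ.symm i).2⟩) = w i := by simp
              rw [h2] at h1
              rcases Nat.lt_or_ge ((σ.symm i : Fin (r + 4)) : ℕ) 9 with h3 | h3
              · have hiT : i ∈ T := by
                  rw [hT, Finset.mem_map]
                  refine ⟨⟨(σ.symm i : Fin (r + 4)), h3⟩, Finset.mem_univ _, ?_⟩
                  show σ ⟨((σ.symm i : Fin (r + 4)) : ℕ), _⟩ = i
                  simp
                unfold ind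
                rw [if_pos hiT, ← h1]
                have := hv (show min ((σ.symm i : Fin (r + 4)) : ℕ) 2 ≤
                  ((σ.symm i : Fin (r + 4)) : ℕ) from min_le_left _ _)
                omega
              · rw [min_eq_right (by omega), ← h1]
                have := hv h3
                omega
            intro i j k hij hik hjk
            have hf : Antitone fun k => v (min k 2) - 1 := by
              intro a b hab
              have := hv (show min a 2 ≤ min b 2 from min_le_min_right 2 hab)
              show v (min b 2) - 1 ≤ v (min a 2) - 1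
              omega
            have h1 := three_le hf (a := (σ.symm i : Fin (r + 4)))
              (b := (σ.symm j : Fin (r + 4))) (c := (σ.symm k : Fin (r + 4)))
              (fun h => hij (σ.symm.injective (Fin.ext h)))
              (fun h => hik (σ.symm.injective (Fin.ext h)))
              (fun h => hjk (σ.symm.injective (Fin.ext h)))
            have b1 := hb i
            have b2 := hb j
            have b3 := hb k
            simp only [Nat.min_eq_left (show 0 ≤ 2 by omega),
              Nat.min_eq_left (show 1 ≤ 2 by omega), min_self] at h1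
            show w i - ind T i + (w j - ind T j) + (w k - ind T k) ≤ d - 3
            omega
          rcases Nat.eq_zero_or_pos (Module.finrank K ↥(VS (fun j => aff (P j))
            (fun j => w j - ind T j) (d - 3))) with hz | hz
          · rw [hz]
            exact_mod_cast hχ'0
          · obtain ⟨M, hM⟩ : ∃ M, ∀ j, w j - ind T j ≤ M := ⟨∑ j, (w j - ind T j), fun j =>
              Finset.single_le_sum (f := fun j => w j - ind T j) (fun _ _ => Nat.zero_le _)
                (Finset.mem_univ j)⟩
            have hw : Few M (d - 3) (fun j => w j - ind T j) := by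
              left
              rw [Finset.filter_false_of_mem fun j _ => not_lt.2 (hM j)]
              simp
            obtain ⟨d', w', k, C0, e, u, N, hD, hdim', P1, d1, w1, hP1, hchain, hfew, hred1,
              hdim1⟩ := main (d - 3) P hP _ hw hz
            have hDcp : Dcp P (d - 3) (fun j => w j - ind T j) d' w' C0 e u N :=
              ⟨hD.exc, hD.pos, hD.orth, hD.deg, hD.mul, hD.zero⟩
            have hk0 : k = 0 := by
              by_contra hk0
              obtain ⟨a⟩ : Nonempty (Fin k) := ⟨⟨0, by omega⟩⟩
              have h1 := hDcp.neg a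
              have h2 := hD.pos a
              have hE := hD.exc a
              rw [sub_ip hd3 hpos] at h1
              obtain ⟨y, hy1, hy2⟩ : ∃ y : ℕ → ℕ, (∀ k (h : k < r + 4), y k = u a (σ ⟨k, h⟩)) ∧
                  ∀ k, r + 4 ≤ k → y k = 0 :=
                ⟨fun k => if h : k < r + 4 then u a (σ ⟨k, h⟩) else 0, fun k h => by
                  simp only
                  rw [dif_pos h], fun k h => by
                  simp only
                  rw [dif_neg (by omega)]⟩
              have hsy : ∑ k ∈ Finset.range (r + 4), y k = ∑ i, u a i := sum_sorted hy1 fun x => x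
              have hsvy : ∑ k ∈ Finset.range (r + 4), v k * y k = ∑ i, w i * u a i := by
                rw [Finset.sum_range, ← Equiv.sum_comp σ fun i => w i * u a i]
                exact Finset.sum_congr rfl fun i _ => by rw [hv1 i i.2, hy1 i i.2]
              have hnum := exc_num (n := r + 4) (d := d) (e := e a) (y := y) hv hn h012
                (by omega) h29 (by omega) (by omega) (by
                  have b1 : (∑ k ∈ Finset.range (r + 4), (v k : ℤ)) = 3 * d + (κ + 1) := by
                    exact_mod_cast hS
                  have b2 : (∑ k ∈ Finset.range 9, (v k : ℤ)) = R := by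
                    rw [hR]
                    push_cast
                    rfl
                  have b3 : (∑ k ∈ Finset.range (r + 4), (v k : ℤ) ^ 2) = Q := by
                    rw [hQ]
                    push_cast
                    exact Finset.sum_congr rfl fun k _ => by ring
                  have b4 : (R : ℤ) + t = 3 * d := by exact_mod_cast ht
                  rw [b1, b2, b3]
                  push_cast at h2χ
                  have b5 : (d : ℤ) ^ 2 = d * d := by ring
                  rw [b5]
                  omega)
                (fun i j hi hj hij => by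
                  have h3 := hE.pair (inj_of_alg hP) (i := σ ⟨i, hi⟩) (j := σ ⟨j, hj⟩)
                    (fun h => hij (by
                      have := σ.injective h
                      simpa using this))
                  rw [hy1 i hi, hy1 j hj]
                  rcases h3 with h3 | ⟨h3, h4, h5, -⟩
                  · exact Or.inl h3
                  · exact Or.inr ⟨h3, h4, h5⟩)
                (by rw [hsy]; exact hE.can)
              have hTu := hTs (u a) y hy1
              have hsplit : ∑ k ∈ Finset.range (r + 4), y k = ∑ k ∈ Finset.range 9, y k +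
                  ∑ k ∈ Finset.Ico 9 (r + 4), y k := by
                rw [Finset.range_eq_Ico, Finset.range_eq_Ico,
                  Finset.sum_Ico_consecutive _ (by omega) (by omega)]
              have hcan := hE.can
              rw [← hsy] at hcan
              have hipw : ip d w (e a) (u a) = (d : ℤ) * e a -
                  ((∑ k ∈ Finset.range (r + 4), v k * y k : ℕ) : ℤ) := by
                unfold ip
                rw [hsvy]
                push_cast
                rfl
              have hTu' : ∑ i ∈ T, (u a i : ℤ) = ((∑ k ∈ Finset.range 9, y k : ℕ) : ℤ) := by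
                rw [← hTu]
                push_cast
                rfl
              rw [hipw, hTu'] at h1
              have hnum' : ((∑ k ∈ Finset.range (r + 4), v k * y k +
                ∑ k ∈ Finset.Ico 9 (r + 4), y k + 1 : ℕ) : ℤ) ≤ ((d * e a : ℕ) : ℤ) := by
                exact_mod_cast hnum
              rw [Nat.cast_mul] at hnum'
              obtain ⟨A, hA⟩ : ∃ A, A = ∑ k ∈ Finset.range (r + 4), v k * y k := ⟨_, rfl⟩
              obtain ⟨B, hB⟩ : ∃ B, B = ∑ k ∈ Finset.Ico 9 (r + 4), y k := ⟨_, rfl⟩
              obtain ⟨G, hG⟩ : ∃ G, G = ∑ k ∈ Finset.range 9, y k := ⟨_, rfl⟩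
              rw [← hA, ← hB] at hnum'
              rw [← hA, ← hG] at h1
              rw [← hB, ← hG] at hsplit
              push_cast at hnum'
              omega
            subst hk0
            have e1 := hD.deg
            have e2 := hD.mul
            simp only [Finset.univ_eq_empty, Finset.sum_empty, add_zero] at e1 e2
            have e3 : (fun j => w j - ind T j) = w' := funext e2
            subst e1
            subst e3
            obtain ⟨c1, c2, c3⟩ := quad_inv hchain
            simp only at c1 c2 c3
            have h1 := ihc P1 hP1 d1 w1 hred1 (by rw [c2, hkk']) (by rw [c1, hχt])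
            rw [hdim1, c1] at h1
            exact h1.le
  intro P hP d w hred hk
  exact key (chi d w).toNat P hP d w hred hk (by omega)

theorem stm_all : ∀ κ : ℕ, κ ≤ 5 → Stm κ := by
  intro κ
  induction κ with
  | zero => intro _; exact stm_zero
  | succ κ ih => intro h; exact stm_step h (ih (by omega))

/-- **Standard classes with `K D ≤ 5` have the expected dimension.** -/
theorem std_dim {K : Type} [Field K] [CharZero K] {r : ℕ} {P : Fin (r + 4) → Fin 2 → K}
    (hP : AlgebraicIndependent ℚ (fun ij : Fin (r + 4) × Fin 2 => P ij.1 ij.2)) {d : ℕ}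
    {w : Fin (r + 4) → ℕ} (hred : Reduced d w) (h : -5 ≤ kk d w) :
    (Module.finrank K ↥(VS (fun j => aff (P j)) w d) : ℤ) = max 0 (chi d w) :=
  stm_all 5 le_rfl r K P hP d w hred (by exact_mod_cast h)

end Pool.Agent.N108.ZZ
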