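import Pool.Agent.N108.ZZ.NegSix

set_option autoImplicit false

/-!
# Prime divisors with `K C ≤ 5` at generic points
-/

namespace Pool.Agent.N108.ZZ

open MvPolynomial Pool.Agent.W609 Pool.Agent.W609.CR Pool.Agent.TH167 Pool.Agent.TH167.SH

theorem prime_gen {K : Type} [Field K] [CharZero K] {r : ℕ} {P : Fin (r + 4) → Fin 2 → K}
    (hP : AlgebraicIndependent ℚ (fun ij : Fin (r + 4) × Fin 2 => P ij.1 ij.2)) {d : ℕ}
    {w : Fin (r + 4) → ℕ} {C : MvPolynomial (Fin 3) K} (hC : SHDefs.Curve P C d w)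
    (hK : SHDefs.interK d w ≤ 5) :
    SHDefs.dimL P d w = SHDefs.virtdim d w ∧ 0 ≤ SHDefs.virtdim d w := by
  obtain ⟨h1, h2, h3⟩ := curve_iff.1 hC
  have hmem : C ∈ VS (fun j => aff (P j)) w d := (mem_VS _ _ _ _).2 ⟨h2, fun j => (h3 j).1⟩
  have hfin := vs_fin (fun j => aff (P j)) w d
  have hpos : 0 < Module.finrank K ↥(VS (fun j => aff (P j)) w d) :=
    Module.finrank_pos_iff.2 ⟨⟨C, hmem⟩, 0, fun h7 => h1.ne_zero (congrArg Subtype.val h7)⟩
  rw [interK_eq] at hK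
  have hmain : (Module.finrank K ↥(VS (fun j => aff (P j)) w d) : ℤ) = chi d w := by
    rcases TT.irr_red d P hP w C h1 h2 h3 with ⟨a1, a2, a3⟩ |
      ⟨P1, e, u, G, b1, b2, b3, b4, b5, b6, b7, b8, b9⟩
    · exact a1
    · obtain ⟨q1, q2, q3⟩ := quad_inv b5
      simp only at q1 q2 q3
      have hdim := std_dim b1 b6 (by rw [q2]; linarith)
      rw [b9, q1] at hdim
      omega
  rw [dimL_eq, virtdim_eq, hmain]
  exact ⟨rfl, by omega⟩

end Pool.Agent.N108.ZZ
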