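import Pool.Agent.N108.SG.Dom
import Pool.Agent.N108.ZZ.Enum

set_option autoImplicit false

/-!
# The enumeration for all degrees
-/

namespace Pool.Agent.N108.ZZ

open Pool.Agent.N108.SG

/-- The enumeration for all degrees up to `n`. -/
def runD (l : List (ℕ × List ℕ)) (κ t : ℕ) : ℕ → Bool
  | 0 => true
  | n + 1 => top9 (sel (n + 1) l) (n + 1) (3 * (n + 1) - t) (t + κ)
      ((n + 1) * (n + 1) + 4 - (2 * t + κ)) ((n + 1) * (n + 1) + κ - 10) && runD l κ t n

theorem runD_sound {l : List (ℕ × List ℕ)} {κ t : ℕ} : ∀ {n : ℕ}, runD l κ t n = true →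
    ∀ d, 1 ≤ d → d ≤ n → top9 (sel d l) d (3 * d - t) (t + κ) (d * d + 4 - (2 * t + κ))
      (d * d + κ - 10) = true := by
  intro n
  induction n with
  | zero => intro h d h1 hd; omega
  | succ n ih =>
    intro h d h1 hd
    rw [runD, Bool.and_eq_true] at h
    rcases Nat.eq_or_lt_of_le hd with rfl | hd
    · exact h.1
    · exact ih h.2 d h1 (by omega)

/-- The enumeration for all `t` up to `m`. -/
def runT (l : List (ℕ × List ℕ)) (κ n : ℕ) : ℕ → Bool
  | 0 => true
  | m + 1 => (bif Nat.ble (m + 1 + κ) 6 then true else runD l κ (m + 1) n) && runT l κ n m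

theorem runT_sound {l : List (ℕ × List ℕ)} {κ n : ℕ} : ∀ {m : ℕ}, runT l κ n m = true →
    ∀ t, 1 ≤ t → 7 ≤ t + κ → t ≤ m → runD l κ t n = true := by
  intro m
  induction m with
  | zero => intro h t h1 h2 h3; omega
  | succ m ih =>
    intro h t h1 h2 h3
    rw [runT, Bool.and_eq_true] at h
    rcases Nat.eq_or_lt_of_le h3 with rfl | h3
    · have h4 := h.1
      rw [ble_false (by omega), cond_false] at h4
      exact h4
    · exact ih h.2 t h1 h2 (by omega)

end Pool.Agent.N108.ZZ
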