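import Pool.Agent.N108.ZZ.TTab
import Pool.Agent.N108.ZZ.Run

set_option autoImplicit false

/-!
# The enumeration
-/

namespace Pool.Agent.N108.ZZ

theorem run5_2 : runD T.cl 5 2 57 = true := by decide +kernel

theorem run5_3 : runD T.cl 5 3 57 = true := by decide +kernel

theorem run5_4 : runD T.cl 5 4 57 = true := by decide +kernel

theorem run5_5 : runD T.cl 5 5 57 = true := by decide +kernel

theorem run5_6 : runD T.cl 5 6 57 = true := by decide +kernel

theorem run5_7 : runD T.cl 5 7 57 = true := by decide +kernel

theorem run5_8 : runD T.cl 5 8 57 = true := by decide +kernel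

theorem run5_9 : runD T.cl 5 9 57 = true := by decide +kernel

theorem run5_10 : runD T.cl 5 10 57 = true := by decide +kernel

theorem run5_11 : runD T.cl 5 11 57 = true := by decide +kernel

theorem run5_12 : runD T.cl 5 12 57 = true := by decide +kernel

theorem run5_13 : runD T.cl 5 13 57 = true := by decide +kernel

theorem run5_14 : runD T.cl 5 14 57 = true := by decide +kernel

theorem run5_15 : runD T.cl 5 15 57 = true := by decide +kernel

theorem run5_16 : runD T.cl 5 16 57 = true := by decide +kernel

end Pool.Agent.N108.ZZ
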