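import Pool.Agent.N108.ZZ.RunT3
import Pool.Agent.N108.ZZ.RunT5

set_option autoImplicit false

/-!
# The enumeration
-/

namespace Pool.Agent.N108.ZZ

theorem run3 : runT T.cl 3 33 8 = true := by
  simp only [runT, run3_4, run3_5, run3_6, run3_7, run3_8, Nat.ble, cond_true,
    cond_false, Bool.and_self, Nat.reduceAdd]

theorem run4 : runT T.cl 4 45 12 = true := by
  simp only [runT, run4_3, run4_4, run4_5, run4_6, run4_7, run4_8, run4_9, run4_10, run4_11, run4_12, Nat.ble, cond_true,
    cond_false, Bool.and_self, Nat.reduceAdd]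

theorem run5 : runT T.cl 5 57 16 = true := by
  simp only [runT, run5_2, run5_3, run5_4, run5_5, run5_6, run5_7, run5_8, run5_9, run5_10, run5_11, run5_12, run5_13, run5_14, run5_15, run5_16, Nat.ble, cond_true,
    cond_false, Bool.and_self, Nat.reduceAdd]

end Pool.Agent.N108.ZZ
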