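import Pool.Agent.N108.ZZ.TTab
import Pool.Agent.N108.ZZ.Run

set_option autoImplicit false

/-!
# The enumeration
-/

namespace Pool.Agent.N108.ZZ

theorem run3_4 : runD T.cl 3 4 33 = true := by decide +kernel

theorem run3_5 : runD T.cl 3 5 33 = true := by decide +kernel

theorem run3_6 : runD T.cl 3 6 33 = true := by decide +kernel

theorem run3_7 : runD T.cl 3 7 33 = true := by decide +kernel

theorem run3_8 : runD T.cl 3 8 33 = true := by decide +kernel

theorem run4_3 : runD T.cl 4 3 45 = true := by decide +kernel

theorem run4_4 : runD T.cl 4 4 45 = true := by decide +kernel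

theorem run4_5 : runD T.cl 4 5 45 = true := by decide +kernel

theorem run4_6 : runD T.cl 4 6 45 = true := by decide +kernel

theorem run4_7 : runD T.cl 4 7 45 = true := by decide +kernel

theorem run4_8 : runD T.cl 4 8 45 = true := by decide +kernel

theorem run4_9 : runD T.cl 4 9 45 = true := by decide +kernel

theorem run4_10 : runD T.cl 4 10 45 = true := by decide +kernel

theorem run4_11 : runD T.cl 4 11 45 = true := by decide +kernel

theorem run4_12 : runD T.cl 4 12 45 = true := by decide +kernel

end Pool.Agent.N108.ZZ
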