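import Pool.Agent.N108.ZZ.Main

set_option autoImplicit false

/-!
# Simple points do not matter
-/

namespace Pool.Agent.N108.ZZ

open MvPolynomial Pool.Agent.W609 Pool.Agent.W609.CR Pool.Agent.TH167 Pool.Agent.TH167.SH
open Pool.Agent.TH167.TT Pool.Agent.N108.SG

theorem chi_upd {s : ℕ} {d : ℕ} {w : Fin s → ℕ} {j : Fin s} (hj : w j = 0) :
    chi d (Function.update w j 1) = chi d w - 1 := by
  classical
  unfold chi
  rw [← Finset.add_sum_erase _ _ (Finset.mem_univ j),
    ← Finset.add_sum_erase Finset.univ (fun i => ((w i + 1).choose 2 : ℤ)) (Finset.mem_univ j)]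
  have h4 : ∑ i ∈ Finset.univ.erase j, (((Function.update w j 1) i + 1).choose 2 : ℤ) =
      ∑ i ∈ Finset.univ.erase j, ((w i + 1).choose 2 : ℤ) :=
    Finset.sum_congr rfl fun i hi => by rw [Function.update_of_ne (Finset.ne_of_mem_erase hi)]
  rw [h4, Function.update_self, hj]
  norm_num
  ring

/-- Adding a simple general point to a non-special class. -/
theorem add_simple {K : Type} [Field K] [CharZero K] {s : ℕ} {P : Fin s → Fin 2 → K}
    (hP : AlgebraicIndependent ℚ (fun ij : Fin s × Fin 2 => P ij.1 ij.2)) {d : ℕ}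
    {w : Fin s → ℕ} {j : Fin s} (hj : w j = 0)
    (h : (Module.finrank K ↥(VS (fun j => aff (P j)) w d) : ℤ) = max 0 (chi d w)) :
    (Module.finrank K ↥(VS (fun j => aff (P j)) (Function.update w j 1) d) : ℤ) =
      max 0 (chi d (Function.update w j 1)) := by
  classical
  have hlow := chi_le_dim P d (Function.update w j 1)
  rw [chi_upd hj] at hlow ⊢
  have hfin := vs_fin (fun j => aff (P j)) w d
  have hle : Module.finrank K ↥(VS (fun j => aff (P j)) (Function.update w j 1) d) ≤
      Module.finrank K ↥(VS (fun j => aff (P j)) w d) := by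
    refine Submodule.finrank_mono ?_
    intro g hg
    rw [mem_VS] at hg ⊢
    refine ⟨hg.1, fun i => ?_⟩
    by_cases hi : i = j
    · subst hi
      rw [hj]
      exact van_zero _ _
    · have := hg.2 i
      rwa [Function.update_of_ne hi] at this
  rcases Nat.eq_zero_or_pos (Module.finrank K ↥(VS (fun j => aff (P j)) w d)) with h0 | h0
  · rw [h0] at h hle
    have h1 : Module.finrank K ↥(VS (fun j => aff (P j)) (Function.update w j 1) d) = 0 := by omega
    rw [h1] at hlow ⊢
    push_cast at hlow h ⊢
    omega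
  · have h1 := simple_drop hP hj h0
    omega

theorem add_simples {K : Type} [Field K] [CharZero K] {s : ℕ} {P : Fin s → Fin 2 → K}
    (hP : AlgebraicIndependent ℚ (fun ij : Fin s × Fin 2 => P ij.1 ij.2)) {d : ℕ}
    {w : Fin s → ℕ}
    (h : (Module.finrank K ↥(VS (fun j => aff (P j)) w d) : ℤ) = max 0 (chi d w))
    (S : Finset (Fin s)) : (∀ j ∈ S, w j = 0) →
    (Module.finrank K ↥(VS (fun j => aff (P j)) (fun j => if j ∈ S then 1 else w j) d) : ℤ) =
      max 0 (chi d (fun j => if j ∈ S then 1 else w j)) := by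
  classical
  induction S using Finset.induction_on with
  | empty =>
    intro _
    have h3 : (fun j => if j ∈ (∅ : Finset (Fin s)) then 1 else w j) = w := by
      funext j
      exact if_neg (Finset.notMem_empty j)
    rw [h3]
    exact h
  | insert a S ha ih =>
    intro hS
    have h1 := ih fun j hj => hS j (Finset.mem_insert_of_mem hj)
    have h2 := add_simple hP (j := a) (by
      rw [if_neg ha]
      exact hS a (Finset.mem_insert_self a S)) h1
    have h3 : Function.update (fun j => if j ∈ S then 1 else w j) a 1 =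
        fun j => if j ∈ insert a S then 1 else w j := by
      funext j
      by_cases hj : j = a
      · subst hj
        rw [Function.update_self, if_pos (Finset.mem_insert_self _ _)]
      · rw [Function.update_of_ne hj]
        simp [Finset.mem_insert, hj]
    rwa [h3] at h2

/-- **Standard classes with `K D ≤ 5`, the simple points being disregarded.** -/
theorem std_dim1 {K : Type} [Field K] [CharZero K] {r : ℕ} {P : Fin (r + 4) → Fin 2 → K}
    (hP : AlgebraicIndependent ℚ (fun ij : Fin (r + 4) × Fin 2 => P ij.1 ij.2)) {d : ℕ}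
    {w : Fin (r + 4) → ℕ} (hred : Reduced d w)
    (h : ∑ j, (if 2 ≤ w j then w j else 0) ≤ 3 * d + 5) :
    (Module.finrank K ↥(VS (fun j => aff (P j)) w d) : ℤ) = max 0 (chi d w) := by
  classical
  obtain ⟨w0, hw0⟩ : ∃ w0 : Fin (r + 4) → ℕ, w0 = fun j => if 2 ≤ w j then w j else 0 := ⟨_, rfl⟩
  have hle : ∀ i, w0 i ≤ w i := by
    intro i
    rw [hw0]
    show (if 2 ≤ w i then w i else 0) ≤ w i
    split_ifs <;> omega
  have hred0 : Reduced d w0 := fun a b c h1 h2 h3 =>
    (Nat.add_le_add (Nat.add_le_add (hle a) (hle b)) (hle c)).trans (hred a b c h1 h2 h3)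
  have hk : -5 ≤ kk d w0 := by
    unfold kk
    have h1 : ((∑ j, w0 j : ℕ) : ℤ) ≤ ((3 * d + 5 : ℕ) : ℤ) := by
      rw [hw0]
      exact_mod_cast h
    push_cast at h1
    linarith
  have h1 := add_simples hP (std_dim hP hred0 hk) (Finset.univ.filter fun j => w j = 1) (by
    intro j hj
    rw [Finset.mem_filter] at hj
    rw [hw0]
    show (if 2 ≤ w j then w j else 0) = 0
    rw [hj.2]
    rfl)
  have h2 : (fun j => if j ∈ (Finset.univ.filter fun j => w j = 1) then 1 else w0 j) = w := by
    funext j
    rw [hw0]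
    show (if j ∈ (Finset.univ.filter fun j => w j = 1) then 1 else if 2 ≤ w j then w j else 0) = w j
    by_cases h1 : w j = 1
    · rw [if_pos (Finset.mem_filter.2 ⟨Finset.mem_univ j, h1⟩), h1]
    · have hj : j ∉ (Finset.univ.filter fun j => w j = 1) := fun h => h1 (Finset.mem_filter.1 h).2
      rw [if_neg hj]
      split_ifs with h2
      · rfl
      · omega
  rwa [h2] at h1

end Pool.Agent.N108.ZZ
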