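import Pool.Agent.N108.ZZ.Simple
import Pool.Agent.N108.SG.LvA
import Pool.Agent.H248R6.Open

set_option autoImplicit false

/-!
# Smooth general members of strictly standard classes
-/

namespace Pool.Agent.N108.ZZ

open MvPolynomial Pool.Agent.W609 Pool.Agent.W609.CR Pool.Agent.TH167 Pool.Agent.TH167.SH
open Pool.Agent.H248R5 Pool.Agent.H932R3

/-- The sum of the multiplicities larger than one. -/
theorem surj_exp {L : Type} [Field L] {n : ℕ} {P : Fin n → Fin 2 → L} {d : ℕ} {w : Fin n → ℕ}
    (h : ExpDim L w P d) (hχ : ∑ i, (w i + 1).choose 2 ≤ (d + 2).choose 2) :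
    Function.Surjective (ev w P d) := by
  refine surj_of_ind ?_
  have h1 : Module.finrank L ↥(forms w P d) =
      (d + 2).choose 2 - ∑ i, (w i + 1).choose 2 := h
  omega

theorem exp_gen {L : Type} [Field L] [CharZero L] {r : ℕ} {P : Fin (r + 4) → Fin 2 → L}
    (hP : AlgebraicIndependent ℚ (fun ij : Fin (r + 4) × Fin 2 => P ij.1 ij.2)) {d : ℕ}
    {w : Fin (r + 4) → ℕ} (hred : Reduced d w)
    (hb : ∑ j, (if 2 ≤ w j then w j else 0) ≤ 3 * d + 5) : ExpDim L w P d := by
  rw [SG.Lv.expDim_iff]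
  exact std_dim1 hP hred hb

theorem sum_upd {s : ℕ} (w : Fin s → ℕ) (k : Fin s) (g : ℕ → ℕ) :
    ∑ i, g (Function.update w k (w k + 1) i) + g (w k) = ∑ i, g (w i) + g (w k + 1) := by
  classical
  rw [← Finset.add_sum_erase _ _ (Finset.mem_univ k),
    ← Finset.add_sum_erase Finset.univ (fun i => g (w i)) (Finset.mem_univ k)]
  have h4 : ∑ i ∈ Finset.univ.erase k, g (Function.update w k (w k + 1) i) =
      ∑ i ∈ Finset.univ.erase k, g (w i) :=
    Finset.sum_congr rfl fun i hi => by rw [Function.update_of_ne (Finset.ne_of_mem_erase hi)]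
  rw [h4, Function.update_self]
  ring

theorem red_upd {s e : ℕ} {w : Fin s → ℕ}
    (h : ∀ i j k, i ≠ j → i ≠ k → j ≠ k → w i + w j + w k ≤ e) (k : Fin s) :
    Reduced (e + 1) (Function.update w k (w k + 1)) := by
  intro a b c hab hac hbc
  have h1 := h a b c hab hac hbc
  have key : ∀ x, Function.update w k (w k + 1) x = w x + (if x = k then 1 else 0) := by
    intro x
    by_cases hx : x = k
    · subst hx
      rw [Function.update_self, if_pos rfl]
    · rw [Function.update_of_ne hx, if_neg hx, add_zero]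
  rw [key a, key b, key c]
  by_cases ha : a = k
  · have hb : b ≠ k := fun h => hab (ha.trans h.symm)
    have hc : c ≠ k := fun h => hac (ha.trans h.symm)
    rw [if_pos ha, if_neg hb, if_neg hc]
    omega
  · by_cases hb : b = k
    · have hc : c ≠ k := fun h => hbc (hb.trans h.symm)
      rw [if_neg ha, if_pos hb, if_neg hc]
      omega
    · rw [if_neg ha, if_neg hb]
      split_ifs <;> omega

theorem choose_succ (n : ℕ) : (n + 1).choose 2 = n.choose 2 + n := by
  rw [Nat.choose_succ_succ' n 1, Nat.choose_one_right]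
  ring

theorem choose_add' (a b : ℕ) : a.choose 2 + b.choose 2 ≤ (a + b).choose 2 := by
  induction b with
  | zero => simp
  | succ b ih =>
    rw [← add_assoc, choose_succ, choose_succ]
    omega

theorem choose_sum {ι : Type} (S : Finset ι) (f : ι → ℕ) :
    ∑ i ∈ S, (f i).choose 2 ≤ (∑ i ∈ S, f i).choose 2 := by
  classical
  induction S using Finset.induction_on with
  | empty => simp
  | insert a S ha ih =>
    rw [Finset.sum_insert ha, Finset.sum_insert ha]
    exact (Nat.add_le_add_left ih _).trans (choose_add' _ _)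

/-- The class of the adjoint system plus two lines. -/
theorem low_chi {s e : ℕ} {w : Fin s → ℕ} (hs : 0 < s)
    (hχ : ∀ k, ∑ i, (w i + 1).choose 2 + w k + 1 ≤ (e + 1 + 2).choose 2) :
    ∑ i, (w i - 1 + 1).choose 2 ≤ (e + 2).choose 2 := by
  have h0 : ∀ i, (w i - 1 + 1).choose 2 = (w i).choose 2 := by
    intro i
    rcases Nat.eq_zero_or_pos (w i) with h | h
    · rw [h]
      rfl
    · rw [Nat.sub_add_cancel h]
  rw [Finset.sum_congr rfl fun i _ => h0 i]
  have h1 : ∑ i, (w i + 1).choose 2 = ∑ i, (w i).choose 2 + ∑ i, w i := by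
    rw [← Finset.sum_add_distrib]
    exact Finset.sum_congr rfl fun i _ => choose_succ (w i)
  have h2 := hχ ⟨0, hs⟩
  have h3 : (e + 1 + 2).choose 2 = (e + 2).choose 2 + (e + 2) := by
    rw [show e + 1 + 2 = (e + 2) + 1 by ring, choose_succ]
  rw [h1, h3] at h2
  by_cases hcon : e + 1 ≤ ∑ i, w i
  · omega
  · have h4 := choose_sum Finset.univ w
    have h5 : (∑ i, w i).choose 2 ≤ (e + 2).choose 2 := Nat.choose_le_choose 2 (by omega)
    omega

theorem low_big {s e : ℕ} {w : Fin s → ℕ} (hs : 3 ≤ s)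
    (h : ∀ i j k, i ≠ j → i ≠ k → j ≠ k → w i + w j + w k ≤ e)
    (hb : ∑ j, (if 2 ≤ w j then w j else 0) ≤ 3 * e + 7) :
    ∑ j, (if 2 ≤ w j - 1 then w j - 1 else 0) ≤ 3 * e + 5 := by
  classical
  by_cases hc : 2 ≤ (Finset.univ.filter fun j => 3 ≤ w j).card
  · have h1 : ∑ j, (if 2 ≤ w j - 1 then w j - 1 else 0) +
        (Finset.univ.filter fun j => 3 ≤ w j).card ≤ ∑ j, (if 2 ≤ w j then w j else 0) := by
      rw [Finset.card_filter, ← Finset.sum_add_distrib]
      refine Finset.sum_le_sum fun j _ => ?_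
      split_ifs <;> omega
    omega
  · have hone : ∀ j, w j ≤ e := by
      intro j
      obtain ⟨a, ha⟩ : ∃ a : Fin s, a ≠ j := by
        by_cases h0 : j = ⟨0, by omega⟩
        · exact ⟨⟨1, by omega⟩, fun h => by rw [h0] at h; simpa using congrArg Fin.val h⟩
        · exact ⟨⟨0, by omega⟩, fun h => h0 h.symm⟩
      obtain ⟨b, hb1, hb2⟩ : ∃ b : Fin s, b ≠ j ∧ b ≠ a := by
        by_contra hcon
        push Not at hcon
        have h2 : (Finset.univ : Finset (Fin s)) ⊆ {j, a} := by
          intro x _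
          rw [Finset.mem_insert, Finset.mem_singleton]
          by_cases hx : x = j
          · exact Or.inl hx
          · exact Or.inr (hcon x hx)
        have h3 := Finset.card_le_card h2
        rw [Finset.card_univ, Fintype.card_fin] at h3
        have h4 := Finset.card_le_two (a := j) (b := a)
        omega
      have := h j a b (Ne.symm ha) (Ne.symm hb1) (Ne.symm hb2)
      omega
    have h2 : ∑ j, (if 2 ≤ w j - 1 then w j - 1 else 0) ≤
        ∑ j ∈ Finset.univ.filter (fun j => 3 ≤ w j), e := by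
      rw [Finset.sum_filter]
      refine Finset.sum_le_sum fun j _ => ?_
      have := hone j
      split_ifs <;> omega
    rw [Finset.sum_const, smul_eq_mul] at h2
    have h3 : (Finset.univ.filter fun j => 3 ≤ w j).card ≤ 1 := by omega
    nlinarith

/-- Strictly standard classes: expected dimension and smooth general member. -/
theorem smooth_main {r e : ℕ} {w : Fin (r + 4) → ℕ}
    (h : ∀ i j k, i ≠ j → i ≠ k → j ≠ k → w i + w j + w k ≤ e)
    (hb : ∑ j, (if 2 ≤ w j then w j else 0) ≤ 3 * (e + 1) + 3 ∨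
      (∑ j, (if 2 ≤ w j then w j else 0) ≤ 3 * (e + 1) + 4 ∧ ∀ j, w j ≠ 1))
    (hχ : ∀ k, ∑ i, (w i + 1).choose 2 + w k + 1 ≤ (e + 1 + 2).choose 2) :
    ∃ F : MvPolynomial (Fin (r + 4) × Fin 2) ℚ, F ≠ 0 ∧ ∀ P : Fin (r + 4) → Fin 2 → ℂ,
      aeval (fun ij : Fin (r + 4) × Fin 2 => P ij.1 ij.2) F ≠ 0 →
      Module.finrank ℂ ↥(forms w P (e + 1)) + ∑ i, (w i + 1).choose 2 = (e + 3).choose 2 ∧
        GeneralMember (forms w P (e + 1)) (SmoothMember w P) := by
  classical
  have hred : Reduced (e + 1) w := fun a b c h1 h2 h3 => (h a b c h1 h2 h3).trans (by omega)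
  have hb0 : ∑ j, (if 2 ≤ w j then w j else 0) ≤ 3 * (e + 1) + 5 := by
    rcases hb with hb | hb <;> omega
  have hχ0 : ∑ i, (w i + 1).choose 2 ≤ (e + 1 + 2).choose 2 := by
    have := hχ 0
    omega
  have hupχ : ∀ k, ∑ i, (Function.update w k (w k + 1) i + 1).choose 2 ≤
      (e + 1 + 2).choose 2 := by
    intro k
    have h1 := sum_upd w k (fun x => (x + 1).choose 2)
    have h2 := choose_succ (w k + 1)
    have h3 := hχ k
    omega
  have hupb : ∀ k, ∑ j, (if 2 ≤ Function.update w k (w k + 1) j then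
      Function.update w k (w k + 1) j else 0) ≤ 3 * (e + 1) + 5 := by
    intro k
    have h1 := sum_upd w k (fun x => if 2 ≤ x then x else 0)
    rcases hb with hb | ⟨hb, hb1⟩
    · split_ifs at h1 <;> omega
    · have h2 := hb1 k
      split_ifs at h1 <;> omega
  refine Pool.Agent.H248R6.open_main (K := ℂ) ?_ ?_
  · intro L _ _ P hP
    refine ⟨fun k => surj_exp (exp_gen hP (red_upd h k) (hupb k)) (hupχ k),
      surj_exp (exp_gen hP hred hb0) hχ0, ?_⟩
    refine surj_exp (exp_gen hP ?_ ?_) (low_chi (by omega) hχ)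
    · intro a b c h1 h2 h3
      have := h a b c h1 h2 h3
      show w a - 1 + (w b - 1) + (w c - 1) ≤ e
      omega
    · exact low_big (by omega) h (by rcases hb with hb | hb <;> omega)
  · obtain ⟨F0, hF0, hF0'⟩ := SG.Lv.to_open (n := r + 4) (d := e + 1) (w := w)
      (fun hP => exp_gen hP hred hb0)
    have hk := fun k => SG.Lv.to_open (n := r + 4) (d := e + 1)
      (w := Function.update w k (w k + 1)) (fun hP => exp_gen hP (red_upd h k) (hupb k))
    choose Fk hFk hFk' using hk
    refine ⟨F0 * ∏ k, Fk k, mul_ne_zero hF0 (Finset.prod_ne_zero_iff.2 fun k _ => hFk k),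
      fun P hP => ?_⟩
    rw [map_mul, map_prod] at hP
    have h1 := left_ne_zero_of_mul hP
    have h2 := Finset.prod_ne_zero_iff.1 (right_ne_zero_of_mul hP)
    exact ⟨fun k => surj_exp (hFk' k P (h2 k (Finset.mem_univ k))) (hupχ k),
      surj_exp (hF0' P h1) hχ0⟩

end Pool.Agent.N108.ZZ
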