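import Pool.Agent.N108.SG.Dom

set_option autoImplicit false

/-!
# Certificates of independence of the conditions
-/

namespace Pool.Agent.N108.ZZ.T

open Pool.Agent.N108.SG

theorem c0 : Emp 42 [14, 14, 14, 14, 14, 14, 14, 13, 13, 7, 1] := emp_of_cK (m0 := 14) (ms := [14,
    14, 14, 14, 14, 14, 13, 13, 7, 1]) (qs := [(4, 6), (2, 5), (5, 2), (3, 5), (0, 5), (2, 6), (4,
    1), (4, 4), (3, 1), (1, 4)]) (by norm_num) (by decide +kernel)

end Pool.Agent.N108.ZZ.T
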