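import Pool.Agent.N108.SG.Dom

set_option autoImplicit false

/-!
# Certificates of independence of the conditions
-/

namespace Pool.Agent.N108.ZZ.T

open Pool.Agent.N108.SG

theorem c32 : Emp 24 [8, 8, 8, 8, 8, 8, 8, 8, 5, 4, 4, 1, 1] := emp_of_cK (m0 := 8) (ms := [8, 8,
    8, 8, 8, 8, 8, 5, 4, 4, 1, 1]) (qs := [(3, 2), (6, 2), (5, 6), (2, 6), (6, 3), (4, 1), (4, 4),
    (6, 6), (2, 5), (1, 6), (2, 1), (0, 3)]) (by norm_num) (by decide +kernel)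

theorem c29 : Emp 24 [8, 8, 8, 8, 8, 7, 7, 7, 7, 7, 2, 1, 1] := emp_of_cK (m0 := 8) (ms := [8, 8,
    8, 8, 7, 7, 7, 7, 7, 2, 1, 1]) (qs := [(3, 2), (6, 2), (5, 6), (2, 6), (6, 3), (4, 1), (4, 4),
    (6, 6), (2, 5), (1, 6), (2, 1), (0, 3)]) (by norm_num) (by decide +kernel)

theorem c34 : Emp 23 [8, 8, 7, 7, 7, 7, 7, 7, 7, 7, 2, 1] := emp_of_cK (m0 := 8) (ms := [8, 7, 7,
    7, 7, 7, 7, 7, 7, 2, 1]) (qs := [(0, 4), (5, 3), (2, 3), (5, 0), (2, 6), (5, 2), (4, 5), (3,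
    6), (2, 2), (3, 0), (1, 4)]) (by norm_num) (by decide +kernel)

theorem c35 : Emp 23 [9, 7, 7, 7, 7, 7, 7, 7, 7, 7, 1, 1, 1] := emp_of_cK (m0 := 9) (ms := [7, 7,
    7, 7, 7, 7, 7, 7, 7, 1, 1, 1]) (qs := [(2, 2), (5, 2), (4, 2), (1, 1), (3, 0), (2, 1), (3, 1),
    (5, 3), (2, 3), (4, 5), (0, 5), (3, 6)]) (by norm_num) (by decide +kernel)

theorem c37 : Emp 22 [8, 7, 7, 7, 7, 7, 7, 7, 6, 5, 3, 1, 1] := emp_of_cK (m0 := 8) (ms := [7, 7,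
    7, 7, 7, 7, 7, 6, 5, 3, 1, 1]) (qs := [(3, 2), (6, 2), (5, 6), (2, 6), (6, 3), (4, 1), (4, 4),
    (6, 6), (2, 5), (1, 6), (2, 1), (0, 3)]) (by norm_num) (by decide +kernel)

theorem c36 : Emp 22 [8, 7, 7, 7, 7, 7, 7, 6, 6, 6, 3, 1, 1, 1] := emp_of_cK (m0 := 8) (ms := [7,
    7, 7, 7, 7, 7, 6, 6, 6, 3, 1, 1, 1]) (qs := [(5, 2), (4, 6), (0, 1), (3, 2), (4, 1), (0, 4),
    (3, 5), (6, 6), (4, 4), (2, 3), (4, 5), (5, 4), (2, 5)]) (by norm_num) (by decide +kernel)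

theorem c44 : Emp 21 [7, 7, 7, 7, 7, 7, 7, 6, 5, 4, 4, 1] := emp_of_cK (m0 := 7) (ms := [7, 7, 7,
    7, 7, 7, 6, 5, 4, 4, 1]) (qs := [(6, 3), (2, 4), (4, 4), (6, 5), (4, 3), (5, 5), (2, 0), (4,
    6), (2, 1), (3, 0), (1, 2)]) (by norm_num) (by decide +kernel)

theorem c42 : Emp 21 [7, 7, 7, 7, 7, 7, 6, 6, 6, 5, 3, 1] := emp_of_cK (m0 := 7) (ms := [7, 7, 7,
    7, 7, 6, 6, 6, 5, 3, 1]) (qs := [(6, 3), (2, 4), (4, 4), (6, 5), (4, 3), (5, 5), (2, 0), (4,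
    6), (2, 1), (3, 0), (1, 2)]) (by norm_num) (by decide +kernel)

theorem c41 : Emp 21 [7, 7, 7, 7, 7, 7, 6, 6, 6, 4, 4, 1, 1] := emp_of_cK (m0 := 7) (ms := [7, 7,
    7, 7, 7, 6, 6, 6, 4, 4, 1, 1]) (qs := [(0, 4), (3, 5), (6, 6), (5, 2), (4, 4), (2, 3), (4, 5),
    (5, 4), (2, 5), (0, 5), (6, 0), (5, 5)]) (by norm_num) (by decide +kernel)

theorem c43 : Emp 21 [7, 7, 7, 7, 7, 7, 7, 5, 5, 5, 4, 1, 1] := emp_of_cK (m0 := 7) (ms := [7, 7,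
    7, 7, 7, 7, 5, 5, 5, 4, 1, 1]) (qs := [(0, 4), (3, 5), (6, 6), (5, 2), (4, 4), (2, 3), (4, 5),
    (5, 4), (2, 5), (0, 5), (6, 0), (5, 5)]) (by norm_num) (by decide +kernel)

theorem c38 : Emp 21 [7, 7, 7, 7, 7, 6, 6, 6, 6, 6, 3, 1, 1] := emp_of_cK (m0 := 7) (ms := [7, 7,
    7, 7, 6, 6, 6, 6, 6, 3, 1, 1]) (qs := [(6, 6), (5, 2), (6, 4), (3, 4), (6, 3), (3, 6), (3, 0),
    (5, 3), (2, 3), (0, 1), (1, 4), (6, 0)]) (by norm_num) (by decide +kernel)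

theorem c40 : Emp 21 [7, 7, 7, 7, 7, 7, 6, 6, 5, 5, 4, 1, 1, 1] := emp_of_cK (m0 := 7) (ms := [7,
    7, 7, 7, 7, 6, 6, 5, 5, 4, 1, 1, 1]) (qs := [(5, 3), (6, 0), (4, 5), (4, 6), (0, 5), (2, 3),
    (3, 6), (4, 0), (6, 6), (6, 4), (5, 0), (2, 6), (6, 3)]) (by norm_num) (by decide +kernel)

theorem c39 : Emp 21 [7, 7, 7, 7, 7, 7, 6, 5, 5, 5, 5, 1, 1, 1, 1] := emp_of_cK (m0 := 7) (ms :=
    [7, 7, 7, 7, 7, 6, 5, 5, 5, 5, 1, 1, 1, 1]) (qs := [(6, 6), (4, 3), (2, 6), (1, 3), (2, 0),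
    (2, 1), (0, 1), (3, 3), (6, 1), (4, 0), (1, 6), (4, 2), (1, 4), (6, 2)]) (by norm_num) (by
    decide +kernel)

theorem c45 : Emp 21 [9, 6, 6, 6, 6, 6, 6, 6, 6, 6, 5, 1, 1, 1, 1] := emp_of_cK (m0 := 9) (ms :=
    [6, 6, 6, 6, 6, 6, 6, 6, 6, 5, 1, 1, 1, 1]) (qs := [(0, 4), (2, 2), (5, 2), (4, 2), (1, 1),
    (3, 0), (2, 1), (3, 1), (5, 3), (2, 3), (4, 5), (0, 5), (3, 6), (5, 4)]) (by norm_num) (by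
    decide +kernel)

theorem c49 : Emp 20 [7, 7, 6, 6, 6, 6, 6, 6, 6, 6, 3, 1] := emp_of_cK (m0 := 7) (ms := [7, 6, 6,
    6, 6, 6, 6, 6, 6, 3, 1]) (qs := [(6, 3), (4, 1), (4, 4), (6, 6), (2, 5), (6, 2), (1, 6), (2,
    1), (0, 3), (2, 0), (1, 5)]) (by norm_num) (by decide +kernel)

theorem c48 : Emp 20 [7, 7, 6, 6, 6, 6, 6, 6, 6, 5, 4, 1, 1, 1] := emp_of_cK (m0 := 7) (ms := [7,
    6, 6, 6, 6, 6, 6, 6, 5, 4, 1, 1, 1]) (qs := [(5, 3), (6, 0), (4, 5), (4, 6), (0, 5), (2, 3),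
    (3, 6), (4, 0), (6, 6), (6, 4), (5, 0), (2, 6), (6, 3)]) (by norm_num) (by decide +kernel)

theorem c46 : Emp 20 [7, 6, 6, 6, 6, 6, 6, 6, 6, 6, 4, 1, 1, 1, 1] := emp_of_cK (m0 := 7) (ms :=
    [6, 6, 6, 6, 6, 6, 6, 6, 6, 4, 1, 1, 1, 1]) (qs := [(2, 2), (1, 1), (4, 1), (0, 2), (5, 1),
    (3, 4), (0, 3), (2, 0), (2, 5), (5, 3), (5, 5), (4, 0), (0, 5), (4, 4)]) (by norm_num) (by
    decide +kernel)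

theorem c47 : Emp 20 [7, 7, 6, 6, 6, 6, 6, 6, 5, 5, 5, 1, 1, 1, 1] := emp_of_cK (m0 := 7) (ms :=
    [7, 6, 6, 6, 6, 6, 6, 5, 5, 5, 1, 1, 1, 1]) (qs := [(2, 4), (1, 0), (5, 4), (3, 4), (0, 6),
    (1, 2), (6, 0), (4, 6), (0, 2), (1, 6), (4, 4), (4, 1), (1, 1), (6, 6)]) (by norm_num) (by
    decide +kernel)

theorem c51 : Emp 20 [8, 6, 6, 6, 6, 6, 6, 6, 6, 5, 4, 1, 1] := emp_of_cK (m0 := 8) (ms := [6, 6,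
    6, 6, 6, 6, 6, 6, 5, 4, 1, 1]) (qs := [(5, 6), (5, 1), (2, 4), (6, 1), (4, 4), (4, 1), (0, 5),
    (6, 6), (2, 6), (6, 0), (0, 6), (0, 3)]) (by norm_num) (by decide +kernel)

theorem c52 : Emp 20 [8, 6, 6, 6, 6, 6, 6, 6, 6, 6, 2, 1, 1, 1] := emp_of_cK (m0 := 8) (ms := [6,
    6, 6, 6, 6, 6, 6, 6, 6, 2, 1, 1, 1]) (qs := [(2, 2), (2, 0), (0, 1), (1, 0), (5, 2), (3, 1),
    (5, 6), (1, 6), (1, 1), (5, 4), (6, 5), (3, 3), (1, 5)]) (by norm_num) (by decide +kernel)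

theorem c50 : Emp 20 [8, 6, 6, 6, 6, 6, 6, 6, 5, 5, 5, 1, 1, 1] := emp_of_cK (m0 := 8) (ms := [6,
    6, 6, 6, 6, 6, 6, 5, 5, 5, 1, 1, 1]) (qs := [(5, 3), (6, 0), (4, 5), (4, 6), (0, 5), (2, 3),
    (3, 6), (4, 0), (6, 6), (6, 4), (5, 0), (2, 6), (6, 3)]) (by norm_num) (by decide +kernel)

theorem c55 : Emp 19 [6, 6, 6, 6, 6, 6, 6, 6, 6, 4, 4, 1] := emp_of_cK (m0 := 6) (ms := [6, 6, 6,
    6, 6, 6, 6, 6, 4, 4, 1]) (qs := [(3, 3), (6, 0), (6, 3), (5, 6), (4, 6), (5, 2), (0, 6), (4,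
    4), (1, 0), (6, 4), (2, 1)]) (by norm_num) (by decide +kernel)

theorem c54 : Emp 19 [6, 6, 6, 6, 6, 6, 6, 6, 5, 5, 4, 1, 1] := emp_of_cK (m0 := 6) (ms := [6, 6,
    6, 6, 6, 6, 6, 5, 5, 4, 1, 1]) (qs := [(5, 6), (5, 1), (2, 4), (6, 1), (4, 4), (4, 1), (0, 5),
    (6, 6), (2, 6), (6, 0), (0, 6), (0, 3)]) (by norm_num) (by decide +kernel)

end Pool.Agent.N108.ZZ.T
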