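import Pool.Agent.N108.SG.Dom

set_option autoImplicit false

/-!
# Certificates of independence of the conditions
-/

namespace Pool.Agent.N108.ZZ.T

open Pool.Agent.N108.SG

theorem c53 : Emp 19 [6, 6, 6, 6, 6, 6, 6, 5, 5, 5, 5, 1, 1, 1] := emp_of_cK (m0 := 6) (ms := [6,
    6, 6, 6, 6, 6, 5, 5, 5, 5, 1, 1, 1]) (qs := [(2, 2), (2, 0), (0, 1), (1, 0), (5, 2), (3, 1),
    (5, 6), (1, 6), (1, 1), (5, 4), (6, 5), (3, 3), (1, 5)]) (by norm_num) (by decide +kernel)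

theorem c57 : Emp 19 [7, 6, 6, 6, 6, 6, 6, 5, 5, 5, 4, 1] := emp_of_cK (m0 := 7) (ms := [6, 6, 6,
    6, 6, 6, 5, 5, 5, 4, 1]) (qs := [(5, 4), (3, 4), (0, 6), (1, 2), (1, 0), (6, 0), (4, 6), (0,
    2), (1, 6), (4, 4), (4, 1)]) (by norm_num) (by decide +kernel)

theorem c56 : Emp 19 [7, 6, 6, 6, 6, 6, 5, 5, 5, 5, 5, 1, 1] := emp_of_cK (m0 := 7) (ms := [6, 6,
    6, 6, 6, 5, 5, 5, 5, 5, 1, 1]) (qs := [(5, 6), (5, 1), (2, 4), (6, 1), (4, 4), (4, 1), (0, 5),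
    (6, 6), (2, 6), (6, 0), (0, 6), (0, 3)]) (by norm_num) (by decide +kernel)

theorem c58 : Emp 19 [7, 6, 6, 6, 6, 6, 6, 6, 5, 5, 2, 1, 1] := emp_of_cK (m0 := 7) (ms := [6, 6,
    6, 6, 6, 6, 6, 5, 5, 2, 1, 1]) (qs := [(3, 2), (6, 2), (5, 6), (2, 6), (6, 3), (4, 1), (4, 4),
    (6, 6), (2, 5), (1, 6), (2, 1), (0, 3)]) (by norm_num) (by decide +kernel)

theorem c64 : Emp 18 [6, 6, 6, 6, 6, 6, 6, 6, 3, 3, 3, 2, 1] := emp_of_cK (m0 := 6) (ms := [6, 6,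
    6, 6, 6, 6, 6, 3, 3, 3, 2, 1]) (qs := [(2, 2), (5, 2), (4, 2), (1, 1), (3, 0), (2, 1), (3, 1),
    (5, 3), (2, 3), (4, 5), (0, 5), (3, 6)]) (by norm_num) (by decide +kernel)

theorem c59 : Emp 18 [6, 6, 6, 6, 5, 5, 5, 5, 5, 5, 5, 1] := emp_of_cK (m0 := 6) (ms := [6, 6, 6,
    5, 5, 5, 5, 5, 5, 5, 1]) (qs := [(6, 2), (2, 5), (1, 5), (1, 4), (0, 1), (5, 0), (4, 4), (3,
    0), (0, 4), (5, 5), (4, 1)]) (by norm_num) (by decide +kernel)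

theorem c63 : Emp 18 [6, 6, 6, 6, 6, 6, 6, 5, 5, 3, 2, 2, 1] := emp_of_cK (m0 := 6) (ms := [6, 6,
    6, 6, 6, 6, 5, 5, 3, 2, 2, 1]) (qs := [(2, 2), (5, 2), (4, 2), (1, 1), (3, 0), (2, 1), (3, 1),
    (5, 3), (2, 3), (4, 5), (0, 5), (3, 6)]) (by norm_num) (by decide +kernel)

theorem c61 : Emp 18 [6, 6, 6, 6, 6, 6, 6, 5, 4, 4, 2, 2, 1, 1] := emp_of_cK (m0 := 6) (ms := [6,
    6, 6, 6, 6, 6, 5, 4, 4, 2, 2, 1, 1]) (qs := [(5, 3), (2, 3), (4, 5), (0, 5), (3, 6), (5, 4),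
    (4, 4), (5, 0), (3, 4), (0, 6), (4, 3), (2, 1), (3, 3)]) (by norm_num) (by decide +kernel)

theorem c62 : Emp 18 [6, 6, 6, 6, 6, 6, 6, 5, 4, 4, 3, 1, 1] := emp_of_cK (m0 := 6) (ms := [6, 6,
    6, 6, 6, 6, 5, 4, 4, 3, 1, 1]) (qs := [(3, 2), (6, 2), (5, 6), (2, 6), (6, 3), (4, 1), (4, 4),
    (6, 6), (2, 5), (1, 6), (2, 1), (0, 3)]) (by norm_num) (by decide +kernel)

theorem c60 : Emp 18 [6, 6, 6, 6, 6, 6, 6, 4, 4, 4, 4, 1, 1, 1] := emp_of_cK (m0 := 6) (ms := [6,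
    6, 6, 6, 6, 6, 4, 4, 4, 4, 1, 1, 1]) (qs := [(1, 3), (3, 0), (5, 6), (2, 1), (3, 4), (1, 2),
    (4, 3), (4, 4), (1, 0), (6, 5), (0, 4), (3, 3), (0, 6)]) (by norm_num) (by decide +kernel)

theorem c65 : Emp 18 [8, 5, 5, 5, 5, 5, 5, 5, 5, 5, 5, 1, 1, 1, 1] := emp_of_cK (m0 := 8) (ms :=
    [5, 5, 5, 5, 5, 5, 5, 5, 5, 5, 1, 1, 1, 1]) (qs := [(0, 4), (2, 2), (5, 2), (4, 2), (1, 1),
    (3, 0), (2, 1), (3, 1), (5, 3), (2, 3), (4, 5), (0, 5), (3, 6), (5, 4)]) (by norm_num) (by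
    decide +kernel)

theorem c66 : Emp 17 [6, 6, 5, 5, 5, 5, 5, 5, 5, 5, 3, 2] := emp_of_cK (m0 := 6) (ms := [6, 5, 5,
    5, 5, 5, 5, 5, 5, 3, 2]) (qs := [(6, 3), (4, 1), (4, 4), (6, 6), (2, 5), (6, 2), (1, 6), (2,
    1), (0, 3), (2, 0), (1, 5)]) (by norm_num) (by decide +kernel)

theorem c69 : Emp 17 [7, 5, 5, 5, 5, 5, 5, 5, 5, 5, 3, 1, 1] := emp_of_cK (m0 := 7) (ms := [5, 5,
    5, 5, 5, 5, 5, 5, 5, 3, 1, 1]) (qs := [(2, 2), (5, 2), (4, 2), (1, 1), (3, 0), (2, 1), (3, 1),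
    (5, 3), (2, 3), (4, 5), (0, 5), (3, 6)]) (by norm_num) (by decide +kernel)

theorem c68 : Emp 17 [7, 5, 5, 5, 5, 5, 5, 5, 5, 5, 2, 2, 1, 1] := emp_of_cK (m0 := 7) (ms := [5,
    5, 5, 5, 5, 5, 5, 5, 5, 2, 2, 1, 1]) (qs := [(2, 2), (2, 0), (0, 1), (1, 0), (5, 2), (3, 1),
    (5, 6), (1, 6), (1, 1), (5, 4), (6, 5), (3, 3), (1, 5)]) (by norm_num) (by decide +kernel)

theorem c67 : Emp 17 [7, 5, 5, 5, 5, 5, 5, 5, 5, 4, 4, 1, 1, 1] := emp_of_cK (m0 := 7) (ms := [5,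
    5, 5, 5, 5, 5, 5, 5, 4, 4, 1, 1, 1]) (qs := [(2, 2), (2, 0), (0, 1), (1, 0), (5, 2), (3, 1),
    (5, 6), (1, 6), (1, 1), (5, 4), (6, 5), (3, 3), (1, 5)]) (by norm_num) (by decide +kernel)

theorem c72 : Emp 16 [5, 5, 5, 5, 5, 5, 5, 5, 5, 4, 2, 2, 1, 1] := emp_of_cK (m0 := 5) (ms := [5,
    5, 5, 5, 5, 5, 5, 5, 4, 2, 2, 1, 1]) (qs := [(5, 2), (4, 6), (0, 1), (3, 2), (4, 1), (0, 4),
    (3, 5), (6, 6), (4, 4), (2, 3), (4, 5), (5, 4), (2, 5)]) (by norm_num) (by decide +kernel)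

theorem c73 : Emp 16 [5, 5, 5, 5, 5, 5, 5, 5, 5, 4, 3, 1, 1] := emp_of_cK (m0 := 5) (ms := [5, 5,
    5, 5, 5, 5, 5, 5, 4, 3, 1, 1]) (qs := [(6, 6), (5, 2), (6, 4), (3, 4), (6, 3), (3, 6), (3, 0),
    (5, 3), (2, 3), (0, 1), (1, 4), (6, 0)]) (by norm_num) (by decide +kernel)

theorem c71 : Emp 16 [5, 5, 5, 5, 5, 5, 5, 5, 4, 4, 4, 1, 1, 1] := emp_of_cK (m0 := 5) (ms := [5,
    5, 5, 5, 5, 5, 5, 4, 4, 4, 1, 1, 1]) (qs := [(2, 2), (2, 0), (0, 1), (1, 0), (5, 2), (3, 1),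
    (5, 6), (1, 6), (1, 1), (5, 4), (6, 5), (3, 3), (1, 5)]) (by norm_num) (by decide +kernel)

theorem c79 : Emp 16 [6, 5, 5, 5, 5, 5, 5, 5, 4, 4, 2, 2, 1] := emp_of_cK (m0 := 6) (ms := [5, 5,
    5, 5, 5, 5, 5, 4, 4, 2, 2, 1]) (qs := [(2, 2), (5, 2), (4, 2), (1, 1), (3, 0), (2, 1), (3, 1),
    (5, 3), (2, 3), (4, 5), (0, 5), (3, 6)]) (by norm_num) (by decide +kernel)

theorem c76 : Emp 16 [6, 5, 5, 5, 5, 5, 5, 4, 4, 4, 4, 1, 1] := emp_of_cK (m0 := 6) (ms := [5, 5,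
    5, 5, 5, 5, 4, 4, 4, 4, 1, 1]) (qs := [(6, 2), (1, 0), (0, 2), (4, 0), (4, 5), (0, 5), (1, 6),
    (1, 4), (3, 1), (4, 1), (6, 3), (1, 5)]) (by norm_num) (by decide +kernel)

theorem c78 : Emp 16 [6, 5, 5, 5, 5, 5, 5, 5, 4, 3, 3, 2, 1, 1] := emp_of_cK (m0 := 6) (ms := [5,
    5, 5, 5, 5, 5, 5, 4, 3, 3, 2, 1, 1]) (qs := [(5, 3), (2, 3), (4, 5), (0, 5), (3, 6), (5, 4),
    (4, 4), (5, 0), (3, 4), (0, 6), (4, 3), (2, 1), (3, 3)]) (by norm_num) (by decide +kernel)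

theorem c75 : Emp 16 [6, 5, 5, 5, 5, 5, 5, 4, 4, 4, 3, 2, 1, 1, 1] := emp_of_cK (m0 := 6) (ms :=
    [5, 5, 5, 5, 5, 5, 4, 4, 4, 3, 2, 1, 1, 1]) (qs := [(0, 4), (2, 2), (5, 2), (4, 2), (1, 1),
    (3, 0), (2, 1), (3, 1), (5, 3), (2, 3), (4, 5), (0, 5), (3, 6), (5, 4)]) (by norm_num) (by
    decide +kernel)

theorem c77 : Emp 16 [6, 5, 5, 5, 5, 5, 5, 5, 3, 3, 3, 3, 1, 1, 1] := emp_of_cK (m0 := 6) (ms :=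
    [5, 5, 5, 5, 5, 5, 5, 3, 3, 3, 3, 1, 1, 1]) (qs := [(0, 4), (2, 2), (5, 2), (4, 2), (1, 1),
    (3, 0), (2, 1), (3, 1), (5, 3), (2, 3), (4, 5), (0, 5), (3, 6), (5, 4)]) (by norm_num) (by
    decide +kernel)

theorem c74 : Emp 16 [6, 5, 5, 5, 5, 5, 4, 4, 4, 4, 4, 2, 1, 1, 1, 1] := emp_of_cK (m0 := 6) (ms
    := [5, 5, 5, 5, 5, 4, 4, 4, 4, 4, 2, 1, 1, 1, 1]) (qs := [(4, 1), (0, 4), (3, 5), (6, 6), (5,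
    2), (4, 4), (2, 3), (4, 5), (5, 4), (2, 5), (0, 5), (6, 0), (5, 5), (5, 3), (1, 2)]) (by
    norm_num) (by decide +kernel)

theorem c85 : Emp 15 [5, 5, 5, 5, 5, 5, 4, 4, 4, 3, 3, 2, 1] := emp_of_cK (m0 := 5) (ms := [5, 5,
    5, 5, 5, 4, 4, 4, 3, 3, 2, 1]) (qs := [(0, 4), (3, 5), (6, 6), (5, 2), (4, 4), (2, 3), (4, 5),
    (5, 4), (2, 5), (0, 5), (6, 0), (5, 5)]) (by norm_num) (by decide +kernel)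

theorem c86 : Emp 15 [5, 5, 5, 5, 5, 5, 5, 3, 3, 3, 3, 3, 1] := emp_of_cK (m0 := 5) (ms := [5, 5,
    5, 5, 5, 5, 3, 3, 3, 3, 3, 1]) (qs := [(0, 5), (2, 6), (2, 5), (4, 1), (4, 4), (3, 1), (1, 4),
    (4, 3), (6, 2), (1, 5), (2, 0), (4, 2)]) (by norm_num) (by decide +kernel)

theorem c83 : Emp 15 [5, 5, 5, 5, 5, 4, 4, 4, 4, 4, 3, 2, 1, 1] := emp_of_cK (m0 := 5) (ms := [5,
    5, 5, 5, 4, 4, 4, 4, 4, 3, 2, 1, 1]) (qs := [(6, 0), (6, 5), (5, 2), (0, 4), (2, 5), (1, 0),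
    (3, 3), (3, 5), (6, 4), (4, 4), (3, 4), (1, 2), (0, 6)]) (by norm_num) (by decide +kernel)

theorem c84 : Emp 15 [5, 5, 5, 5, 5, 5, 4, 4, 3, 3, 3, 3, 1, 1] := emp_of_cK (m0 := 5) (ms := [5,
    5, 5, 5, 5, 4, 4, 3, 3, 3, 3, 1, 1]) (qs := [(5, 3), (2, 3), (4, 5), (0, 5), (3, 6), (5, 4),
    (4, 4), (5, 0), (3, 4), (0, 6), (4, 3), (2, 1), (3, 3)]) (by norm_num) (by decide +kernel)

theorem c82 : Emp 15 [5, 5, 5, 5, 5, 4, 4, 4, 4, 3, 3, 3, 1, 1, 1] := emp_of_cK (m0 := 5) (ms :=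
    [5, 5, 5, 5, 4, 4, 4, 4, 3, 3, 3, 1, 1, 1]) (qs := [(6, 6), (4, 3), (2, 6), (1, 3), (2, 0),
    (2, 1), (0, 1), (3, 3), (6, 1), (4, 0), (1, 6), (4, 2), (1, 4), (6, 2)]) (by norm_num) (by
    decide +kernel)

theorem c81 : Emp 15 [5, 5, 5, 5, 4, 4, 4, 4, 4, 4, 4, 3] := emp_of_cK (m0 := 5) (ms := [5, 5, 5,
    4, 4, 4, 4, 4, 4, 4, 3]) (qs := [(6, 2), (4, 3), (5, 5), (5, 1), (1, 6), (2, 0), (6, 0), (4,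
    2), (1, 5), (5, 6), (4, 0)]) (by norm_num) (by decide +kernel)

theorem c80 : Emp 16 [8, 4, 4, 4, 4, 4, 4, 4, 4, 4, 4, 4, 1, 1, 1, 1, 1, 1, 1] := emp_of_cK (m0 :=
    8) (ms := [4, 4, 4, 4, 4, 4, 4, 4, 4, 4, 4, 1, 1, 1, 1, 1, 1, 1]) (qs := [(6, 6), (5, 2), (6,
    4), (3, 4), (6, 3), (3, 6), (3, 0), (5, 3), (2, 3), (0, 1), (1, 4), (6, 0), (4, 5), (1, 2),
    (4, 0), (4, 2), (4, 4), (3, 2)]) (by norm_num) (by decide +kernel)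

theorem c87 : Emp 15 [6, 5, 4, 4, 4, 4, 4, 4, 4, 4, 4, 4] := emp_of_cK (m0 := 6) (ms := [5, 4, 4,
    4, 4, 4, 4, 4, 4, 4, 4]) (qs := [(6, 3), (4, 1), (4, 4), (6, 6), (2, 5), (6, 2), (1, 6), (2,
    1), (0, 3), (2, 0), (1, 5)]) (by norm_num) (by decide +kernel)

theorem c90 : Emp 14 [4, 4, 4, 4, 4, 4, 4, 4, 4, 4, 4, 3, 1, 1, 1, 1] := emp_of_cK (m0 := 4) (ms
    := [4, 4, 4, 4, 4, 4, 4, 4, 4, 4, 3, 1, 1, 1, 1]) (qs := [(1, 4), (6, 2), (1, 0), (0, 2), (4,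
    0), (4, 5), (0, 5), (1, 6), (3, 1), (4, 1), (6, 3), (1, 5), (4, 6), (5, 5), (1, 2)]) (by
    norm_num) (by decide +kernel)

theorem c88 : Emp 15 [7, 4, 4, 4, 4, 4, 4, 4, 4, 4, 4, 3, 1, 1] := emp_of_cK (m0 := 7) (ms := [4,
    4, 4, 4, 4, 4, 4, 4, 4, 4, 3, 1, 1]) (qs := [(5, 3), (2, 3), (4, 5), (0, 5), (3, 6), (5, 4),
    (4, 4), (5, 0), (3, 4), (0, 6), (4, 3), (2, 1), (3, 3)]) (by norm_num) (by decide +kernel)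

theorem c94 : Emp 14 [5, 5, 4, 4, 4, 4, 4, 4, 4, 4, 3, 2, 1] := emp_of_cK (m0 := 5) (ms := [5, 4,
    4, 4, 4, 4, 4, 4, 4, 3, 2, 1]) (qs := [(6, 6), (5, 2), (6, 4), (3, 4), (6, 3), (3, 6), (3, 0),
    (5, 3), (2, 3), (0, 1), (1, 4), (6, 0)]) (by norm_num) (by decide +kernel)

theorem c93 : Emp 14 [5, 5, 4, 4, 4, 4, 4, 4, 4, 3, 3, 3, 1, 1] := emp_of_cK (m0 := 5) (ms := [5,
    4, 4, 4, 4, 4, 4, 4, 3, 3, 3, 1, 1]) (qs := [(1, 3), (3, 0), (5, 6), (2, 1), (3, 4), (1, 2),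
    (4, 3), (4, 4), (1, 0), (6, 5), (0, 4), (3, 3), (0, 6)]) (by norm_num) (by decide +kernel)

theorem c92 : Emp 14 [5, 4, 4, 4, 4, 4, 4, 4, 4, 4, 4, 2, 1, 1] := emp_of_cK (m0 := 5) (ms := [4,
    4, 4, 4, 4, 4, 4, 4, 4, 4, 2, 1, 1]) (qs := [(0, 3), (4, 3), (3, 6), (0, 5), (4, 6), (5, 5),
    (2, 5), (6, 3), (4, 1), (3, 2), (5, 2), (3, 5), (2, 6)]) (by norm_num) (by decide +kernel)

theorem c91 : Emp 14 [5, 4, 4, 4, 4, 4, 4, 4, 4, 4, 3, 3, 1, 1, 1] := emp_of_cK (m0 := 5) (ms :=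
    [4, 4, 4, 4, 4, 4, 4, 4, 4, 3, 3, 1, 1, 1]) (qs := [(0, 4), (2, 2), (5, 2), (4, 2), (1, 1),
    (3, 0), (2, 1), (3, 1), (5, 3), (2, 3), (4, 5), (0, 5), (3, 6), (5, 4)]) (by norm_num) (by
    decide +kernel)

theorem c70 : Emp 17 [11, 4, 4, 4, 3, 3, 3, 3, 3, 3, 3, 3, 3, 3, 3, 3, 2] := emp_of_cK (m0 := 11)
    (ms := [4, 4, 4, 3, 3, 3, 3, 3, 3, 3, 3, 3, 3, 3, 3, 2]) (qs := [(6, 5), (5, 4), (6, 0), (4,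
    2), (4, 1), (1, 0), (3, 4), (2, 6), (0, 2), (1, 5), (6, 6), (1, 6), (2, 2), (0, 6), (6, 3),
    (6, 4)]) (by norm_num) (by decide +kernel)

theorem c95 : Emp 14 [6, 4, 4, 4, 4, 4, 4, 4, 4, 3, 3, 3, 1] := emp_of_cK (m0 := 6) (ms := [4, 4,
    4, 4, 4, 4, 4, 4, 3, 3, 3, 1]) (qs := [(2, 2), (5, 2), (4, 2), (1, 1), (3, 0), (2, 1), (3, 1),
    (5, 3), (2, 3), (4, 5), (0, 5), (3, 6)]) (by norm_num) (by decide +kernel)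

theorem c96 : Emp 14 [6, 4, 4, 4, 4, 4, 4, 4, 4, 4, 3, 2] := emp_of_cK (m0 := 6) (ms := [4, 4, 4,
    4, 4, 4, 4, 4, 4, 3, 2]) (qs := [(6, 3), (4, 1), (4, 4), (6, 6), (2, 5), (6, 2), (1, 6), (2,
    1), (0, 3), (2, 0), (1, 5)]) (by norm_num) (by decide +kernel)

theorem c98 : Emp 13 [4, 4, 4, 4, 4, 4, 4, 4, 3, 3, 3, 3, 1] := emp_of_cK (m0 := 4) (ms := [4, 4,
    4, 4, 4, 4, 4, 3, 3, 3, 3, 1]) (qs := [(6, 6), (5, 2), (6, 4), (3, 4), (6, 3), (3, 6), (3, 0),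
    (5, 3), (2, 3), (0, 1), (1, 4), (6, 0)]) (by norm_num) (by decide +kernel)

theorem c89 : Emp 15 [9, 3, 3, 3, 3, 3, 3, 3, 3, 3, 3, 3, 3, 3, 2, 1, 1, 1, 1, 1, 1, 1, 1, 1, 1]
    := emp_of_cK (m0 := 9) (ms := [3, 3, 3, 3, 3, 3, 3, 3, 3, 3, 3, 3, 3, 2, 1, 1, 1, 1, 1, 1, 1,
    1, 1, 1]) (qs := [(6, 1), (2, 1), (4, 1), (1, 5), (5, 5), (1, 2), (5, 6), (1, 3), (6, 0), (2,
    0), (6, 6), (5, 4), (5, 2), (0, 4), (1, 0), (0, 2), (6, 4), (3, 2), (1, 1), (2, 6), (0, 1),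
    (4, 6), (4, 2), (2, 5)]) (by norm_num) (by decide +kernel)

theorem c102 : Emp 13 [5, 4, 4, 4, 4, 4, 4, 4, 3, 3, 2, 2, 1, 1] := emp_of_cK (m0 := 5) (ms := [4,
    4, 4, 4, 4, 4, 4, 3, 3, 2, 2, 1, 1]) (qs := [(5, 3), (2, 3), (4, 5), (0, 5), (3, 6), (5, 4),
    (4, 4), (5, 0), (3, 4), (0, 6), (4, 3), (2, 1), (3, 3)]) (by norm_num) (by decide +kernel)

theorem c101 : Emp 13 [5, 4, 4, 4, 4, 4, 4, 3, 3, 3, 3, 2, 2] := emp_of_cK (m0 := 5) (ms := [4, 4,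
    4, 4, 4, 4, 3, 3, 3, 3, 2, 2]) (qs := [(2, 2), (5, 2), (4, 2), (1, 1), (3, 0), (2, 1), (3, 1),
    (5, 3), (2, 3), (4, 5), (0, 5), (3, 6)]) (by norm_num) (by decide +kernel)

theorem c100 : Emp 13 [5, 4, 4, 4, 4, 4, 3, 3, 3, 3, 3, 3, 2, 1] := emp_of_cK (m0 := 5) (ms := [4,
    4, 4, 4, 4, 3, 3, 3, 3, 3, 3, 2, 1]) (qs := [(5, 3), (2, 3), (4, 5), (0, 5), (3, 6), (5, 4),
    (4, 4), (5, 0), (3, 4), (0, 6), (4, 3), (2, 1), (3, 3)]) (by norm_num) (by decide +kernel)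

theorem c99 : Emp 13 [5, 4, 4, 4, 3, 3, 3, 3, 3, 3, 3, 3, 3, 1, 1, 1, 1, 1, 1] := emp_of_cK (m0 :=
    5) (ms := [4, 4, 4, 3, 3, 3, 3, 3, 3, 3, 3, 3, 1, 1, 1, 1, 1, 1]) (qs := [(1, 6), (5, 5), (4,
    5), (2, 0), (3, 4), (3, 3), (3, 5), (1, 5), (5, 1), (5, 4), (4, 6), (2, 4), (1, 0), (0, 6),
    (1, 2), (6, 0), (0, 2), (4, 4)]) (by norm_num) (by decide +kernel)

theorem c97 : Emp 14 [8, 3, 3, 3, 3, 3, 3, 3, 3, 3, 3, 3, 3, 3, 2, 1, 1, 1] := emp_of_cK (m0 := 8)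
    (ms := [3, 3, 3, 3, 3, 3, 3, 3, 3, 3, 3, 3, 3, 2, 1, 1, 1]) (qs := [(2, 4), (6, 0), (0, 1),
    (6, 4), (1, 1), (3, 3), (4, 2), (1, 3), (1, 0), (5, 2), (0, 5), (6, 5), (3, 5), (4, 6), (4,
    5), (1, 2), (0, 2)]) (by norm_num) (by decide +kernel)

theorem c106 : Emp 12 [4, 4, 4, 4, 4, 3, 3, 3, 3, 3, 3, 2, 1, 1] := emp_of_cK (m0 := 4) (ms := [4,
    4, 4, 4, 3, 3, 3, 3, 3, 3, 2, 1, 1]) (qs := [(0, 3), (4, 3), (3, 6), (0, 5), (4, 6), (5, 5),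
    (2, 5), (6, 3), (4, 1), (3, 2), (5, 2), (3, 5), (2, 6)]) (by norm_num) (by decide +kernel)

theorem c105 : Emp 12 [4, 4, 4, 4, 4, 3, 3, 3, 3, 3, 2, 2, 2, 1, 1] := emp_of_cK (m0 := 4) (ms :=
    [4, 4, 4, 4, 3, 3, 3, 3, 3, 2, 2, 2, 1, 1]) (qs := [(3, 3), (2, 6), (4, 1), (0, 1), (5, 0),
    (6, 3), (5, 6), (6, 0), (3, 2), (3, 6), (2, 4), (4, 4), (6, 5), (4, 3)]) (by norm_num) (by
    decide +kernel)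

theorem c104 : Emp 12 [4, 4, 4, 4, 3, 3, 3, 3, 3, 3, 3, 3, 2] := emp_of_cK (m0 := 4) (ms := [4, 4,
    4, 3, 3, 3, 3, 3, 3, 3, 3, 2]) (qs := [(0, 5), (2, 6), (2, 5), (4, 1), (4, 4), (3, 1), (1, 4),
    (4, 3), (6, 2), (1, 5), (2, 0), (4, 2)]) (by norm_num) (by decide +kernel)

theorem c103 : Emp 13 [7, 3, 3, 3, 3, 3, 3, 3, 3, 3, 3, 3, 3, 2, 1, 1] := emp_of_cK (m0 := 7) (ms
    := [3, 3, 3, 3, 3, 3, 3, 3, 3, 3, 3, 3, 2, 1, 1]) (qs := [(4, 1), (4, 4), (6, 6), (2, 5), (6,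
    2), (1, 6), (2, 1), (0, 3), (2, 0), (1, 5), (0, 6), (1, 0), (3, 2), (1, 4), (6, 4)]) (by
    norm_num) (by decide +kernel)

theorem c107 : Emp 12 [5, 4, 3, 3, 3, 3, 3, 3, 3, 3, 3, 3, 3] := emp_of_cK (m0 := 5) (ms := [4, 3,
    3, 3, 3, 3, 3, 3, 3, 3, 3, 3]) (qs := [(5, 4), (6, 5), (3, 3), (1, 5), (5, 0), (4, 0), (6, 3),
    (3, 2), (6, 1), (5, 1), (5, 3), (3, 4)]) (by norm_num) (by decide +kernel)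

theorem c110 : Emp 11 [3, 3, 3, 3, 3, 3, 3, 3, 3, 3, 3, 3, 2, 1, 1, 1] := emp_of_cK (m0 := 3) (ms
    := [3, 3, 3, 3, 3, 3, 3, 3, 3, 3, 3, 2, 1, 1, 1]) (qs := [(0, 3), (4, 3), (3, 6), (0, 5), (4,
    6), (5, 5), (2, 5), (6, 3), (4, 1), (3, 2), (5, 2), (3, 5), (2, 6), (4, 4), (3, 1)]) (by
    norm_num) (by decide +kernel)

theorem c109 : Emp 12 [6, 3, 3, 3, 3, 3, 3, 3, 3, 3, 3, 3, 2, 1] := emp_of_cK (m0 := 6) (ms := [3,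
    3, 3, 3, 3, 3, 3, 3, 3, 3, 3, 2, 1]) (qs := [(2, 6), (4, 4), (3, 4), (5, 4), (0, 4), (5, 3),
    (2, 3), (5, 0), (5, 2), (4, 5), (3, 6), (2, 2), (3, 0)]) (by norm_num) (by decide +kernel)

theorem c108 : Emp 12 [6, 3, 3, 3, 3, 3, 3, 3, 3, 3, 2, 2, 2, 2, 1, 1, 1, 1] := emp_of_cK (m0 :=
    6) (ms := [3, 3, 3, 3, 3, 3, 3, 3, 3, 2, 2, 2, 2, 1, 1, 1, 1]) (qs := [(0, 5), (3, 6), (5, 4),
    (4, 4), (5, 0), (3, 4), (0, 6), (4, 3), (2, 1), (3, 3), (2, 4), (6, 4), (4, 5), (5, 5), (5,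
    2), (4, 0), (6, 6)]) (by norm_num) (by decide +kernel)

theorem c113 : Emp 11 [4, 4, 3, 3, 3, 3, 3, 3, 3, 3, 2, 2, 2, 1] := emp_of_cK (m0 := 4) (ms := [4,
    3, 3, 3, 3, 3, 3, 3, 3, 2, 2, 2, 1]) (qs := [(0, 3), (4, 3), (3, 6), (0, 5), (4, 6), (5, 5),
    (2, 5), (6, 3), (4, 1), (3, 2), (5, 2), (3, 5), (2, 6)]) (by norm_num) (by decide +kernel)

theorem c111 : Emp 11 [4, 3, 3, 3, 3, 3, 3, 3, 3, 3, 3, 2, 2, 1, 1] := emp_of_cK (m0 := 4) (ms :=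
    [3, 3, 3, 3, 3, 3, 3, 3, 3, 3, 2, 2, 1, 1]) (qs := [(0, 3), (4, 3), (3, 6), (0, 5), (4, 6),
    (5, 5), (2, 5), (6, 3), (4, 1), (3, 2), (5, 2), (3, 5), (2, 6), (4, 4)]) (by norm_num) (by
    decide +kernel)

theorem c112 : Emp 11 [4, 3, 3, 3, 3, 3, 3, 3, 3, 3, 3, 3, 1, 1] := emp_of_cK (m0 := 4) (ms := [3,
    3, 3, 3, 3, 3, 3, 3, 3, 3, 3, 1, 1]) (qs := [(2, 6), (4, 4), (3, 4), (5, 4), (0, 4), (5, 3),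
    (2, 3), (5, 0), (5, 2), (4, 5), (3, 6), (2, 2), (3, 0)]) (by norm_num) (by decide +kernel)

theorem c114 : Emp 11 [5, 3, 3, 3, 3, 3, 3, 3, 3, 3, 2, 2, 1, 1, 1] := emp_of_cK (m0 := 5) (ms :=
    [3, 3, 3, 3, 3, 3, 3, 3, 3, 2, 2, 1, 1, 1]) (qs := [(0, 4), (2, 2), (5, 2), (4, 2), (1, 1),
    (3, 0), (2, 1), (3, 1), (5, 3), (2, 3), (4, 5), (0, 5), (3, 6), (5, 4)]) (by norm_num) (by
    decide +kernel)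

end Pool.Agent.N108.ZZ.T
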