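import Pool.Agent.N108.SG.Dom

set_option autoImplicit false

/-!
# Certificates of independence of the conditions
-/

namespace Pool.Agent.N108.ZZ.T

open Pool.Agent.N108.SG

theorem c2 : Emp 39 [13, 13, 13, 13, 13, 13, 13, 13, 10, 8, 1] := emp_of_cK (m0 := 13) (ms := [13,
    13, 13, 13, 13, 13, 13, 10, 8, 1]) (qs := [(6, 3), (2, 4), (4, 4), (6, 5), (4, 3), (5, 5), (2,
    0), (4, 6), (2, 1), (3, 0)]) (by norm_num) (by decide +kernel)

theorem c1 : Emp 39 [13, 13, 13, 13, 13, 13, 13, 13, 9, 9, 1, 1] := emp_of_cK (m0 := 13) (ms :=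
    [13, 13, 13, 13, 13, 13, 13, 9, 9, 1, 1]) (qs := [(0, 4), (5, 3), (2, 3), (5, 0), (2, 6), (5,
    2), (4, 5), (3, 6), (2, 2), (3, 0), (1, 4)]) (by norm_num) (by decide +kernel)

end Pool.Agent.N108.ZZ.T
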