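import Pool.Agent.N108.SG.Dom

set_option autoImplicit false

/-!
# Certificates of independence of the conditions
-/

namespace Pool.Agent.N108.ZZ.T

open Pool.Agent.N108.SG

theorem c8 : Emp 36 [12, 12, 12, 12, 12, 12, 12, 11, 9, 9, 1] := emp_of_cK (m0 := 12) (ms := [12,
    12, 12, 12, 12, 12, 11, 9, 9, 1]) (qs := [(2, 2), (2, 0), (0, 1), (1, 0), (5, 2), (3, 1), (5,
    6), (1, 6), (1, 1), (5, 4)]) (by norm_num) (by decide +kernel)

theorem c7 : Emp 36 [12, 12, 12, 12, 12, 12, 12, 10, 10, 9, 1, 1] := emp_of_cK (m0 := 12) (ms :=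
    [12, 12, 12, 12, 12, 12, 10, 10, 9, 1, 1]) (qs := [(0, 4), (5, 3), (2, 3), (5, 0), (2, 6), (5,
    2), (4, 5), (3, 6), (2, 2), (3, 0), (1, 4)]) (by norm_num) (by decide +kernel)

theorem c5 : Emp 36 [12, 12, 12, 12, 12, 12, 11, 11, 10, 9, 1, 1, 1] := emp_of_cK (m0 := 12) (ms
    := [12, 12, 12, 12, 12, 11, 11, 10, 9, 1, 1, 1]) (qs := [(3, 2), (6, 2), (5, 6), (2, 6), (6,
    3), (4, 1), (4, 4), (6, 6), (2, 5), (1, 6), (2, 1), (0, 3)]) (by norm_num) (by decide +kernel)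

end Pool.Agent.N108.ZZ.T
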