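import Pool.Agent.N108.SG.Dom

set_option autoImplicit false

/-!
# Certificates of independence of the conditions
-/

namespace Pool.Agent.N108.ZZ.T

open Pool.Agent.N108.SG

theorem c4 : Emp 36 [12, 12, 12, 12, 12, 12, 11, 10, 10, 10, 1, 1, 1, 1] := emp_of_cK (m0 := 12)
    (ms := [12, 12, 12, 12, 12, 11, 10, 10, 10, 1, 1, 1, 1]) (qs := [(4, 4), (4, 0), (0, 3), (3,
    4), (5, 4), (1, 0), (2, 5), (1, 3), (2, 1), (4, 3), (0, 5), (1, 1), (6, 3)]) (by norm_num) (by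
    decide +kernel)

theorem c9 : Emp 36 [14, 11, 11, 11, 11, 11, 11, 11, 11, 11, 1, 1, 1, 1] := emp_of_cK (m0 := 14)
    (ms := [11, 11, 11, 11, 11, 11, 11, 11, 11, 1, 1, 1, 1]) (qs := [(5, 2), (4, 6), (0, 1), (3,
    2), (4, 1), (0, 4), (3, 5), (6, 6), (4, 4), (2, 3), (4, 5), (5, 4), (2, 5)]) (by norm_num) (by
    decide +kernel)

theorem c11 : Emp 35 [12, 12, 11, 11, 11, 11, 11, 11, 11, 9, 1, 1, 1] := emp_of_cK (m0 := 12) (ms
    := [12, 11, 11, 11, 11, 11, 11, 11, 9, 1, 1, 1]) (qs := [(3, 2), (6, 2), (5, 6), (2, 6), (6,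
    3), (4, 1), (4, 4), (6, 6), (2, 5), (1, 6), (2, 1), (0, 3)]) (by norm_num) (by decide +kernel)

end Pool.Agent.N108.ZZ.T
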