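import Pool.Agent.N108.SG.Dom

set_option autoImplicit false

/-!
# Certificates of independence of the conditions
-/

namespace Pool.Agent.N108.ZZ.T

open Pool.Agent.N108.SG

theorem c10 : Emp 35 [12, 12, 11, 11, 11, 11, 11, 11, 10, 10, 1, 1, 1, 1] := emp_of_cK (m0 := 12)
    (ms := [12, 11, 11, 11, 11, 11, 11, 10, 10, 1, 1, 1, 1]) (qs := [(2, 2), (2, 0), (0, 1), (1,
    0), (5, 2), (3, 1), (5, 6), (1, 6), (1, 1), (5, 4), (6, 5), (3, 3), (1, 5)]) (by norm_num) (by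
    decide +kernel)

theorem c13 : Emp 35 [13, 11, 11, 11, 11, 11, 11, 11, 11, 9, 1, 1] := emp_of_cK (m0 := 13) (ms :=
    [11, 11, 11, 11, 11, 11, 11, 11, 9, 1, 1]) (qs := [(6, 3), (2, 4), (4, 4), (6, 5), (4, 3), (5,
    5), (2, 0), (4, 6), (2, 1), (3, 0), (1, 2)]) (by norm_num) (by decide +kernel)

theorem c12 : Emp 35 [13, 11, 11, 11, 11, 11, 11, 11, 10, 10, 1, 1, 1] := emp_of_cK (m0 := 13) (ms
    := [11, 11, 11, 11, 11, 11, 11, 10, 10, 1, 1, 1]) (qs := [(3, 2), (6, 2), (5, 6), (2, 6), (6,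
    3), (4, 1), (4, 4), (6, 6), (2, 5), (1, 6), (2, 1), (0, 3)]) (by norm_num) (by decide +kernel)

end Pool.Agent.N108.ZZ.T
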