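import Pool.Agent.N108.SG.Dom

set_option autoImplicit false

/-!
# Certificates of independence of the conditions
-/

namespace Pool.Agent.N108.ZZ.T

open Pool.Agent.N108.SG

theorem c16 : Emp 34 [12, 11, 11, 11, 11, 11, 10, 10, 10, 10, 1, 1] := emp_of_cK (m0 := 12) (ms :=
    [11, 11, 11, 11, 11, 10, 10, 10, 10, 1, 1]) (qs := [(0, 4), (5, 3), (2, 3), (5, 0), (2, 6),
    (5, 2), (4, 5), (3, 6), (2, 2), (3, 0), (1, 4)]) (by norm_num) (by decide +kernel)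

theorem c18 : Emp 33 [11, 11, 11, 11, 10, 10, 10, 10, 10, 10, 1] := emp_of_cK (m0 := 11) (ms :=
    [11, 11, 11, 10, 10, 10, 10, 10, 10, 1]) (qs := [(4, 6), (2, 5), (5, 2), (3, 5), (0, 5), (2,
    6), (4, 1), (4, 4), (3, 1), (1, 4)]) (by norm_num) (by decide +kernel)

theorem c20 : Emp 30 [10, 10, 10, 10, 10, 10, 10, 9, 8, 7, 1, 1] := emp_of_cK (m0 := 10) (ms :=
    [10, 10, 10, 10, 10, 10, 9, 8, 7, 1, 1]) (qs := [(0, 4), (5, 3), (2, 3), (5, 0), (2, 6), (5,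
    2), (4, 5), (3, 6), (2, 2), (3, 0), (1, 4)]) (by norm_num) (by decide +kernel)

theorem c19 : Emp 30 [10, 10, 10, 10, 10, 10, 10, 8, 8, 8, 1, 1, 1] := emp_of_cK (m0 := 10) (ms :=
    [10, 10, 10, 10, 10, 10, 8, 8, 8, 1, 1, 1]) (qs := [(3, 2), (6, 2), (5, 6), (2, 6), (6, 3),
    (4, 1), (4, 4), (6, 6), (2, 5), (1, 6), (2, 1), (0, 3)]) (by norm_num) (by decide +kernel)

theorem c21 : Emp 29 [11, 9, 9, 9, 9, 9, 9, 9, 9, 8, 1, 1, 1] := emp_of_cK (m0 := 11) (ms := [9,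
    9, 9, 9, 9, 9, 9, 9, 8, 1, 1, 1]) (qs := [(2, 2), (5, 2), (4, 2), (1, 1), (3, 0), (2, 1), (3,
    1), (5, 3), (2, 3), (4, 5), (0, 5), (3, 6)]) (by norm_num) (by decide +kernel)

end Pool.Agent.N108.ZZ.T
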