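import Pool.Agent.N108.SG.Dom

set_option autoImplicit false

/-!
# Certificates of independence of the conditions
-/

namespace Pool.Agent.N108.ZZ.T

open Pool.Agent.N108.SG

theorem c23 : Emp 28 [9, 9, 9, 9, 9, 9, 9, 9, 9, 7, 1, 1] := emp_of_cK (m0 := 9) (ms := [9, 9, 9,
    9, 9, 9, 9, 9, 7, 1, 1]) (qs := [(0, 4), (5, 3), (2, 3), (5, 0), (2, 6), (5, 2), (4, 5), (3,
    6), (2, 2), (3, 0), (1, 4)]) (by norm_num) (by decide +kernel)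

theorem c22 : Emp 28 [9, 9, 9, 9, 9, 9, 9, 9, 8, 8, 1, 1, 1] := emp_of_cK (m0 := 9) (ms := [9, 9,
    9, 9, 9, 9, 9, 8, 8, 1, 1, 1]) (qs := [(3, 2), (6, 2), (5, 6), (2, 6), (6, 3), (4, 1), (4, 4),
    (6, 6), (2, 5), (1, 6), (2, 1), (0, 3)]) (by norm_num) (by decide +kernel)

theorem c24 : Emp 28 [10, 9, 9, 9, 9, 9, 9, 8, 8, 8, 1, 1] := emp_of_cK (m0 := 10) (ms := [9, 9,
    9, 9, 9, 9, 8, 8, 8, 1, 1]) (qs := [(6, 3), (4, 1), (4, 4), (6, 6), (2, 5), (6, 2), (1, 6),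
    (2, 1), (0, 3), (2, 0), (1, 5)]) (by norm_num) (by decide +kernel)

theorem c25 : Emp 27 [9, 9, 9, 9, 9, 9, 9, 8, 8, 5, 2, 1] := emp_of_cK (m0 := 9) (ms := [9, 9, 9,
    9, 9, 9, 8, 8, 5, 2, 1]) (qs := [(6, 3), (2, 4), (4, 4), (6, 5), (4, 3), (5, 5), (2, 0), (4,
    6), (2, 1), (3, 0), (1, 2)]) (by norm_num) (by decide +kernel)

theorem c26 : Emp 27 [9, 9, 9, 9, 9, 9, 9, 9, 6, 6, 2, 1] := emp_of_cK (m0 := 9) (ms := [9, 9, 9,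
    9, 9, 9, 9, 6, 6, 2, 1]) (qs := [(6, 3), (2, 4), (4, 4), (6, 5), (4, 3), (5, 5), (2, 0), (4,
    6), (2, 1), (3, 0), (1, 2)]) (by norm_num) (by decide +kernel)

theorem c28 : Emp 25 [9, 8, 8, 8, 8, 8, 8, 8, 7, 6, 2, 1, 1] := emp_of_cK (m0 := 9) (ms := [8, 8,
    8, 8, 8, 8, 8, 7, 6, 2, 1, 1]) (qs := [(3, 2), (6, 2), (5, 6), (2, 6), (6, 3), (4, 1), (4, 4),
    (6, 6), (2, 5), (1, 6), (2, 1), (0, 3)]) (by norm_num) (by decide +kernel)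

theorem c27 : Emp 25 [9, 8, 8, 8, 8, 8, 8, 7, 7, 7, 2, 1, 1, 1] := emp_of_cK (m0 := 9) (ms := [8,
    8, 8, 8, 8, 8, 7, 7, 7, 2, 1, 1, 1]) (qs := [(5, 2), (4, 6), (0, 1), (3, 2), (4, 1), (0, 4),
    (3, 5), (6, 6), (4, 4), (2, 3), (4, 5), (5, 4), (2, 5)]) (by norm_num) (by decide +kernel)

theorem c31 : Emp 24 [8, 8, 8, 8, 8, 8, 8, 7, 7, 4, 3, 1] := emp_of_cK (m0 := 8) (ms := [8, 8, 8,
    8, 8, 8, 7, 7, 4, 3, 1]) (qs := [(6, 3), (2, 4), (4, 4), (6, 5), (4, 3), (5, 5), (2, 0), (4,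
    6), (2, 1), (3, 0), (1, 2)]) (by norm_num) (by decide +kernel)

theorem c30 : Emp 24 [8, 8, 8, 8, 8, 8, 7, 7, 7, 6, 2, 1] := emp_of_cK (m0 := 8) (ms := [8, 8, 8,
    8, 8, 7, 7, 7, 6, 2, 1]) (qs := [(0, 4), (5, 3), (2, 3), (5, 0), (2, 6), (5, 2), (4, 5), (3,
    6), (2, 2), (3, 0), (1, 4)]) (by norm_num) (by decide +kernel)

theorem c33 : Emp 24 [8, 8, 8, 8, 8, 8, 8, 8, 5, 5, 3, 1] := emp_of_cK (m0 := 8) (ms := [8, 8, 8,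
    8, 8, 8, 8, 5, 5, 3, 1]) (qs := [(6, 3), (2, 4), (4, 4), (6, 5), (4, 3), (5, 5), (2, 0), (4,
    6), (2, 1), (3, 0), (1, 2)]) (by norm_num) (by decide +kernel)

end Pool.Agent.N108.ZZ.T
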