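import Pool.Agent.N108.ZZ.T1
import Pool.Agent.N108.ZZ.T2
import Pool.Agent.N108.ZZ.T3
import Pool.Agent.N108.ZZ.T4
import Pool.Agent.N108.ZZ.T5
import Pool.Agent.N108.ZZ.T6
import Pool.Agent.N108.ZZ.T7
import Pool.Agent.N108.ZZ.T8
import Pool.Agent.N108.ZZ.T9
import Pool.Agent.N108.ZZ.T10
import Pool.Agent.N108.ZZ.T11
import Pool.Agent.N108.ZZ.Dom

set_option autoImplicit false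

/-!
# The list of the certificates
-/

namespace Pool.Agent.N108.ZZ.T

open Pool.Agent.N108.SG

/-- The classes. -/
def cl : List (ℕ × List ℕ) := [
  (42, [14, 14, 14, 14, 14, 14, 14, 13, 13, 7, 1]),
  (39, [13, 13, 13, 13, 13, 13, 13, 13, 9, 9, 1, 1]),
  (39, [13, 13, 13, 13, 13, 13, 13, 13, 10, 8, 1]),
  (37, [13, 12, 12, 12, 12, 12, 12, 12, 11, 8, 1, 1]),
  (36, [12, 12, 12, 12, 12, 12, 11, 10, 10, 10, 1, 1, 1, 1]),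
  (36, [12, 12, 12, 12, 12, 12, 11, 11, 10, 9, 1, 1, 1]),
  (36, [12, 12, 12, 12, 12, 12, 11, 11, 11, 8, 1]),
  (36, [12, 12, 12, 12, 12, 12, 12, 10, 10, 9, 1, 1]),
  (36, [12, 12, 12, 12, 12, 12, 12, 11, 9, 9, 1]),
  (36, [14, 11, 11, 11, 11, 11, 11, 11, 11, 11, 1, 1, 1, 1]),
  (35, [12, 12, 11, 11, 11, 11, 11, 11, 10, 10, 1, 1, 1, 1]),
  (35, [12, 12, 11, 11, 11, 11, 11, 11, 11, 9, 1, 1, 1]),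
  (35, [13, 11, 11, 11, 11, 11, 11, 11, 10, 10, 1, 1, 1]),
  (35, [13, 11, 11, 11, 11, 11, 11, 11, 11, 9, 1, 1]),
  (34, [11, 11, 11, 11, 11, 11, 11, 10, 10, 10, 1, 1, 1]),
  (34, [11, 11, 11, 11, 11, 11, 11, 11, 10, 9, 1, 1]),
  (34, [12, 11, 11, 11, 11, 11, 10, 10, 10, 10, 1, 1]),
  (34, [12, 11, 11, 11, 11, 11, 11, 10, 10, 9, 1]),
  (33, [11, 11, 11, 11, 10, 10, 10, 10, 10, 10, 1]),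
  (30, [10, 10, 10, 10, 10, 10, 10, 8, 8, 8, 1, 1, 1]),
  (30, [10, 10, 10, 10, 10, 10, 10, 9, 8, 7, 1, 1]),
  (29, [11, 9, 9, 9, 9, 9, 9, 9, 9, 8, 1, 1, 1]),
  (28, [9, 9, 9, 9, 9, 9, 9, 9, 8, 8, 1, 1, 1]),
  (28, [9, 9, 9, 9, 9, 9, 9, 9, 9, 7, 1, 1]),
  (28, [10, 9, 9, 9, 9, 9, 9, 8, 8, 8, 1, 1]),
  (27, [9, 9, 9, 9, 9, 9, 9, 8, 8, 5, 2, 1]),
  (27, [9, 9, 9, 9, 9, 9, 9, 9, 6, 6, 2, 1]),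
  (25, [9, 8, 8, 8, 8, 8, 8, 7, 7, 7, 2, 1, 1, 1]),
  (25, [9, 8, 8, 8, 8, 8, 8, 8, 7, 6, 2, 1, 1]),
  (24, [8, 8, 8, 8, 8, 7, 7, 7, 7, 7, 2, 1, 1]),
  (24, [8, 8, 8, 8, 8, 8, 7, 7, 7, 6, 2, 1]),
  (24, [8, 8, 8, 8, 8, 8, 8, 7, 7, 4, 3, 1]),
  (24, [8, 8, 8, 8, 8, 8, 8, 8, 5, 4, 4, 1, 1]),
  (24, [8, 8, 8, 8, 8, 8, 8, 8, 5, 5, 3, 1]),
  (23, [8, 8, 7, 7, 7, 7, 7, 7, 7, 7, 2, 1]),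
  (23, [9, 7, 7, 7, 7, 7, 7, 7, 7, 7, 1, 1, 1]),
  (22, [8, 7, 7, 7, 7, 7, 7, 6, 6, 6, 3, 1, 1, 1]),
  (22, [8, 7, 7, 7, 7, 7, 7, 7, 6, 5, 3, 1, 1]),
  (21, [7, 7, 7, 7, 7, 6, 6, 6, 6, 6, 3, 1, 1]),
  (21, [7, 7, 7, 7, 7, 7, 6, 5, 5, 5, 5, 1, 1, 1, 1]),
  (21, [7, 7, 7, 7, 7, 7, 6, 6, 5, 5, 4, 1, 1, 1]),
  (21, [7, 7, 7, 7, 7, 7, 6, 6, 6, 4, 4, 1, 1]),
  (21, [7, 7, 7, 7, 7, 7, 6, 6, 6, 5, 3, 1]),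
  (21, [7, 7, 7, 7, 7, 7, 7, 5, 5, 5, 4, 1, 1]),
  (21, [7, 7, 7, 7, 7, 7, 7, 6, 5, 4, 4, 1]),
  (21, [9, 6, 6, 6, 6, 6, 6, 6, 6, 6, 5, 1, 1, 1, 1]),
  (20, [7, 6, 6, 6, 6, 6, 6, 6, 6, 6, 4, 1, 1, 1, 1]),
  (20, [7, 7, 6, 6, 6, 6, 6, 6, 5, 5, 5, 1, 1, 1, 1]),
  (20, [7, 7, 6, 6, 6, 6, 6, 6, 6, 5, 4, 1, 1, 1]),
  (20, [7, 7, 6, 6, 6, 6, 6, 6, 6, 6, 3, 1]),
  (20, [8, 6, 6, 6, 6, 6, 6, 6, 5, 5, 5, 1, 1, 1]),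
  (20, [8, 6, 6, 6, 6, 6, 6, 6, 6, 5, 4, 1, 1]),
  (20, [8, 6, 6, 6, 6, 6, 6, 6, 6, 6, 2, 1, 1, 1]),
  (19, [6, 6, 6, 6, 6, 6, 6, 5, 5, 5, 5, 1, 1, 1]),
  (19, [6, 6, 6, 6, 6, 6, 6, 6, 5, 5, 4, 1, 1]),
  (19, [6, 6, 6, 6, 6, 6, 6, 6, 6, 4, 4, 1]),
  (19, [7, 6, 6, 6, 6, 6, 5, 5, 5, 5, 5, 1, 1]),
  (19, [7, 6, 6, 6, 6, 6, 6, 5, 5, 5, 4, 1]),
  (19, [7, 6, 6, 6, 6, 6, 6, 6, 5, 5, 2, 1, 1]),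
  (18, [6, 6, 6, 6, 5, 5, 5, 5, 5, 5, 5, 1]),
  (18, [6, 6, 6, 6, 6, 6, 6, 4, 4, 4, 4, 1, 1, 1]),
  (18, [6, 6, 6, 6, 6, 6, 6, 5, 4, 4, 2, 2, 1, 1]),
  (18, [6, 6, 6, 6, 6, 6, 6, 5, 4, 4, 3, 1, 1]),
  (18, [6, 6, 6, 6, 6, 6, 6, 5, 5, 3, 2, 2, 1]),
  (18, [6, 6, 6, 6, 6, 6, 6, 6, 3, 3, 3, 2, 1]),
  (18, [8, 5, 5, 5, 5, 5, 5, 5, 5, 5, 5, 1, 1, 1, 1]),
  (17, [6, 6, 5, 5, 5, 5, 5, 5, 5, 5, 3, 2]),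
  (17, [7, 5, 5, 5, 5, 5, 5, 5, 5, 4, 4, 1, 1, 1]),
  (17, [7, 5, 5, 5, 5, 5, 5, 5, 5, 5, 2, 2, 1, 1]),
  (17, [7, 5, 5, 5, 5, 5, 5, 5, 5, 5, 3, 1, 1]),
  (17, [11, 4, 4, 4, 3, 3, 3, 3, 3, 3, 3, 3, 3, 3, 3, 3, 2]),
  (16, [5, 5, 5, 5, 5, 5, 5, 5, 4, 4, 4, 1, 1, 1]),
  (16, [5, 5, 5, 5, 5, 5, 5, 5, 5, 4, 2, 2, 1, 1]),
  (16, [5, 5, 5, 5, 5, 5, 5, 5, 5, 4, 3, 1, 1]),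
  (16, [6, 5, 5, 5, 5, 5, 4, 4, 4, 4, 4, 2, 1, 1, 1, 1]),
  (16, [6, 5, 5, 5, 5, 5, 5, 4, 4, 4, 3, 2, 1, 1, 1]),
  (16, [6, 5, 5, 5, 5, 5, 5, 4, 4, 4, 4, 1, 1]),
  (16, [6, 5, 5, 5, 5, 5, 5, 5, 3, 3, 3, 3, 1, 1, 1]),
  (16, [6, 5, 5, 5, 5, 5, 5, 5, 4, 3, 3, 2, 1, 1]),
  (16, [6, 5, 5, 5, 5, 5, 5, 5, 4, 4, 2, 2, 1]),
  (16, [8, 4, 4, 4, 4, 4, 4, 4, 4, 4, 4, 4, 1, 1, 1, 1, 1, 1, 1]),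
  (15, [5, 5, 5, 5, 4, 4, 4, 4, 4, 4, 4, 3]),
  (15, [5, 5, 5, 5, 5, 4, 4, 4, 4, 3, 3, 3, 1, 1, 1]),
  (15, [5, 5, 5, 5, 5, 4, 4, 4, 4, 4, 3, 2, 1, 1]),
  (15, [5, 5, 5, 5, 5, 5, 4, 4, 3, 3, 3, 3, 1, 1]),
  (15, [5, 5, 5, 5, 5, 5, 4, 4, 4, 3, 3, 2, 1]),
  (15, [5, 5, 5, 5, 5, 5, 5, 3, 3, 3, 3, 3, 1]),
  (15, [6, 5, 4, 4, 4, 4, 4, 4, 4, 4, 4, 4]),
  (15, [7, 4, 4, 4, 4, 4, 4, 4, 4, 4, 4, 3, 1, 1]),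
  (15, [9, 3, 3, 3, 3, 3, 3, 3, 3, 3, 3, 3, 3, 3, 2, 1, 1, 1, 1, 1, 1, 1, 1, 1, 1]),
  (14, [4, 4, 4, 4, 4, 4, 4, 4, 4, 4, 4, 3, 1, 1, 1, 1]),
  (14, [5, 4, 4, 4, 4, 4, 4, 4, 4, 4, 3, 3, 1, 1, 1]),
  (14, [5, 4, 4, 4, 4, 4, 4, 4, 4, 4, 4, 2, 1, 1]),
  (14, [5, 5, 4, 4, 4, 4, 4, 4, 4, 3, 3, 3, 1, 1]),
  (14, [5, 5, 4, 4, 4, 4, 4, 4, 4, 4, 3, 2, 1]),
  (14, [6, 4, 4, 4, 4, 4, 4, 4, 4, 3, 3, 3, 1]),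
  (14, [6, 4, 4, 4, 4, 4, 4, 4, 4, 4, 3, 2]),
  (14, [8, 3, 3, 3, 3, 3, 3, 3, 3, 3, 3, 3, 3, 3, 2, 1, 1, 1]),
  (13, [4, 4, 4, 4, 4, 4, 4, 4, 3, 3, 3, 3, 1]),
  (13, [5, 4, 4, 4, 3, 3, 3, 3, 3, 3, 3, 3, 3, 1, 1, 1, 1, 1, 1]),
  (13, [5, 4, 4, 4, 4, 4, 3, 3, 3, 3, 3, 3, 2, 1]),
  (13, [5, 4, 4, 4, 4, 4, 4, 3, 3, 3, 3, 2, 2]),
  (13, [5, 4, 4, 4, 4, 4, 4, 4, 3, 3, 2, 2, 1, 1]),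
  (13, [7, 3, 3, 3, 3, 3, 3, 3, 3, 3, 3, 3, 3, 2, 1, 1]),
  (12, [4, 4, 4, 4, 3, 3, 3, 3, 3, 3, 3, 3, 2]),
  (12, [4, 4, 4, 4, 4, 3, 3, 3, 3, 3, 2, 2, 2, 1, 1]),
  (12, [4, 4, 4, 4, 4, 3, 3, 3, 3, 3, 3, 2, 1, 1]),
  (12, [5, 4, 3, 3, 3, 3, 3, 3, 3, 3, 3, 3, 3]),
  (12, [6, 3, 3, 3, 3, 3, 3, 3, 3, 3, 2, 2, 2, 2, 1, 1, 1, 1]),
  (12, [6, 3, 3, 3, 3, 3, 3, 3, 3, 3, 3, 3, 2, 1]),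
  (11, [3, 3, 3, 3, 3, 3, 3, 3, 3, 3, 3, 3, 2, 1, 1, 1]),
  (11, [4, 3, 3, 3, 3, 3, 3, 3, 3, 3, 3, 2, 2, 1, 1]),
  (11, [4, 3, 3, 3, 3, 3, 3, 3, 3, 3, 3, 3, 1, 1]),
  (11, [4, 4, 3, 3, 3, 3, 3, 3, 3, 3, 2, 2, 2, 1]),
  (11, [5, 3, 3, 3, 3, 3, 3, 3, 3, 3, 2, 2, 1, 1, 1])]

theorem fl_cl : ∀ x ∈ cl, Fl x :=
  fl_cons ⟨c0, by decide⟩ (
  fl_cons ⟨c1, by decide⟩ (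
  fl_cons ⟨c2, by decide⟩ (
  fl_cons ⟨c3, by decide⟩ (
  fl_cons ⟨c4, by decide⟩ (
  fl_cons ⟨c5, by decide⟩ (
  fl_cons ⟨c6, by decide⟩ (
  fl_cons ⟨c7, by decide⟩ (
  fl_cons ⟨c8, by decide⟩ (
  fl_cons ⟨c9, by decide⟩ (
  fl_cons ⟨c10, by decide⟩ (
  fl_cons ⟨c11, by decide⟩ (
  fl_cons ⟨c12, by decide⟩ (
  fl_cons ⟨c13, by decide⟩ (
  fl_cons ⟨c14, by decide⟩ (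
  fl_cons ⟨c15, by decide⟩ (
  fl_cons ⟨c16, by decide⟩ (
  fl_cons ⟨c17, by decide⟩ (
  fl_cons ⟨c18, by decide⟩ (
  fl_cons ⟨c19, by decide⟩ (
  fl_cons ⟨c20, by decide⟩ (
  fl_cons ⟨c21, by decide⟩ (
  fl_cons ⟨c22, by decide⟩ (
  fl_cons ⟨c23, by decide⟩ (
  fl_cons ⟨c24, by decide⟩ (
  fl_cons ⟨c25, by decide⟩ (
  fl_cons ⟨c26, by decide⟩ (
  fl_cons ⟨c27, by decide⟩ (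
  fl_cons ⟨c28, by decide⟩ (
  fl_cons ⟨c29, by decide⟩ (
  fl_cons ⟨c30, by decide⟩ (
  fl_cons ⟨c31, by decide⟩ (
  fl_cons ⟨c32, by decide⟩ (
  fl_cons ⟨c33, by decide⟩ (
  fl_cons ⟨c34, by decide⟩ (
  fl_cons ⟨c35, by decide⟩ (
  fl_cons ⟨c36, by decide⟩ (
  fl_cons ⟨c37, by decide⟩ (
  fl_cons ⟨c38, by decide⟩ (
  fl_cons ⟨c39, by decide⟩ (
  fl_cons ⟨c40, by decide⟩ (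
  fl_cons ⟨c41, by decide⟩ (
  fl_cons ⟨c42, by decide⟩ (
  fl_cons ⟨c43, by decide⟩ (
  fl_cons ⟨c44, by decide⟩ (
  fl_cons ⟨c45, by decide⟩ (
  fl_cons ⟨c46, by decide⟩ (
  fl_cons ⟨c47, by decide⟩ (
  fl_cons ⟨c48, by decide⟩ (
  fl_cons ⟨c49, by decide⟩ (
  fl_cons ⟨c50, by decide⟩ (
  fl_cons ⟨c51, by decide⟩ (
  fl_cons ⟨c52, by decide⟩ (
  fl_cons ⟨c53, by decide⟩ (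
  fl_cons ⟨c54, by decide⟩ (
  fl_cons ⟨c55, by decide⟩ (
  fl_cons ⟨c56, by decide⟩ (
  fl_cons ⟨c57, by decide⟩ (
  fl_cons ⟨c58, by decide⟩ (
  fl_cons ⟨c59, by decide⟩ (
  fl_cons ⟨c60, by decide⟩ (
  fl_cons ⟨c61, by decide⟩ (
  fl_cons ⟨c62, by decide⟩ (
  fl_cons ⟨c63, by decide⟩ (
  fl_cons ⟨c64, by decide⟩ (
  fl_cons ⟨c65, by decide⟩ (
  fl_cons ⟨c66, by decide⟩ (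
  fl_cons ⟨c67, by decide⟩ (
  fl_cons ⟨c68, by decide⟩ (
  fl_cons ⟨c69, by decide⟩ (
  fl_cons ⟨c70, by decide⟩ (
  fl_cons ⟨c71, by decide⟩ (
  fl_cons ⟨c72, by decide⟩ (
  fl_cons ⟨c73, by decide⟩ (
  fl_cons ⟨c74, by decide⟩ (
  fl_cons ⟨c75, by decide⟩ (
  fl_cons ⟨c76, by decide⟩ (
  fl_cons ⟨c77, by decide⟩ (
  fl_cons ⟨c78, by decide⟩ (
  fl_cons ⟨c79, by decide⟩ (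
  fl_cons ⟨c80, by decide⟩ (
  fl_cons ⟨c81, by decide⟩ (
  fl_cons ⟨c82, by decide⟩ (
  fl_cons ⟨c83, by decide⟩ (
  fl_cons ⟨c84, by decide⟩ (
  fl_cons ⟨c85, by decide⟩ (
  fl_cons ⟨c86, by decide⟩ (
  fl_cons ⟨c87, by decide⟩ (
  fl_cons ⟨c88, by decide⟩ (
  fl_cons ⟨c89, by decide⟩ (
  fl_cons ⟨c90, by decide⟩ (
  fl_cons ⟨c91, by decide⟩ (
  fl_cons ⟨c92, by decide⟩ (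
  fl_cons ⟨c93, by decide⟩ (
  fl_cons ⟨c94, by decide⟩ (
  fl_cons ⟨c95, by decide⟩ (
  fl_cons ⟨c96, by decide⟩ (
  fl_cons ⟨c97, by decide⟩ (
  fl_cons ⟨c98, by decide⟩ (
  fl_cons ⟨c99, by decide⟩ (
  fl_cons ⟨c100, by decide⟩ (
  fl_cons ⟨c101, by decide⟩ (
  fl_cons ⟨c102, by decide⟩ (
  fl_cons ⟨c103, by decide⟩ (
  fl_cons ⟨c104, by decide⟩ (
  fl_cons ⟨c105, by decide⟩ (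
  fl_cons ⟨c106, by decide⟩ (
  fl_cons ⟨c107, by decide⟩ (
  fl_cons ⟨c108, by decide⟩ (
  fl_cons ⟨c109, by decide⟩ (
  fl_cons ⟨c110, by decide⟩ (
  fl_cons ⟨c111, by decide⟩ (
  fl_cons ⟨c112, by decide⟩ (
  fl_cons ⟨c113, by decide⟩ (
  fl_cons ⟨c114, by decide⟩ (
  fl_nil)))))))))))))))))))))))))))))))))))))))))))))))))))))))))))))))))))))))))))))))))))))))))))))))))))))))))))))))))))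

end Pool.Agent.N108.ZZ.T
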